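import Pool.Agent.H462.N9.Law.Box
import Pool.Graph.R_seed8.Y911.CX.KEY

/-! The sum over the boxes (adapted from `Y911/CX/KEY.lean`). -/

set_option autoImplicit false

open scoped Classical

namespace Pool.Agent.H462.N9.Law

open Finset
open Pool.Agent.Y703.CX (lam jj XX eL zz kk sm la HB prs LamP S_EQ S_C3 S_BIL1)
open Pool.Agent.Y699.E (ez)
open Pool.Agent.Y911.CX (le_XX sm_la_card sm_la_prod root12 prs_card card_sub TT mem_TT harm_TT)

/-- the key of a set -/
noncomputable def ky (z H : ℕ) (S : Finset ℕ) : Finset ℕ × Finset ℕ :=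
  (sm z S, (la z S).image (jj H))

/-- the keys which occur -/
structure KP (X z H K V : ℕ) (S₀ : Finset ℕ) (J : Finset ℕ) : Prop where
  pr : ∀ q ∈ S₀, q.Prime ∧ q % 3 = 1
  le : ∀ q ∈ S₀, q ≤ z
  card : S₀.card + J.card ≤ K
  prod : (∏ p ∈ S₀, p) * ∏ e ∈ J, XX H e ≤ X
  few : S₀.card + V < J.card

theorem rr_iff {X z H K V : ℕ} (hH : 1 ≤ H) {S : Finset ℕ} (hS : ∀ q ∈ S, q.Prime ∧ q % 3 = 1)
    (hi : Set.InjOn (jj H) (la z S : Set ℕ)) :
    S ∈ RR X z H K V ↔ KP X z H K V (ky z H S).1 (ky z H S).2 := by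
  set J := (la z S).image (jj H) with hJ
  have hky : ky z H S = (sm z S, J) := rfl
  rw [hky]
  have f2 : J.card = (la z S).card := Finset.card_image_of_injOn hi
  have f8 : ∏ e ∈ J, XX H e = ∏ p ∈ la z S, XX H (jj H p) := by
    rw [hJ, Finset.prod_image hi]
  have hsm : sm z S ⊆ S := Finset.filter_subset _ _
  have hla : la z S ⊆ S := Finset.filter_subset _ _
  constructor
  · intro h
    unfold RR at h
    rw [Finset.mem_filter] at h
    obtain ⟨h1, h2, h3, h4, h5⟩ := h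
    refine ⟨fun q hq => hS q (hsm hq), fun q hq => (Finset.mem_filter.1 hq).2, ?_, ?_, ?_⟩
    · rw [f2, sm_la_card]
      exact h3
    · rw [f8]
      exact h4
    · rw [f2]
      exact h5
  · rintro ⟨k1, k2, k8, k9, k10⟩
    have hprod : ∏ p ∈ S, p ≤ X := by
      rw [← sm_la_prod z S]
      refine le_trans (Nat.mul_le_mul_left _ ?_) k9
      rw [f8]
      refine Finset.prod_le_prod' fun p hp => le_XX hH (hS p (hla hp)).1.one_le
    unfold RR SS
    rw [Finset.mem_filter, Finset.mem_filter, Finset.mem_powerset]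
    refine ⟨⟨?_, hS, hprod⟩, hi, ?_, ?_, ?_⟩
    · intro q hq
      rw [Finset.mem_range]
      have h1 : q ∣ ∏ p ∈ S, p := Finset.dvd_prod_of_mem _ hq
      have h2 : 0 < ∏ p ∈ S, p := Finset.prod_pos fun p hp => (hS p hp).1.pos
      have := Nat.le_of_dvd h2 h1
      omega
    · rw [← sm_la_card z S, ← f2]
      exact k8
    · rw [← f8]
      exact k9
    · rw [← f2]
      exact k10

/-- the primes of a block -/
noncomputable def CC (z H : ℕ) (e : ℕ) : Finset ℕ :=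
  (Icc 1 (XX H e)).filter fun p => (p.Prime ∧ p % 3 = 1) ∧ z < p ∧ jj H p = e

theorem mem_CC {z H : ℕ} (hH : 1 ≤ H) {e : ℕ} {p : ℕ} :
    p ∈ CC z H e ↔ (p.Prime ∧ p % 3 = 1) ∧ z < p ∧ jj H p = e := by
  unfold CC
  rw [Finset.mem_filter, Finset.mem_Icc]
  constructor
  · exact fun h => h.2
  · intro h
    refine ⟨⟨h.1.1.one_le, ?_⟩, h⟩
    have := le_XX hH h.1.1.one_le
    rw [h.2.2] at this
    exact this

section fill
variable {z H : ℕ} {S₀ : Finset ℕ} {J : Finset ℕ} {p : J → ℕ}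

theorem sm_fill (hH : 1 ≤ H) (h₀ : ∀ q ∈ S₀, q ≤ z) (hp : ∀ i : J, p i ∈ CC z H i) :
    sm z (S₀ ∪ univ.image p) = S₀ := by
  ext q
  unfold sm
  rw [Finset.mem_filter, Finset.mem_union, Finset.mem_image]
  constructor
  · rintro ⟨h | ⟨i, -, rfl⟩, h2⟩
    · exact h
    · have := ((mem_CC hH).1 (hp i)).2.1
      omega
  · exact fun h => ⟨Or.inl h, h₀ q h⟩

theorem la_fill (hH : 1 ≤ H) (h₀ : ∀ q ∈ S₀, q ≤ z) (hp : ∀ i : J, p i ∈ CC z H i) :
    la z (S₀ ∪ univ.image p) = univ.image p := by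
  ext q
  unfold la
  rw [Finset.mem_filter, Finset.mem_union, Finset.mem_image]
  constructor
  · rintro ⟨h | h, h2⟩
    · exact absurd (h₀ q h) h2
    · exact h
  · rintro ⟨i, -, rfl⟩
    have := ((mem_CC hH).1 (hp i)).2.1
    exact ⟨Or.inr ⟨i, Finset.mem_univ _, rfl⟩, by omega⟩

theorem ph_fill (hH : 1 ≤ H) (hp : ∀ i : J, p i ∈ CC z H i) (i : J) : jj H (p i) = i :=
  ((mem_CC hH).1 (hp i)).2.2

theorem im_fill (hH : 1 ≤ H) (hp : ∀ i : J, p i ∈ CC z H i) :
    (univ.image p).image (jj H) = J := by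
  ext k
  rw [Finset.mem_image]
  constructor
  · rintro ⟨q, hq, rfl⟩
    rw [Finset.mem_image] at hq
    obtain ⟨i, -, rfl⟩ := hq
    rw [ph_fill hH hp]
    exact i.2
  · intro hk
    exact ⟨p ⟨k, hk⟩, Finset.mem_image_of_mem _ (Finset.mem_univ _), ph_fill hH hp ⟨k, hk⟩⟩

theorem ky_fill (hH : 1 ≤ H) (h₀ : ∀ q ∈ S₀, q ≤ z) (hp : ∀ i : J, p i ∈ CC z H i) :
    ky z H (S₀ ∪ univ.image p) = (S₀, J) := by
  unfold ky
  rw [sm_fill hH h₀ hp, la_fill hH h₀ hp, im_fill hH hp]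

theorem inj_fill (hH : 1 ≤ H) (h₀ : ∀ q ∈ S₀, q ≤ z) (hp : ∀ i : J, p i ∈ CC z H i) :
    Set.InjOn (jj H) (la z (S₀ ∪ univ.image p) : Set ℕ) := by
  rw [la_fill hH h₀ hp]
  intro a ha b hb hab
  rw [Finset.mem_coe, Finset.mem_image] at ha hb
  obtain ⟨i, -, rfl⟩ := ha
  obtain ⟨j, -, rfl⟩ := hb
  rw [ph_fill hH hp, ph_fill hH hp] at hab
  rw [Subtype.ext hab]

end fill

theorem rr_facts {X z H K V : ℕ} {S : Finset ℕ} (hS : S ∈ RR X z H K V) :
    (∀ q ∈ S, q.Prime ∧ q % 3 = 1) ∧ Set.InjOn (jj H) (la z S : Set ℕ) ∧ ∏ p ∈ S, p ≤ X := by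
  unfold RR SS at hS
  rw [Finset.mem_filter, Finset.mem_filter] at hS
  exact ⟨hS.1.2.1, hS.2.1, hS.1.2.2⟩

theorem key_bij {X z H K V : ℕ} (hH : 1 ≤ H) {S₀ : Finset ℕ} {J : Finset ℕ}
    (hkey : KP X z H K V S₀ J) (P : Finset ℕ → Prop) [DecidablePred P] [DecidableEq J] :
    ((Fintype.piFinset fun i : J => CC z H i).filter fun p => P (S₀ ∪ univ.image p)).card =
      ((RR X z H K V).filter fun S => ky z H S = (S₀, J) ∧ P S).card := by
  have h₀ := hkey.le
  apply Finset.card_bij (fun (p : J → ℕ) _ => S₀ ∪ univ.image p)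
  · intro p hp
    rw [Finset.mem_filter, Fintype.mem_piFinset] at hp
    obtain ⟨hp, hP⟩ := hp
    have hk := ky_fill hH h₀ hp
    rw [Finset.mem_filter]
    refine ⟨?_, hk, hP⟩
    rw [rr_iff hH _ (inj_fill hH h₀ hp), hk]
    · exact hkey
    · intro q hq
      rw [Finset.mem_union, Finset.mem_image] at hq
      rcases hq with hq | ⟨i, -, rfl⟩
      · exact hkey.pr q hq
      · exact ((mem_CC hH).1 (hp i)).1
  · intro p hp p' hp' h
    rw [Finset.mem_filter, Fintype.mem_piFinset] at hp hp'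
    have h1 := la_fill hH h₀ hp.1
    rw [h, la_fill hH h₀ hp'.1] at h1
    funext i
    have h2 : p i ∈ univ.image p' := by
      rw [h1]
      exact Finset.mem_image_of_mem _ (Finset.mem_univ _)
    rw [Finset.mem_image] at h2
    obtain ⟨j, -, hj⟩ := h2
    have h3 := ph_fill hH hp.1 i
    have h4 := ph_fill hH hp'.1 j
    rw [hj, h3] at h4
    rw [← hj, Subtype.ext h4]
  · intro S hS
    rw [Finset.mem_filter] at hS
    obtain ⟨hSR, hSk, hSP⟩ := hS
    obtain ⟨hSO, hSI, -⟩ := rr_facts hSR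
    have hk1 : sm z S = S₀ := congrArg Prod.fst hSk
    have hk2 : (la z S).image (jj H) = J := congrArg Prod.snd hSk
    have hex : ∀ i : J, ∃ q ∈ la z S, jj H q = i := by
      rintro ⟨i, hi⟩
      rw [← hk2, Finset.mem_image] at hi
      exact hi
    choose p hp1 hp2 using hex
    have him : univ.image p = la z S := by
      ext q
      rw [Finset.mem_image]
      constructor
      · rintro ⟨i, -, rfl⟩
        exact hp1 i
      · intro hq
        have hjq : jj H q ∈ J := by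
          rw [← hk2]
          exact Finset.mem_image_of_mem _ hq
        exact ⟨⟨jj H q, hjq⟩, Finset.mem_univ _, hSI (Finset.mem_coe.2 (hp1 _))
          (Finset.mem_coe.2 hq) (hp2 ⟨jj H q, hjq⟩)⟩
    have hSe : S₀ ∪ univ.image p = S := by
      rw [him, ← hk1]
      unfold sm la
      exact Finset.filter_union_filter_not_eq _ _
    refine ⟨p, ?_, hSe⟩
    rw [Finset.mem_filter, Fintype.mem_piFinset, hSe]
    refine ⟨fun i => (mem_CC hH).2 ⟨hSO _ (Finset.mem_filter.1 (hp1 i)).1,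
      not_le.1 (Finset.mem_filter.1 (hp1 i)).2, hp2 i⟩, hSP⟩

theorem CC_facts {z H : ℕ} (hH : 1 ≤ H) {e : ℕ} {p : ℕ} (hp : p ∈ CC z H e) :
    p.Prime ∧ z < p ∧ p ≤ XX H e ∧ p % 3 = 1 := by
  obtain ⟨h1, h2, h3⟩ := (mem_CC hH).1 hp
  refine ⟨h1.1, h2, ?_, h1.2⟩
  unfold CC at hp
  exact (Finset.mem_Icc.1 (Finset.mem_filter.1 hp).1).2

theorem hb_box {C₁ : ℝ}
    (h1 : ∀ (P Q : Finset ℕ) (A B z : ℕ) (c d : ℕ → ℂ) (a b : ZMod 3),
      (∀ p ∈ P, p.Prime ∧ p % 3 = 1 ∧ p ≤ A) → (∀ q ∈ Q, q.Prime ∧ q % 3 = 1 ∧ q ≤ B) →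
      Disjoint P Q → (a ≠ 0 ∨ b ≠ 0) → 1 ≤ z → z ≤ A → z ≤ B →
      (∀ p, ‖c p‖ ≤ 1) → (∀ q, ‖d q‖ ≤ 1) →
      ‖∑ p ∈ P, ∑ q ∈ Q, c p * d q * ez (a * lam p q + b * lam q p)‖ ^ 12 * z ≤
        C₁ * ((A : ℝ) * B) ^ 12)
    {z H : ℕ} (hH : 1 ≤ H) (hz : 1 ≤ z) {κ : ℝ} (hκ : 0 ≤ κ) (hκ1 : C₁ ≤ κ ^ 12 * z)
    {J : Finset ℕ} :
    HB (univ : Finset J) (fun i : J => CC z H i) (fun i => XX H i.1) κ := by
  intro i l hil a b c d hab ha hb hc hd
  show ‖∑ x ∈ CC z H i, ∑ y ∈ CC z H l, c x * d y * ez (a * lam x y + b * lam y x)‖ ≤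
    κ * ((XX H i.1 : ℝ) * (XX H l.1 : ℝ))
  have hz0 : (0 : ℝ) < z := by exact_mod_cast hz
  have hk0 : (0 : ℝ) ≤ κ * ((XX H i.1 : ℝ) * (XX H l.1 : ℝ)) := by positivity
  rcases (CC z H i).eq_empty_or_nonempty with he | ⟨p₀, hp₀⟩
  · rw [he, Finset.sum_empty, norm_zero]
    exact hk0
  rcases (CC z H l).eq_empty_or_nonempty with he | ⟨q₀, hq₀⟩
  · rw [he]
    simp only [Finset.sum_empty, Finset.sum_const_zero, norm_zero]
    exact hk0
  have hzi : z ≤ XX H i.1 := by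
    have := CC_facts hH hp₀
    omega
  have hzl : z ≤ XX H l.1 := by
    have := CC_facts hH hq₀
    omega
  have m1 : ∀ e : J, ∀ p ∈ CC z H e, p.Prime ∧ p % 3 = 1 ∧ p ≤ XX H e.1 := by
    intro e p hp
    obtain ⟨h3, -, h4, h5⟩ := CC_facts hH hp
    exact ⟨h3, h5, h4⟩
  have hdis : Disjoint (CC z H i) (CC z H l) := by
    rw [Finset.disjoint_left]
    intro p hp hp'
    have h5 := ((mem_CC hH).1 hp).2.2
    have h6 := ((mem_CC hH).1 hp').2.2
    exact hil (Subtype.ext (h5.symm.trans h6))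
  have h3 := h1 (CC z H i) (CC z H l) (XX H i.1) (XX H l.1) z c d a b (m1 i) (m1 l) hdis hab
    hz hzi hzl hc hd
  exact root12 (norm_nonneg _) hκ (Nat.cast_nonneg _) (Nat.cast_nonneg _) hz0 h3 hκ1

theorem box_dec (hEQ : S_EQ) (hC3 : S_C3) (r : ℕ) (ι : Type) [Fintype ι] [Nonempty ι]
    [inst : DecidableEq ι] (C : ι → Finset ℕ) (X : ι → ℕ) (κ : ℝ) (S₀ : Finset ℕ) (h1 : 0 ≤ κ)
    (h2 : ∀ i, (C i).card ≤ X i) (h3 : HB univ C X κ) (h5 : ∀ i, ∀ p ∈ C i, p ∉ S₀)
    (h6 : ∀ i l, i ≠ l → Disjoint (C i) (C l)) :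
    |(((Fintype.piFinset C).filter fun p => Nd S₀ (univ.image p) ∧
        Gr r (S₀ ∪ univ.image p)).card : ℝ) -
      ur r * (((Fintype.piFinset C).filter fun p => Nd S₀ (univ.image p)).card : ℝ)| ≤
    75 * 3 ^ r * (3 ^ S₀.card / 3 ^ Fintype.card ι) *
      (((Fintype.piFinset C).filter fun p => Nd S₀ (univ.image p)).card : ℝ) +
    3 ^ ((2 * S₀.card + 1) * Fintype.card ι + (prs (univ : Finset ι)).card) *
      (κ * ∏ j, (X j : ℝ)) := by
  have e : inst = fun a b => Classical.propDecidable _ := Subsingleton.elim _ _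
  subst e
  exact t_BOX hEQ hC3 r ι C X κ S₀ h1 h2 h3 h5 h6

theorem per_key (hEQ : S_EQ) (hC3 : S_C3) (r : ℕ) {X z H K V : ℕ} (hH : 1 ≤ H)
    {κ : ℝ} (hκ : 0 ≤ κ) {S₀ : Finset ℕ} {J : Finset ℕ} (hk : KP X z H K V S₀ J)
    (hHB : HB (univ : Finset J) (fun i : J => CC z H i) (fun i => XX H i.1) κ) :
    |(((RR X z H K V).filter fun S => ky z H S = (S₀, J) ∧
        (Nd (sm z S) (la z S) ∧ Gr r S)).card : ℝ) -
      ur r * (((RR X z H K V).filter fun S => ky z H S = (S₀, J) ∧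
        Nd (sm z S) (la z S)).card : ℝ)| ≤
    75 * 3 ^ r * (1 / 3 : ℝ) ^ V *
      (((RR X z H K V).filter fun S => ky z H S = (S₀, J)).card : ℝ) +
      (3 ^ (4 * K ^ 2) * κ) * (X / ((∏ p ∈ S₀, p : ℕ) : ℝ)) := by
  have hfew := hk.few
  have hne : Nonempty J := by
    rw [← Fintype.card_pos_iff, Fintype.card_coe]
    omega
  have hbox := box_dec hEQ hC3 r J (fun i => CC z H i) (fun i => XX H i.1) κ S₀ hκ
    (fun i => by
      refine (Finset.card_filter_le _ _).trans ?_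
      rw [Nat.card_Icc]
      omega)
    hHB
    (fun i p hp => by
      obtain ⟨h3, h3', h4, h5⟩ := CC_facts hH hp
      intro h
      have := hk.le p h
      omega)
    (fun i l hil => by
      rw [Finset.disjoint_left]
      intro p hp hp'
      have h5 := ((mem_CC hH).1 hp).2.2
      have h6 := ((mem_CC hH).1 hp').2.2
      exact hil (Subtype.ext (h5.symm.trans h6)))
  have e1 : ((Fintype.piFinset fun i : J => CC z H i).filter fun p => Nd S₀ (univ.image p) ∧
      Gr r (S₀ ∪ univ.image p)).card = ((RR X z H K V).filter fun S => ky z H S = (S₀, J) ∧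
        (Nd (sm z S) (la z S) ∧ Gr r S)).card := by
    rw [← key_bij hH hk (fun S => Nd (sm z S) (la z S) ∧ Gr r S)]
    congr 1
    refine Finset.filter_congr fun p hp => ?_
    rw [Fintype.mem_piFinset] at hp
    rw [sm_fill hH hk.le hp, la_fill hH hk.le hp]
  have e2 : ((Fintype.piFinset fun i : J => CC z H i).filter fun p =>
      Nd S₀ (univ.image p)).card = ((RR X z H K V).filter fun S => ky z H S = (S₀, J) ∧
        Nd (sm z S) (la z S)).card := by
    rw [← key_bij hH hk (fun S => Nd (sm z S) (la z S))]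
    congr 1
    refine Finset.filter_congr fun p hp => ?_
    rw [Fintype.mem_piFinset] at hp
    rw [sm_fill hH hk.le hp, la_fill hH hk.le hp]
  rw [e1, e2] at hbox
  have hcJ : Fintype.card J = J.card := Fintype.card_coe J
  refine hbox.trans (add_le_add ?_ ?_)
  · have h3 : ((3 : ℝ) ^ S₀.card / 3 ^ Fintype.card J) ≤ (1 / 3) ^ V := by
      rw [div_le_iff₀ (by positivity), hcJ]
      have h4 : (3 : ℝ) ^ (S₀.card + V) ≤ 3 ^ J.card :=
        pow_le_pow_right₀ (by norm_num) hfew.le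
      have h5 : (1 / 3 : ℝ) ^ V * 3 ^ (S₀.card + V) = 3 ^ S₀.card := by
        rw [pow_add, mul_comm, mul_assoc, ← mul_pow]
        norm_num
      calc (3 : ℝ) ^ S₀.card = (1 / 3 : ℝ) ^ V * 3 ^ (S₀.card + V) := h5.symm
        _ ≤ _ := by gcongr
    have h4 : (((RR X z H K V).filter fun S => ky z H S = (S₀, J) ∧
        Nd (sm z S) (la z S)).card : ℝ) ≤
        (((RR X z H K V).filter fun S => ky z H S = (S₀, J)).card : ℝ) := by
      have : (RR X z H K V).filter (fun S => ky z H S = (S₀, J) ∧ Nd (sm z S) (la z S)) ⊆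
          (RR X z H K V).filter fun S => ky z H S = (S₀, J) := by
        intro S hS
        rw [Finset.mem_filter] at hS ⊢
        exact ⟨hS.1, hS.2.1⟩
      exact_mod_cast Finset.card_le_card this
    gcongr
  · have hcard := hk.card
    have hJK : J.card ≤ K := by omega
    have hSK : S₀.card ≤ K := by omega
    have hpr : (prs (univ : Finset J)).card ≤ K * K := by
      refine (prs_card univ).trans ?_
      rw [hcJ]
      exact Nat.mul_le_mul hJK hJK
    have hexp : (2 * S₀.card + 1) * Fintype.card J + (prs (univ : Finset J)).card ≤ 4 * K ^ 2 := by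
      rw [hcJ]
      have h5 : S₀.card * J.card ≤ K * K := Nat.mul_le_mul hSK hJK
      have h6 : J.card ≤ K * K := by
        refine hJK.trans ?_
        rcases Nat.eq_zero_or_pos K with h | h
        · rw [h]
        · exact Nat.le_mul_of_pos_left K h
      calc (2 * S₀.card + 1) * J.card + (prs (univ : Finset J)).card
          = 2 * (S₀.card * J.card) + J.card + (prs (univ : Finset J)).card := by ring
        _ ≤ 2 * (K * K) + K * K + K * K := by omega
        _ = 4 * K ^ 2 := by ring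
    have h5 : (3 : ℝ) ^ ((2 * S₀.card + 1) * Fintype.card J + (prs (univ : Finset J)).card) ≤
        3 ^ (4 * K ^ 2) :=
      pow_le_pow_right₀ (by norm_num) hexp
    have hN0 : (0 : ℝ) < ((∏ p ∈ S₀, p : ℕ) : ℝ) := by
      exact_mod_cast Finset.prod_pos fun p hp => (hk.pr p hp).1.pos
    have hprod : ∏ j : J, (XX H j.1 : ℝ) ≤ X / ((∏ p ∈ S₀, p : ℕ) : ℝ) := by
      have h5 : ∏ j : J, (XX H j.1 : ℝ) = ((∏ k ∈ J, XX H k : ℕ) : ℝ) := by
        rw [← Finset.prod_coe_sort J (fun k => XX H k)]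
        push_cast
        rfl
      rw [h5, le_div_iff₀ hN0, mul_comm]
      exact_mod_cast hk.prod
    calc (3 : ℝ) ^ ((2 * S₀.card + 1) * Fintype.card J + (prs (univ : Finset J)).card) *
        (κ * ∏ j : J, (XX H j.1 : ℝ)) ≤
        3 ^ (4 * K ^ 2) * (κ * (X / ((∏ p ∈ S₀, p : ℕ) : ℝ))) := by gcongr
      _ = _ := by ring

/-- **The sum over the boxes.** -/
theorem t_KEY (hL : LamP) (hB1 : S_BIL1) (hEQ : S_EQ) (hC3 : S_C3) : ∃ C : ℝ, 1 ≤ C ∧
    ∀ (r X z H K V N : ℕ) (κ : ℝ), 1 ≤ X → 1 ≤ H → 1 ≤ z → 0 ≤ κ → C ≤ κ ^ 12 * z →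
    (H : ℝ) * Real.log X < N →
    |(((RR X z H K V).filter fun S => Nd (sm z S) (la z S) ∧ Gr r S).card : ℝ) -
        ur r * (((RR X z H K V).filter fun S => Nd (sm z S) (la z S)).card : ℝ)| ≤
      75 * 3 ^ r * (1 / 3 : ℝ) ^ V * ((RR X z H K V).card : ℝ) +
      (N + 1 : ℝ) ^ K * (3 ^ (4 * K ^ 2) * κ) * (X * (1 + Real.log X)) := by
  obtain ⟨C₁, hC₁, h1⟩ := hB1 hL
  refine ⟨C₁, hC₁, ?_⟩
  intro r X z H K V N κ hX hH hz hκ hκz hN
  set T := (RR X z H K V).image (ky z H) with hT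
  set B : ℝ := 3 ^ (4 * K ^ 2) * κ with hB
  have hB0 : 0 ≤ B := by positivity
  have hfib : ∀ (P : Finset ℕ → Prop) [DecidablePred P], (((RR X z H K V).filter fun S => P S).card : ℝ) =
      ∑ k ∈ T, (((RR X z H K V).filter fun S => ky z H S = k ∧ P S).card : ℝ) := by
    intro P _
    rw [Finset.card_eq_sum_card_fiberwise (f := ky z H) (t := T) (by
      intro S hS
      rw [Finset.mem_coe, Finset.mem_filter] at hS
      exact Finset.mem_coe.2 (Finset.mem_image_of_mem _ hS.1))]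
    push_cast
    refine Finset.sum_congr rfl fun k _ => ?_
    congr 2
    ext S
    simp only [Finset.mem_filter]
    tauto
  have hKP : ∀ k ∈ T, KP X z H K V k.1 k.2 := by
    intro k hk
    rw [hT, Finset.mem_image] at hk
    obtain ⟨S, hS, rfl⟩ := hk
    obtain ⟨f1, f2, f3⟩ := rr_facts hS
    exact (rr_iff hH f1 f2).1 hS
  have hf1 := hfib fun S => Nd (sm z S) (la z S) ∧ Gr r S
  have hf2 := hfib fun S => Nd (sm z S) (la z S)
  have hf3 := hfib fun _ => True
  simp only [and_true, Finset.filter_true] at hf3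
  rw [hf1, hf2, hf3, Finset.mul_sum, ← Finset.sum_sub_distrib]
  refine (Finset.abs_sum_le_sum_abs _ _).trans ?_
  have h3 : ∀ k ∈ T, |(((RR X z H K V).filter fun S => ky z H S = k ∧
        (Nd (sm z S) (la z S) ∧ Gr r S)).card : ℝ) -
      ur r * (((RR X z H K V).filter fun S => ky z H S = k ∧
        Nd (sm z S) (la z S)).card : ℝ)| ≤
      75 * 3 ^ r * (1 / 3 : ℝ) ^ V * (((RR X z H K V).filter fun S => ky z H S = k).card : ℝ) +
      B * (X / ((∏ p ∈ k.1, p : ℕ) : ℝ)) := by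
    intro k hk
    obtain ⟨S₀, J⟩ := k
    have hk' := hKP _ hk
    exact per_key hEQ hC3 r hH hκ hk' (hb_box h1 hH hz hκ hκz)
  refine (Finset.sum_le_sum h3).trans ?_
  rw [Finset.sum_add_distrib, ← Finset.mul_sum]
  refine add_le_add le_rfl ?_
  have hsub : T ⊆ (TT X) ×ˢ ((range N).powerset.filter fun J => J.card ≤ K) := by
    intro k hk
    have hk' := hKP k hk
    rw [hT, Finset.mem_image] at hk
    obtain ⟨S, hS, rfl⟩ := hk
    obtain ⟨f1, f2, f3⟩ := rr_facts hS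
    rw [Finset.mem_product, Finset.mem_filter, Finset.mem_powerset]
    refine ⟨mem_TT (fun q hq => (hk'.pr q hq).1) ?_, ?_, ?_⟩
    · refine le_trans ?_ f3
      exact Nat.le_of_dvd (Finset.prod_pos fun p hp => (f1 p hp).1.pos)
        (Finset.prod_dvd_prod_of_subset _ _ _ (Finset.filter_subset _ _))
    · intro e he
      unfold ky at he
      rw [Finset.mem_image] at he
      obtain ⟨q, hq, rfl⟩ := he
      have hqS := (Finset.mem_filter.1 hq).1
      have hq0 := (f1 q hqS).1.pos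
      have hqX : q ≤ X := by
        refine le_trans ?_ f3
        exact Nat.le_of_dvd (Finset.prod_pos fun p hp => (f1 p hp).1.pos)
          (Finset.dvd_prod_of_mem _ hqS)
      rw [Finset.mem_range]
      have h3 : ((jj H q : ℕ) : ℝ) < N := by
        refine lt_of_le_of_lt (Nat.floor_le (mul_nonneg (Nat.cast_nonneg _)
          (Real.log_nonneg (by exact_mod_cast hq0)))) ?_
        refine lt_of_le_of_lt ?_ hN
        refine mul_le_mul_of_nonneg_left ?_ (Nat.cast_nonneg _)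
        exact Real.log_le_log (by exact_mod_cast hq0) (by exact_mod_cast hqX)
      exact_mod_cast h3
    · have := hk'.card
      omega
  refine (Finset.sum_le_sum_of_subset_of_nonneg hsub fun _ _ _ => by positivity).trans ?_
  rw [Finset.sum_product]
  simp only [Finset.sum_const, nsmul_eq_mul]
  rw [← Finset.mul_sum]
  have h4 : ((((range N).powerset.filter fun J => J.card ≤ K).card : ℕ) : ℝ) ≤
      (N + 1 : ℝ) ^ K := by
    have h5 := card_sub (range N) K
    rw [Finset.card_range] at h5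
    calc ((((range N).powerset.filter fun J => J.card ≤ K).card : ℕ) : ℝ) ≤
          (((N + 1) ^ K : ℕ) : ℝ) := by exact_mod_cast h5
      _ = (N + 1 : ℝ) ^ K := by push_cast; ring
  have h5 : ∑ S ∈ TT X, B * (X / ((∏ p ∈ S, p : ℕ) : ℝ)) ≤ B * (X * (1 + Real.log X)) := by
    have h6 : ∀ S ∈ TT X, B * ((X : ℝ) / ((∏ p ∈ S, p : ℕ) : ℝ)) =
        B * X * (1 / ((∏ p ∈ S, p : ℕ) : ℝ)) := by
      intro S _
      ring
    rw [Finset.sum_congr rfl h6, ← Finset.mul_sum]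
    have h7 := mul_le_mul_of_nonneg_left (harm_TT X) (mul_nonneg hB0 (Nat.cast_nonneg X))
    refine h7.trans (le_of_eq ?_)
    ring
  have h6 : 0 ≤ ∑ S ∈ TT X, B * ((X : ℝ) / ((∏ p ∈ S, p : ℕ) : ℝ)) :=
    Finset.sum_nonneg fun _ _ => by positivity
  rw [mul_assoc]
  gcongr

end Pool.Agent.H462.N9.Law
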