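import Pool.Agent.H462.N9.Law.Few
import Pool.Graph.R_seed8.Y461.CX.LOW
import Pool.Graph.R_seed8.Y461.CX.CheA

/-!
# The lower bound for the size of the class
-/

set_option autoImplicit false

open scoped Classical

namespace Pool.Agent.H462.N9.Law

open Finset Filter
open Pool.Agent.Y461.CX (M1 mem_M1 G1_lower)
open Pool.Agent.Y703.CX (S_MER)

theorem che1 : ∃ (c : ℝ) (Y₀ : ℕ), 0 < c ∧ ∀ Y : ℕ, Y₀ ≤ Y →
    c * Y / Real.log Y ≤ (((range (Y + 1)).filter fun p => p.Prime ∧ p % 3 = 1).card : ℝ) := by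
  obtain ⟨x₀, hx₀⟩ := Pool.Agent.TH423.SH.pai 3 (by norm_num) (1 / 2) (1 / 4) (by norm_num)
    (by norm_num)
  refine ⟨1 / 16, max 4 ⌈x₀⌉₊, by norm_num, ?_⟩
  intro Y hY
  have hY4 : 4 ≤ Y := le_trans (le_max_left _ _) hY
  have hYx : x₀ ≤ (Y : ℝ) := (Nat.le_ceil x₀).trans (by exact_mod_cast (le_max_right _ _).trans hY)
  have hY4' : (4 : ℝ) ≤ Y := by exact_mod_cast hY4
  have hdiv1 : ((Y / 2 : ℕ) : ℝ) ≤ (Y : ℝ) / 2 := Nat.cast_div_le
  have hdiv2 : (Y : ℝ) / 2 ≤ ((Y / 2 + 1 : ℕ) : ℝ) := by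
    have : Y < 2 * (Y / 2 + 1) := by omega
    have : (Y : ℝ) < 2 * ((Y / 2 + 1 : ℕ) : ℝ) := by exact_mod_cast this
    linarith
  have hlog : 0 < Real.log Y := Real.log_pos (by linarith)
  have h := hx₀ Y hYx (Y / 2 + 1) Y 1 hdiv2 (by linarith)
    (by push_cast; linarith) (by decide)
  have htot : Nat.totient 3 = 2 := by decide
  rw [htot] at h
  have h1 := (abs_le.mp h).1
  have hsub : (Ioc (Y / 2 + 1) Y).filter (fun q => q.Prime ∧ q % 3 = 1 % 3) ⊆
      (range (Y + 1)).filter fun p => p.Prime ∧ p % 3 = 1 := by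
    intro q hq
    rw [mem_filter, mem_Ioc] at hq
    rw [mem_filter, mem_range]
    exact ⟨by omega, hq.2⟩
  have hcard : (((Ioc (Y / 2 + 1) Y).filter (fun q => q.Prime ∧ q % 3 = 1 % 3)).card : ℝ) ≤
      (((range (Y + 1)).filter fun p => p.Prime ∧ p % 3 = 1).card : ℝ) := by
    exact_mod_cast Finset.card_le_card hsub
  refine le_trans ?_ hcard
  have h2 : (1 / 2 : ℝ) * (((Y : ℝ) - ((Y / 2 + 1 : ℕ) : ℝ)) / ((2 : ℕ) * Real.log Y)) ≤
      (((Ioc (Y / 2 + 1) Y).filter (fun q => q.Prime ∧ q % 3 = 1 % 3)).card : ℝ) := by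
    linarith
  refine le_trans ?_ h2
  have h3 : (Y : ℝ) / 4 ≤ (Y : ℝ) - ((Y / 2 + 1 : ℕ) : ℝ) := by push_cast; linarith
  have h4 : (Y : ℝ) / 4 / ((2 : ℕ) * Real.log Y) ≤
      ((Y : ℝ) - ((Y / 2 + 1 : ℕ) : ℝ)) / ((2 : ℕ) * Real.log Y) := by
    apply div_le_div_of_nonneg_right h3
    positivity
  calc (1 / 16 : ℝ) * Y / Real.log Y = 1 / 2 * ((Y : ℝ) / 4 / ((2 : ℕ) * Real.log Y)) := by
        push_cast; field_simp; ring
    _ ≤ _ := by linarith

/-- many large primes `≡ 1` -/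
theorem che2 : ∃ (c : ℝ) (Y₀ : ℕ), 0 < c ∧ ∀ y Y : ℕ, Y₀ ≤ y → y ^ 3 ≤ Y →
    c * Y / Real.log Y ≤
      (((range (Y + 1)).filter fun p => (p.Prime ∧ p % 3 = 1) ∧ y < p).card : ℝ) := by
  obtain ⟨c, Y₀, hc, h⟩ := che1
  refine ⟨c / 2, max (max 2 Y₀) (⌈12 / c⌉₊), by positivity, ?_⟩
  intro y Y hy hyY
  have hy2 : 2 ≤ y := (le_max_left _ _).trans ((le_max_left _ _).trans hy)
  have hyY0 : Y₀ ≤ y := (le_max_right _ _).trans ((le_max_left _ _).trans hy)
  have hyc : 12 / c ≤ (y : ℝ) :=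
    (Nat.le_ceil _).trans (by exact_mod_cast (le_max_right _ _).trans hy)
  have hyle : y ≤ y ^ 3 := Nat.le_self_pow (by norm_num) y
  have hY0 : Y₀ ≤ Y := hyY0.trans (hyle.trans hyY)
  have h1 := h Y hY0
  have hy0 : (0 : ℝ) < y := by exact_mod_cast (by omega : 0 < y)
  have hY2 : 2 ≤ Y := hy2.trans (hyle.trans hyY)
  have hYp : (1 : ℝ) < Y := by exact_mod_cast (by omega : 1 < Y)
  have hlog : 0 < Real.log Y := Real.log_pos hYp
  -- the small primes
  have h2 : ((range (Y + 1)).filter fun p => p.Prime ∧ p % 3 = 1) ⊆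
      ((range (Y + 1)).filter fun p => (p.Prime ∧ p % 3 = 1) ∧ y < p) ∪ Icc 1 y := by
    intro p hp
    rw [mem_filter] at hp
    rw [mem_union, mem_filter, mem_Icc]
    by_cases hpy : y < p
    · exact Or.inl ⟨hp.1, hp.2, hpy⟩
    · exact Or.inr ⟨hp.2.1.pos, by omega⟩
  have h3 : (((range (Y + 1)).filter fun p => p.Prime ∧ p % 3 = 1).card : ℝ) ≤
      (((range (Y + 1)).filter fun p => (p.Prime ∧ p % 3 = 1) ∧ y < p).card : ℝ) + y := by
    have := (card_le_card h2).trans (card_union_le _ _)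
    rw [Nat.card_Icc, Nat.add_sub_cancel] at this
    exact_mod_cast this
  -- the error
  have h4 : (y : ℝ) ≤ c / 2 * Y / Real.log Y := by
    set t : ℝ := (Y : ℝ) ^ (1 / 3 : ℝ) with ht
    have ht0 : 0 < t := Real.rpow_pos_of_pos (by linarith) _
    have ht3 : t ^ 3 = Y := by
      rw [ht, ← Real.rpow_natCast, ← Real.rpow_mul (by linarith)]
      norm_num
    have hyt : (y : ℝ) ≤ t := by
      have : ((y : ℝ)) ^ 3 ≤ t ^ 3 := by
        rw [ht3]
        exact_mod_cast hyY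
      exact le_of_pow_le_pow_left₀ (by norm_num) ht0.le this
    have hlogt : Real.log Y ≤ 3 * t := by
      have := Real.log_le_rpow_div (show (0 : ℝ) ≤ Y by linarith) (show (0 : ℝ) < 1 / 3 by norm_num)
      rw [← ht] at this
      linarith
    rw [le_div_iff₀ hlog]
    have e1 : (y : ℝ) * Real.log Y ≤ t * (3 * t) := mul_le_mul hyt hlogt hlog.le ht0.le
    have e2 : 12 ≤ c * t := by
      have : 12 ≤ c * y := by
        rw [div_le_iff₀ hc] at hyc
        linarith
      have := mul_le_mul_of_nonneg_left hyt hc.le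
      linarith
    have e3 : t * (3 * t) ≤ c / 2 * Y := by
      rw [← ht3]
      nlinarith [mul_pos ht0 ht0]
    linarith
  have e : c * Y / Real.log Y = c / 2 * Y / Real.log Y + c / 2 * Y / Real.log Y := by
    ring
  rw [e] at h1
  linarith

/-- the pairs -/
noncomputable def DD (X y : ℕ) : Finset (Σ _ : Finset ℕ, ℕ) :=
  (M1 y).sigma fun S => (range (X / (∏ p ∈ S, p) + 1)).filter
    fun q => (q.Prime ∧ q % 3 = 1) ∧ y < q

theorem card_DD_le (X y : ℕ) (hy : y ≤ X) : (DD X y).card ≤ (SS X).card := by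
  refine Finset.card_le_card_of_injOn (fun t => insert t.2 t.1) ?_ ?_
  · rintro ⟨S, q⟩ ht
    rw [mem_coe, DD, mem_sigma, mem_filter, mem_range] at ht
    obtain ⟨hS, hq, ⟨hqp, hq3⟩, hqy⟩ := ht
    obtain ⟨h1, h2⟩ := mem_M1 hS
    simp only at hq hqp hq3 hqy
    have hqS : q ∉ S := fun h => by have := (h1 q h).2.2; omega
    have hm0 : 0 < ∏ p ∈ S, p := Finset.prod_pos fun p hp => (h1 p hp).1.pos
    have hqm : q * ∏ p ∈ S, p ≤ X := by
      have : q ≤ X / ∏ p ∈ S, p := by omega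
      exact (Nat.le_div_iff_mul_le hm0).mp this
    rw [mem_coe, SS, mem_filter, mem_powerset]
    refine ⟨?_, ?_, ?_⟩
    · intro p hp
      rw [mem_insert] at hp
      rw [mem_range]
      rcases hp with rfl | hp
      · have : p ≤ p * ∏ p ∈ S, p := Nat.le_mul_of_pos_right _ hm0
        omega
      · have := (h1 p hp).2.2; omega
    · intro p hp
      rw [mem_insert] at hp
      rcases hp with rfl | hp
      · exact ⟨hqp, hq3⟩
      · have := h1 p hp
        exact ⟨this.1, this.2.1⟩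
    · rw [Finset.prod_insert hqS]
      exact hqm
  · rintro ⟨S, q⟩ ht ⟨S', q'⟩ ht' he
    rw [mem_coe, DD, mem_sigma, mem_filter, mem_range] at ht ht'
    obtain ⟨hS, hq, -, hqy⟩ := ht
    obtain ⟨hS', hq', -, hqy'⟩ := ht'
    obtain ⟨h1, h2⟩ := mem_M1 hS
    obtain ⟨h1', h2'⟩ := mem_M1 hS'
    simp only at hq hqy hq' hqy' he h1 h1'
    have hqq : q = q' := by
      have : q ∈ insert q' S' := by rw [← he]; exact mem_insert_self _ _
      rw [mem_insert] at this
      rcases this with h | h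
      · exact h
      · have := (h1' q h).2.2; omega
    subst hqq
    have hSS : S = S' := by
      have e1 : ∀ (T : Finset ℕ), (∀ p ∈ T, p ≤ y) →
          (insert q T).filter (fun p => p ≤ y) = T := by
        intro T hT
        ext p
        simp only [mem_filter, mem_insert]
        constructor
        · rintro ⟨rfl | h, h3⟩
          · omega
          · exact h
        · intro h; exact ⟨Or.inr h, hT p h⟩
      rw [← e1 S fun p hp => (h1 p hp).2.2, he, e1 S' fun p hp => (h1' p hp).2.2]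
    subst hSS
    rfl

theorem t_LOW (hM : S_MER) : ∃ (c : ℝ) (X₀ : ℕ), 0 < c ∧ ∀ X : ℕ, X₀ ≤ X →
    c * X * (Real.log X) ^ (-(1 / 2) : ℝ) ≤ ((SS X).card : ℝ) := by
  obtain ⟨C, hC⟩ := hM
  obtain ⟨c, Y₀, hc, hche⟩ := che2
  refine ⟨c / 2 * (3 / 8 * Real.exp (-C) / 3), (max 3 (Y₀ + 3)) ^ 4, by positivity, ?_⟩
  intro X hX
  set s := Nat.sqrt X with hs
  set y := Nat.sqrt s with hy
  have hyM : max 3 (Y₀ + 3) ≤ y := by
    rw [hy, ← Nat.sqrt_eq' (max 3 (Y₀ + 3))]
    apply Nat.sqrt_le_sqrt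
    rw [hs, ← Nat.sqrt_eq' ((max 3 (Y₀ + 3)) ^ 2)]
    apply Nat.sqrt_le_sqrt
    rw [← pow_mul]
    exact hX
  have hy3 : 3 ≤ y := (le_max_left _ _).trans hyM
  have hyY : Y₀ ≤ y := by have := (le_max_right 3 (Y₀ + 3)).trans hyM; omega
  have hys : y * y ≤ s := Nat.sqrt_le s
  have hsX : s * s ≤ X := Nat.sqrt_le X
  have hsy : s < (y + 1) * (y + 1) := Nat.lt_succ_sqrt s
  have hXs : X < (s + 1) * (s + 1) := Nat.lt_succ_sqrt X
  have hy4X : y ^ 4 ≤ X := by
    calc y ^ 4 = (y * y) * (y * y) := by ring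
      _ ≤ s * s := Nat.mul_le_mul hys hys
      _ ≤ X := hsX
  have hyX1 : y ≤ X := (Nat.le_self_pow (by norm_num) y).trans hy4X
  have hX8 : X ≤ y ^ 8 := by
    have h1 : y + 1 ≤ y * y := by nlinarith
    have h2 : s + 1 ≤ y ^ 4 := by
      calc s + 1 ≤ (y + 1) * (y + 1) := hsy
        _ ≤ (y * y) * (y * y) := Nat.mul_le_mul h1 h1
        _ = y ^ 4 := by ring
    calc X ≤ (s + 1) * (s + 1) := hXs.le
      _ ≤ y ^ 4 * y ^ 4 := Nat.mul_le_mul h2 h2
      _ = y ^ 8 := by ring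
  have hy1 : (1 : ℝ) < y := by exact_mod_cast (show 1 < y by omega)
  have hX1 : (1 : ℝ) < X := by
    have : 1 < X := by omega
    exact_mod_cast this
  have hlogy : 0 < Real.log y := Real.log_pos hy1
  have hlogX : 0 < Real.log X := Real.log_pos hX1
  have hlog8 : Real.log X ≤ 8 * Real.log y := by
    have : Real.log X ≤ Real.log ((y : ℝ) ^ 8) := by
      apply Real.log_le_log (by linarith)
      exact_mod_cast hX8
    rwa [Real.log_pow] at this
  -- the sum
  have hsum : ∑ S ∈ M1 y, c / 2 * (X / Real.log X) * ((1 : ℝ) / ((∏ p ∈ S, p : ℕ) : ℝ)) ≤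
      ((DD X y).card : ℝ) := by
    rw [DD, Finset.card_sigma, Nat.cast_sum]
    refine Finset.sum_le_sum fun S hS => ?_
    obtain ⟨h1, h2⟩ := mem_M1 hS
    set m := ∏ p ∈ S, p with hm
    have hm0 : 0 < m := Finset.prod_pos fun p hp => (h1 p hp).1.pos
    have hYy : y ^ 3 ≤ X / m := by
      rw [Nat.le_div_iff_mul_le hm0]
      calc y ^ 3 * m ≤ y ^ 3 * y := Nat.mul_le_mul_left _ h2
        _ = y ^ 4 := by ring
        _ ≤ X := hy4X
    have h3 := hche y (X / m) hyY hYy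
    refine le_trans ?_ h3
    have hYX : X / m ≤ X := Nat.div_le_self _ _
    have hyy : y ≤ y ^ 3 := Nat.le_self_pow (by norm_num) y
    have hY1 : (1 : ℝ) < ((X / m : ℕ) : ℝ) := by exact_mod_cast (show 1 < X / m by omega)
    have hlY : 0 < Real.log ((X / m : ℕ) : ℝ) := Real.log_pos hY1
    have hlYX : Real.log ((X / m : ℕ) : ℝ) ≤ Real.log X :=
      Real.log_le_log (by linarith) (by exact_mod_cast hYX)
    have hhalf : (X : ℝ) / (2 * m) ≤ ((X / m : ℕ) : ℝ) := by
      have h4 : X < m * (X / m) + m := by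
        have := Nat.div_add_mod X m
        have := Nat.mod_lt X hm0
        omega
      have h5 : (X : ℝ) < m * ((X / m : ℕ) : ℝ) + m := by exact_mod_cast h4
      have hm' : (0 : ℝ) < m := by exact_mod_cast hm0
      rw [div_le_iff₀ (by positivity)]
      nlinarith
    calc c / 2 * (X / Real.log X) * ((1 : ℝ) / (m : ℝ)) = c * ((X : ℝ) / (2 * m)) / Real.log X := by
          have hm' : (m : ℝ) ≠ 0 := by exact_mod_cast hm0.ne'
          field_simp
      _ ≤ c * ((X / m : ℕ) : ℝ) / Real.log X := by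
          apply div_le_div_of_nonneg_right _ hlogX.le
          exact mul_le_mul_of_nonneg_left hhalf hc.le
      _ ≤ c * ((X / m : ℕ) : ℝ) / Real.log ((X / m : ℕ) : ℝ) := by
          apply div_le_div_of_nonneg_left (by positivity) hlY hlYX
  rw [← Finset.mul_sum] at hsum
  have hG := G1_lower C y hy3 (by
    refine le_trans (le_of_eq ?_) (hC y hy3)
    refine Finset.sum_congr ?_ fun _ _ => rfl
    ext p
    simp only [mem_filter])
  have hcard : ((DD X y).card : ℝ) ≤ ((SS X).card : ℝ) := by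
    exact_mod_cast card_DD_le X y hyX1
  refine le_trans ?_ (hsum.trans hcard)
  have h6 : 0 ≤ c / 2 * (X / Real.log X) := by positivity
  refine le_trans ?_ (mul_le_mul_of_nonneg_left hG h6)
  -- the square root of the logarithm
  have h7 : (Real.log X) ^ (1 / 2 : ℝ) ≤ 3 * (Real.log y) ^ (1 / 2 : ℝ) := by
    have h8 : (Real.log X) ^ (1 / 2 : ℝ) ≤ (9 * Real.log y) ^ (1 / 2 : ℝ) :=
      Real.rpow_le_rpow hlogX.le (by linarith) (by norm_num)
    rw [Real.mul_rpow (by norm_num) hlogy.le] at h8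
    have h9 : (9 : ℝ) ^ (1 / 2 : ℝ) = 3 := by
      rw [show (9 : ℝ) = 3 ^ (2 : ℝ) by norm_num, ← Real.rpow_mul (by norm_num)]
      norm_num
    rwa [h9] at h8
  have h10 : (Real.log X) ^ (-(1 / 2) : ℝ) = (Real.log X) ^ (1 / 2 : ℝ) / Real.log X := by
    rw [eq_div_iff hlogX.ne']
    nth_rewrite 2 [← Real.rpow_one (Real.log X)]
    rw [← Real.rpow_add hlogX]
    norm_num
  rw [h10]
  have hee : 0 < Real.exp (-C) := Real.exp_pos _
  calc c / 2 * (3 / 8 * Real.exp (-C) / 3) * X * ((Real.log X) ^ (1 / 2 : ℝ) / Real.log X)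
      = c / 2 * (X / Real.log X) * (3 / 8 * Real.exp (-C) / 3 * (Real.log X) ^ (1 / 2 : ℝ)) := by
        ring
    _ ≤ c / 2 * (X / Real.log X) *
        (3 / 8 * Real.exp (-C) / 3 * (3 * (Real.log y) ^ (1 / 2 : ℝ))) := by
        apply mul_le_mul_of_nonneg_left _ h6
        apply mul_le_mul_of_nonneg_left h7 (by positivity)
    _ = c / 2 * (X / Real.log X) * (3 / 8 * Real.exp (-C) * (Real.log y) ^ (1 / 2 : ℝ)) := by ring

end Pool.Agent.H462.N9.Law
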