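import Pool.Agent.H462.N9.Law.Bad
import Pool.Agent.H462.N9.Law.Few
import Pool.Agent.H462.N9.Law.Low
import Pool.Agent.H462.N9.Law.Key
import Pool.Agent.H462.N9.Law.Cnt
import Pool.Graph.R_seed8.Y703.CX.Asy
import Pool.Graph.R_seed8.Y333.CX.LAM
import Pool.Graph.R_seed8.Y261.CX.BIL1
import Pool.Graph.R_seed8.Y419.CX.EQ
import Pool.Graph.R_seed8.Y461.CX.C3
import Pool.Graph.R_seed8.Y488.CX.Sie
import Pool.Graph.R_seed8.Y87.CX.Mer

/-!
# The law of the coranks over `ℚ`
-/

set_option autoImplicit false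

open scoped Classical
open Finset Filter

namespace Pool.Agent.H462.N9.Law

open Pool.Agent.Y703.CX (lam pp jj XX eL zz kk sm la LamP S_SIE S_EQ S_C3 S_BIL1 Sml eL_tendsto
  logX_eq sml_of sml_add rpow_eL HH NN ev_eL one_le_exp HH_ge HH_le HH_pos kk_ge kk_le X_pos
  one_add_log lin_le sml_rpow kap zz_ge zz_pos kap_nonneg kap_pow kap_le)
open Pool.Agent.H462.N9.Law.Cnt (CntP t_CNT)

/-- sets with many primes -/
theorem sml_many (h : CntP) : Sml fun X => (((SS X).filter fun S => kk X < S.card).card : ℝ) := by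
  apply sml_of (C := 2) (a := 1) (by norm_num)
  filter_upwards [ev_eL 1] with X hX
  have h0 : 0 < eL X := by linarith
  have h1 := h.many X (kk X) (X_pos h0)
  have h2 : Real.exp (2 * eL X) ≤ 2 ^ kk X := by
    have e : (2 : ℝ) ^ kk X = Real.exp (kk X * Real.log 2) := by
      rw [mul_comm, Real.exp_mul, Real.exp_log (by norm_num), Real.rpow_natCast]
    rw [e]
    apply Real.exp_le_exp.2
    have h3 := kk_ge X
    have h4 := Real.log_two_gt_d9
    nlinarith
  have hX0 : (0 : ℝ) ≤ X := Nat.cast_nonneg _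
  have h5 : (((SS X).filter fun S => kk X < S.card).card : ℝ) * Real.exp (2 * eL X) ≤
      X * (2 * Real.exp (eL X)) := by
    calc _ ≤ (((SS X).filter fun S => kk X < S.card).card : ℝ) * 2 ^ kk X := by gcongr
      _ ≤ X * (1 + Real.log X) := h1
      _ ≤ _ := mul_le_mul_of_nonneg_left (one_add_log h0) hX0
  have h6 : (2 : ℝ) * (X * Real.exp (-1 * eL X)) * Real.exp (2 * eL X) = X * (2 * Real.exp (eL X)) := by
    have e : Real.exp (-1 * eL X) * Real.exp (2 * eL X) = Real.exp (eL X) := by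
      rw [← Real.exp_add]; congr 1; ring
    calc _ = 2 * X * (Real.exp (-1 * eL X) * Real.exp (2 * eL X)) := by ring
      _ = _ := by rw [e]; ring
  rw [← h6] at h5
  exact le_of_mul_le_mul_right h5 (Real.exp_pos _)

/-- sets near the boundary -/
theorem sml_cut (h : CntP) : Sml fun X => (((SS X).filter fun S => S.card ≤ kk X ∧
    X < (∏ p ∈ sm (zz X) S, p) * ∏ p ∈ la (zz X) S, XX (HH X) (jj (HH X) p)).card : ℝ) := by
  apply sml_of (C := 2) (a := 1) (by norm_num)
  have hlog : ∀ᶠ X : ℕ in atTop, Real.exp (eL X) ≤ X := by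
    filter_upwards [ev_eL 1] with X hX
    rw [← logX_eq (by linarith)]
    exact (Real.log_le_sub_one_of_pos (by exact_mod_cast X_pos (by linarith))).trans (by linarith)
  filter_upwards [ev_eL 1, lin_le (a := 1) (b := 11) (by norm_num) (by norm_num), hlog] with X hX h11 hl
  have h0 : 0 < eL X := by linarith
  have h1 := h.cut X (zz X) (HH X) (kk X) (X_pos h0) (HH_pos h0)
  refine h1.trans ?_
  have hH := HH_ge h0
  have hHp : (0 : ℝ) < HH X := lt_of_lt_of_le (Real.exp_pos _) hH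
  have hX0 : (0 : ℝ) ≤ X := Nat.cast_nonneg _
  have h2 : (X : ℝ) * kk X / HH X ≤ X * Real.exp (-1 * eL X) := by
    rw [div_le_iff₀ hHp]
    calc (X : ℝ) * kk X ≤ X * Real.exp (eL X) := by
          have := kk_le hX
          rw [one_mul] at h11
          have : (kk X : ℝ) ≤ Real.exp (eL X) := by linarith
          gcongr
      _ ≤ X * (Real.exp (-1 * eL X) * Real.exp (3 * eL X)) := by
          rw [← Real.exp_add]
          apply mul_le_mul_of_nonneg_left _ hX0
          apply Real.exp_le_exp.2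
          linarith
      _ ≤ X * Real.exp (-1 * eL X) * HH X := by
          rw [mul_assoc]
          gcongr
  have h3 : (1 : ℝ) ≤ X * Real.exp (-1 * eL X) := by
    have e : Real.exp (eL X) * Real.exp (-1 * eL X) = 1 := by
      rw [← Real.exp_add]
      have : eL X + -1 * eL X = 0 := by ring
      rw [this, Real.exp_zero]
    calc (1 : ℝ) = Real.exp (eL X) * Real.exp (-1 * eL X) := e.symm
      _ ≤ X * Real.exp (-1 * eL X) := mul_le_mul_of_nonneg_right hl (Real.exp_pos _).le
  linarith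

/-- sets with two primes in one block -/
theorem sml_coll (h : CntP) : Sml fun X => (((SS X).filter fun S =>
    ¬ Set.InjOn (jj (HH X)) (la (zz X) S : Set ℕ)).card : ℝ) := by
  apply sml_of (C := 8) (a := 2) (by norm_num)
  filter_upwards [ev_eL 1] with X hX
  have h0 : 0 < eL X := by linarith
  have h1 := h.coll X (zz X) (HH X) (X_pos h0) (HH_pos h0)
  refine h1.trans ?_
  have hH := HH_ge h0
  have hHp : (0 : ℝ) < HH X := lt_of_lt_of_le (Real.exp_pos _) hH
  have hX0 : (0 : ℝ) ≤ X := Nat.cast_nonneg _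
  rw [div_le_iff₀ hHp]
  calc 4 * (X : ℝ) * (1 + Real.log X) ≤ 4 * X * (2 * Real.exp (eL X)) := by
        have := one_add_log h0
        gcongr
    _ = 8 * (X * (Real.exp (-2 * eL X) * Real.exp (3 * eL X))) := by
        rw [← Real.exp_add]
        have : -2 * eL X + 3 * eL X = eL X := by ring
        rw [this]
        ring
    _ ≤ 8 * (X * (Real.exp (-2 * eL X) * HH X)) := by gcongr
    _ = 8 * (X * Real.exp (-2 * eL X)) * HH X := by ring

/-- the main error term -/
theorem sml_main {C : ℝ} (hC : 1 ≤ C) : Sml fun X => ((NN X : ℝ) + 1) ^ kk X *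
    (3 ^ (4 * kk X ^ 2) * kap C X) * (X * (1 + Real.log X)) := by
  apply sml_of (C := 4 * C) (a := 1) (by norm_num)
  filter_upwards [ev_eL 8000] with X hX
  set l := eL X with hl
  have h0 : 0 < eL X := by linarith
  have h1 : 1 ≤ eL X := by linarith
  have hX0 : (0 : ℝ) ≤ X := Nat.cast_nonneg _
  have hN : (NN X : ℝ) + 1 ≤ Real.exp (5 * l) := by
    have h2 : (NN X : ℝ) ≤ HH X * Real.log X + 1 := by
      unfold NN
      push_cast
      have := Nat.floor_le (a := (HH X : ℝ) * Real.log X)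
        (mul_nonneg (Nat.cast_nonneg _) (Real.log_natCast_nonneg X))
      linarith
    have h3 : (HH X : ℝ) * Real.log X ≤ 2 * Real.exp (4 * l) := by
      rw [logX_eq h0]
      calc (HH X : ℝ) * Real.exp (eL X) ≤ 2 * Real.exp (3 * eL X) * Real.exp (eL X) :=
            mul_le_mul_of_nonneg_right (HH_le h0) (Real.exp_pos _).le
        _ = 2 * Real.exp (4 * l) := by
            rw [mul_assoc, ← Real.exp_add]
            congr 2
            rw [hl]
            ring
    have h4 : 1 ≤ Real.exp (4 * l) := one_le_exp (by linarith)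
    have h5 : (36 : ℝ) ≤ Real.exp l := by
      have := Real.add_one_le_exp l
      linarith
    have h6 : Real.exp (5 * l) = Real.exp (4 * l) * Real.exp l := by
      rw [← Real.exp_add]; congr 1; ring
    rw [h6]
    nlinarith
  have hkk := kk_le h1
  have hkk0 : (0 : ℝ) ≤ kk X := Nat.cast_nonneg _
  have hA : ((NN X : ℝ) + 1) ^ kk X ≤ Real.exp (55 * l ^ 2) := by
    calc ((NN X : ℝ) + 1) ^ kk X ≤ (Real.exp (5 * l)) ^ kk X := by gcongr
      _ = Real.exp (kk X * (5 * l)) := (Real.exp_nat_mul _ _).symm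
      _ ≤ Real.exp (55 * l ^ 2) := by
          apply Real.exp_le_exp.2
          nlinarith
  have hB : (3 : ℝ) ^ (4 * kk X ^ 2) ≤ Real.exp (540 * l ^ 2) := by
    have e : (3 : ℝ) ^ (4 * kk X ^ 2) = Real.exp ((4 * (kk X : ℝ) ^ 2) * Real.log 3) := by
      rw [mul_comm (4 * (kk X : ℝ) ^ 2) (Real.log 3), Real.exp_mul, Real.exp_log (by norm_num)]
      rw [← Real.rpow_natCast]
      congr 1
      push_cast
      ring
    rw [e]
    apply Real.exp_le_exp.2
    have h2 : Real.log 3 ≤ 1.1 := by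
      have h3 : (3 : ℝ) ≤ Real.exp 1.1 := by
        have h4 : (2.7182818283 : ℝ) < Real.exp 1 := Real.exp_one_gt_d9
        have h5 : (1.105 : ℝ) ≤ Real.exp 0.1 := by
          have := Real.quadratic_le_exp_of_nonneg (x := 0.1) (by norm_num)
          norm_num at this ⊢
          linarith
        have h6 : Real.exp 1.1 = Real.exp 1 * Real.exp 0.1 := by
          rw [← Real.exp_add]; norm_num
        rw [h6]
        nlinarith
      calc Real.log 3 ≤ Real.log (Real.exp 1.1) := Real.log_le_log (by norm_num) h3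
        _ = 1.1 := Real.log_exp _
    have h3 : (kk X : ℝ) ^ 2 ≤ 121 * l ^ 2 := by nlinarith
    have h4 : 0 ≤ (kk X : ℝ) ^ 2 := sq_nonneg _
    nlinarith [sq_nonneg l]
  have hK := kap_le hC h1
  have hLg := one_add_log h0
  have hmain : ((NN X : ℝ) + 1) ^ kk X * (3 ^ (4 * kk X ^ 2) * kap C X) *
      (X * (1 + Real.log X)) ≤ Real.exp (55 * l ^ 2) * (Real.exp (540 * l ^ 2) *
        (2 * C * Real.exp (-l ^ 3 / 12))) * (X * (2 * Real.exp l)) := by
    have := kap_nonneg hC X
    have : 0 ≤ 1 + Real.log X := by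
      have := Real.log_natCast_nonneg X
      linarith
    gcongr
  refine hmain.trans ?_
  have e : Real.exp (55 * l ^ 2) * (Real.exp (540 * l ^ 2) *
        (2 * C * Real.exp (-l ^ 3 / 12))) * (X * (2 * Real.exp l)) =
      4 * C * (X * Real.exp (55 * l ^ 2 + 540 * l ^ 2 + -l ^ 3 / 12 + l)) := by
    rw [Real.exp_add, Real.exp_add, Real.exp_add]
    ring
  rw [e]
  have h9 : 55 * l ^ 2 + 540 * l ^ 2 + -l ^ 3 / 12 + l ≤ -1 * l := by
    have h10 : 8000 * l ^ 2 ≤ l ^ 3 := by
      have : l ^ 3 = l * l ^ 2 := by ring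
      rw [this]
      exact mul_le_mul_of_nonneg_right hX (sq_nonneg l)
    nlinarith
  have h11 := Real.exp_le_exp.2 h9
  have hC0 : (0 : ℝ) ≤ 4 * C := by linarith
  gcongr

/-- the sets outside the regular part -/
theorem out_sub (X z H K V : ℕ) :
    SS X \ ((RR X z H K V).filter fun S => Nd (sm z S) (la z S)) ⊆
      (((((SS X).filter fun S => K < S.card) ∪
      ((SS X).filter fun S => S.card ≤ K ∧
        X < (∏ p ∈ sm z S, p) * ∏ p ∈ la z S, XX H (jj H p))) ∪
      ((SS X).filter fun S => ¬ Set.InjOn (jj H) (la z S : Set ℕ))) ∪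
      ((SS X).filter fun S => (la z S).card ≤ (sm z S).card + V)) ∪
      ((SS X).filter fun S => S.card ≤ K ∧ ¬ Nd (sm z S) (la z S)) := by
  intro S hS
  rw [Finset.mem_sdiff, Finset.mem_filter] at hS
  obtain ⟨h1, h2⟩ := hS
  simp only [mem_union, mem_filter]
  by_contra hc
  push Not at hc
  obtain ⟨⟨⟨⟨c1, c2⟩, c3⟩, c4⟩, c5⟩ := hc
  have d1 : S.card ≤ K := c1 h1
  have d2 := c2 h1 d1
  have d3 := c3 h1
  have d4 := c4 h1
  have d5 := c5 h1 d1
  apply h2
  refine ⟨?_, d5⟩
  unfold RR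
  rw [mem_filter]
  exact ⟨h1, d3, d1, d2, d4⟩

/-- the comparison of the counts -/
theorem cmp (G : Finset ℕ → Prop) (T S : Finset (Finset ℕ)) (hTS : T ⊆ S) (c : ℝ) (hc0 : 0 ≤ c) :
    |((S.filter G).card : ℝ) - c * (S.card : ℝ)| ≤
      |((T.filter G).card : ℝ) - c * (T.card : ℝ)| + (1 + c) * ((S \ T).card : ℝ) := by
  have e1 : ((S.filter G).card : ℝ) = (T.filter G).card + ((S \ T).filter G).card := by
    rw [← Nat.cast_add, ← card_union_of_disjoint, ← filter_union, union_sdiff_of_subset hTS]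
    exact disjoint_filter_filter (disjoint_sdiff)
  have e2 : (S.card : ℝ) = T.card + (S \ T).card := by
    rw [← Nat.cast_add, ← card_union_of_disjoint disjoint_sdiff, union_sdiff_of_subset hTS]
  have h1 : |(((S \ T).filter G).card : ℝ) - c * ((S \ T).card : ℝ)| ≤
      (1 + c) * ((S \ T).card : ℝ) := by
    have h2 : (((S \ T).filter G).card : ℝ) ≤ ((S \ T).card : ℝ) := by
      exact_mod_cast card_filter_le _ _
    have h3 : (0 : ℝ) ≤ ((S \ T).card : ℝ) := Nat.cast_nonneg _
    have h4 : (0 : ℝ) ≤ (((S \ T).filter G).card : ℝ) := Nat.cast_nonneg _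
    have h5 : 0 ≤ c * ((S \ T).card : ℝ) := mul_nonneg hc0 h3
    rw [abs_le]
    constructor <;> nlinarith
  have e3 : ((S.filter G).card : ℝ) - c * (S.card : ℝ) =
      (((T.filter G).card : ℝ) - c * (T.card : ℝ)) +
      ((((S \ T).filter G).card : ℝ) - c * ((S \ T).card : ℝ)) := by
    rw [e1, e2]; ring
  rw [e3]
  exact (abs_add_le _ _).trans (add_le_add le_rfl h1)

/-- **the law of the coranks** -/
theorem t_DQ (r : ℕ) : Tendsto
    (fun X : ℕ => (((SS X).filter (Gr r)).card : ℝ) / ((SS X).card : ℝ)) atTop (nhds (ur r)) := by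
  have hL : LamP := Pool.Agent.Y333.CX.t_LAM
  have hc3 : S_C3 := Pool.Agent.Y461.CX.t_C3
  have hS : S_SIE := Pool.Agent.Y488.CX.t_SIE
  have hC := t_CNT
  obtain ⟨C, hC1, hkey⟩ := t_KEY hL Pool.Agent.Y261.CX.t_BIL1 Pool.Agent.Y419.CX.t_EQ hc3
  obtain ⟨CB, XB, hbad⟩ := t_BAD hL hS
  obtain ⟨c, X₀, hc, hlow⟩ := t_LOW Pool.Agent.Y87.CX.t_MER
  have hu0 := ur_nonneg hc3 r
  rw [Metric.tendsto_nhds]
  intro ε hε
  obtain ⟨V, hV⟩ := exists_pow_lt_of_lt_one (show (0 : ℝ) < ε / (4 * (75 * 3 ^ r)) by positivity)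
    (show (1 / 3 : ℝ) < 1 by norm_num)
  obtain ⟨CF, XF, hfew⟩ := t_FEW hS V
  have s1 := sml_many hC
  have s2 := sml_cut hC
  have s3 := sml_coll hC
  have s4 := sml_rpow hfew
  have s5 := sml_rpow hbad
  have s6 := sml_main hC1
  have s := sml_add (sml_add (sml_add (sml_add s1 s2) s3) s4) s5
  have hδ : (0 : ℝ) < c * ε / 4 / (1 + ur r) := by positivity
  have hδ' : (0 : ℝ) < c * ε / 4 := by positivity
  filter_upwards [s _ hδ, s6 _ hδ', ev_eL 1, eventually_ge_atTop X₀] with X hX hX6 hl hX0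
  have hl0 : 0 < eL X := by linarith
  have hlo := hlow X hX0
  rw [rpow_eL hl0] at hlo
  have hXp := X_pos hl0
  have hXp' : (0 : ℝ) < X := by exact_mod_cast hXp
  have e0 : (-(1 / 2) * eL X : ℝ) = -(eL X) / 2 := by ring
  rw [e0] at hlo
  have hSpos : (0 : ℝ) < ((SS X).card : ℝ) := by
    refine lt_of_lt_of_le ?_ hlo
    positivity
  have hN : (HH X : ℝ) * Real.log X < NN X := by
    unfold NN
    push_cast
    exact Nat.lt_floor_add_one _
  have hmain := hkey r X (zz X) (HH X) (kk X) V (NN X) (kap C X) hXp (HH_pos hl0) (zz_pos hl)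
    (kap_nonneg hC1 X) (kap_pow hC1 hl) hN
  set T := (RR X (zz X) (HH X) (kk X) V).filter fun S => Nd (sm (zz X) S) (la (zz X) S) with hT
  have hTG : (RR X (zz X) (HH X) (kk X) V).filter (fun S => Nd (sm (zz X) S) (la (zz X) S) ∧
      Gr r S) = T.filter (Gr r) := by
    rw [hT, filter_filter]
  rw [hTG] at hmain
  have hTS : T ⊆ SS X := (filter_subset _ _).trans (filter_subset _ _)
  have hRS : ((RR X (zz X) (HH X) (kk X) V).card : ℝ) ≤ ((SS X).card : ℝ) := by
    exact_mod_cast card_le_card (filter_subset _ _)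
  have hcmp := cmp (Gr r) T (SS X) hTS (ur r) hu0
  have hout : ((SS X \ T).card : ℝ) ≤
      ((((SS X).filter fun S => kk X < S.card).card : ℝ) +
      (((SS X).filter fun S => S.card ≤ kk X ∧
        X < (∏ p ∈ sm (zz X) S, p) * ∏ p ∈ la (zz X) S, XX (HH X) (jj (HH X) p)).card : ℝ) +
      (((SS X).filter fun S => ¬ Set.InjOn (jj (HH X)) (la (zz X) S : Set ℕ)).card : ℝ) +
      (((SS X).filter fun S => (la (zz X) S).card ≤ (sm (zz X) S).card + V).card : ℝ)) +
      (((SS X).filter fun S => S.card ≤ kk X ∧ ¬ Nd (sm (zz X) S) (la (zz X) S)).card : ℝ) := by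
    have g := card_le_card (out_sub X (zz X) (HH X) (kk X) V)
    rw [← hT] at g
    have g2 := (g.trans (card_union_le _ _)).trans (Nat.add_le_add_right ((card_union_le _ _).trans
      (Nat.add_le_add_right ((card_union_le _ _).trans
      (Nat.add_le_add_right (card_union_le _ _) _)) _)) _)
    exact_mod_cast g2
  have hout2 : (1 + ur r) * ((SS X \ T).card : ℝ) ≤ c * ε / 4 * (X * Real.exp (-(eL X) / 2)) := by
    have g1 := mul_le_mul_of_nonneg_left (hout.trans hX) (show 0 ≤ 1 + ur r by linarith)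
    refine g1.trans (le_of_eq ?_)
    field_simp
  have htot : |(((SS X).filter (Gr r)).card : ℝ) - ur r * ((SS X).card : ℝ)| ≤
      75 * 3 ^ r * (1 / 3 : ℝ) ^ V * ((SS X).card : ℝ) +
        2 * (c * ε / 4 * (X * Real.exp (-(eL X) / 2))) := by
    have g1 : 75 * 3 ^ r * (1 / 3 : ℝ) ^ V * ((RR X (zz X) (HH X) (kk X) V).card : ℝ) ≤
        75 * 3 ^ r * (1 / 3 : ℝ) ^ V * ((SS X).card : ℝ) :=
      mul_le_mul_of_nonneg_left hRS (by positivity)
    linarith
  rw [Real.dist_eq]
  have e3 : (((SS X).filter (Gr r)).card : ℝ) / ((SS X).card : ℝ) - ur r =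
      ((((SS X).filter (Gr r)).card : ℝ) - ur r * ((SS X).card : ℝ)) / ((SS X).card : ℝ) := by
    field_simp
  rw [e3, abs_div, abs_of_pos hSpos, div_lt_iff₀ hSpos]
  refine lt_of_le_of_lt htot ?_
  have g2 : c * ε / 4 * (X * Real.exp (-(eL X) / 2)) ≤ ε / 4 * ((SS X).card : ℝ) := by
    calc c * ε / 4 * (X * Real.exp (-(eL X) / 2)) = ε / 4 * (c * X * Real.exp (-(eL X) / 2)) := by ring
      _ ≤ _ := mul_le_mul_of_nonneg_left hlo (by linarith)
  have g3 : 75 * 3 ^ r * (1 / 3 : ℝ) ^ V * ((SS X).card : ℝ) ≤ ε / 4 * ((SS X).card : ℝ) := by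
    apply mul_le_mul_of_nonneg_right _ hSpos.le
    rw [lt_div_iff₀ (by positivity)] at hV
    linarith
  have g4 : 0 < ε * ((SS X).card : ℝ) := by positivity
  linarith

end Pool.Agent.H462.N9.Law
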