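import Pool.Agent.H462.N9.Law.Fam

/-!
# Few sets have degenerate labels
-/

set_option autoImplicit false
set_option linter.unusedVariables false

open scoped Classical

namespace Pool.Agent.H462.N9.Law

open Finset
open Pool.Agent.Y692.QS (Ei)
open Pool.Agent.Y699.E (PS nrm lg xab one_le_lg lg_mono nrm_pos')
open Pool.Agent.Y703.CX (lam pp jj XX eL zz kk sm la LamP S_SIE)
open Pool.Agent.Y37.CX (Pm Pm_nonneg Pm_mono Pm_le params prod_pos_of AA Pf Qf Sf dtP dtQ PQ_ne xt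
  lg_pow_le prod_sq_le)

theorem t_BAD (hL : LamP) (hSIE : S_SIE) : ∃ (C : ℝ) (X₀ : ℕ), ∀ X : ℕ, X₀ ≤ X →
    (((SS X).filter fun S => S.card ≤ kk X ∧ ¬ Nd (sm (zz X) S) (la (zz X) S)).card : ℝ) ≤
      C * X * (Real.log X) ^ (-(3 / 5) : ℝ) := by
  obtain ⟨C₁, h11, h1⟩ := hSIE
  obtain ⟨C₃, h30, h3⟩ := Pm_le
  obtain ⟨X₀, hX₀⟩ := params C₃
  refine ⟨1800 * C₁ * 864 * Real.exp (3 * C₃), X₀, fun X hX => ?_⟩
  obtain ⟨hX3, hl2, hlog1, h33, hfin⟩ := hX₀ X hX
  set ℓ : ℝ := Real.log (Real.log X) with hℓ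
  set z : ℕ := zz X with hz
  set k : ℕ := kk X with hk
  have hlX : 0 < Real.log X := by linarith
  have hl0 : 0 < ℓ := by linarith
  have hk11 : (k : ℝ) ≤ 11 * ℓ := by
    have h := Nat.ceil_lt_add_one (show (0 : ℝ) ≤ 10 * eL X by
      unfold eL; rw [← hℓ]; positivity)
    have h' : (k : ℝ) < 10 * ℓ + 1 := h
    linarith
  have hl3 : (8 : ℝ) ≤ ℓ ^ 3 := by
    have := pow_le_pow_left₀ (by norm_num : (0 : ℝ) ≤ 2) hl2 3
    linarith
  have hz3 : 3 ≤ z := by
    rw [hz]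
    unfold zz
    apply Nat.le_floor
    have h := Real.add_one_le_exp ((eL X) ^ 3)
    have h' : (eL X) ^ 3 = ℓ ^ 3 := rfl
    rw [h'] at h ⊢
    push_cast
    linarith
  have hz1 : 1 ≤ z := by omega
  have hz0 : (0 : ℝ) < z := by exact_mod_cast hz1
  have hzlog : Real.log z ≤ ℓ ^ 3 := by
    rw [Real.log_le_iff_le_exp hz0]
    exact Nat.floor_le (Real.exp_pos _).le
  have hzlog0 : 0 < Real.log z := Real.log_pos (by exact_mod_cast (by omega : 1 < z))
  have hl4 : (1 : ℝ) ≤ ℓ ^ 4 := one_le_pow₀ (by linarith)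
  -- the size of the families
  set R : ℝ := 300 * C₁ * 864 * ℓ ^ 4 * (1 + (ℓ + C₃)) ^ 2 * (Real.log X) ^ (1 / 3 : ℝ) /
    Real.log X with hR
  have hrp0 : 0 < (Real.log X) ^ (1 / 3 : ℝ) := Real.rpow_pos_of_pos hlX _
  have hC1 : 0 ≤ C₁ := by linarith
  have hR0 : 0 ≤ R := by
    rw [hR]
    positivity
  have key : ∀ S₀ : Finset ℕ, (∀ u ∈ S₀, u.Prime ∧ u % 3 = 1) → (∀ u ∈ S₀, u ≤ z) → S₀.card ≤ k →
      ∀ t : (Bool × ZMod 3) × (S₀ → ZMod 3), (t.1.2 ≠ 0 ∨ ∃ u ∈ S₀, xt S₀ t.2 u ≠ 0) →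
      ((fam (chr t.1.1 t.1.2 S₀ (xt S₀ t.2)) (X / ∏ p ∈ S₀, p)).card : ℝ) ≤
        (X : ℝ) / ((∏ p ∈ S₀, p : ℕ) : ℝ) * R := by
    intro S₀ hS₀ hSz hSk t ht
    set P := Pf t.1.1 (xt S₀ t.2) with hP
    set Q := Qf t.1.1 (xt S₀ t.2) with hQ
    have hdP := dtP hL (ne3 hS₀) t.1.1 (xt S₀ t.2)
    have hdQ := dtQ hL (ne3 hS₀) t.1.1 (xt S₀ t.2)
    rw [← hP] at hdP
    rw [← hQ] at hdQ
    have hSf : Sf t.1.1 S₀ = S₀ := Sf_eq hS₀
    have hAB : t.1.2 ≠ 0 ∨ AA (Sf t.1.1 S₀) P ≠ AA (Sf t.1.1 S₀) Q := by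
      rcases ht with ht | ⟨u, hu, hv⟩
      · exact Or.inl ht
      · refine Or.inr ?_
        have hu' : u ∈ Sf t.1.1 S₀ := by rw [hSf]; exact hu
        exact hdP.ne hdQ hu' (PQ_ne hL (ne3 hS₀) t.1.1 (xt S₀ t.2) hu' hv)
    set N : ℕ := ∏ p ∈ S₀, p with hN
    have hN0 : 0 < N := prod_pos_of fun p hp => (hS₀ p hp).1
    have hN0' : (0 : ℝ) < N := by exact_mod_cast hN0
    have hlN : Real.log N ≤ 11 * ℓ ^ 4 := by
      have e1 : Real.log N = ∑ p ∈ S₀, Real.log p := by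
        rw [hN]
        push_cast
        rw [Real.log_prod]
        intro p hp
        have := (hS₀ p hp).1.ne_zero
        exact_mod_cast this
      rw [e1]
      calc ∑ p ∈ S₀, Real.log p ≤ ∑ _p ∈ S₀, Real.log z := by
            refine sum_le_sum fun p hp => ?_
            exact Real.log_le_log (by exact_mod_cast (hS₀ p hp).1.pos) (by exact_mod_cast hSz p hp)
        _ = S₀.card * Real.log z := by rw [sum_const, nsmul_eq_mul]
        _ ≤ (11 * ℓ) * ℓ ^ 3 := by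
            refine mul_le_mul (le_trans (by exact_mod_cast hSk) hk11) hzlog hzlog0.le (by positivity)
        _ = 11 * ℓ ^ 4 := by ring
    set Y : ℕ := X / N with hY
    have hX0 : (0 : ℝ) < X := by exact_mod_cast (by omega : 0 < X)
    have hYle : (Y : ℝ) ≤ (X : ℝ) / N := Nat.cast_div_le
    have hYge : Real.exp (Real.log X / 3) ≤ Y := by
      have e1 : (X : ℝ) / N < Y + 1 := by
        rw [div_lt_iff₀ hN0']
        have := Nat.lt_mul_div_succ X hN0
        rw [← hY] at this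
        have h' : ((X : ℕ) : ℝ) < ((N * (Y + 1) : ℕ) : ℝ) := by exact_mod_cast this
        push_cast at h'
        linarith
      have e2 : Real.exp (Real.log X - Real.log N) = (X : ℝ) / N := by
        rw [Real.exp_sub, Real.exp_log hX0, Real.exp_log hN0']
      have e3 : Real.exp (Real.log X / 3 + 1) ≤ (X : ℝ) / N := by
        rw [← e2]
        apply Real.exp_le_exp.2
        linarith
      rw [Real.exp_add] at e3
      have e4 : (2 : ℝ) ≤ Real.exp 1 := by have := Real.exp_one_gt_d9; linarith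
      have e5 : (1 : ℝ) ≤ Real.exp (Real.log X / 3) := Real.one_le_exp (by positivity)
      nlinarith
    have hY2 : 2 ≤ Y := by
      have e1 := Real.add_one_le_exp (Real.log X / 3)
      have e2 : (2 : ℝ) ≤ Y := by linarith
      exact_mod_cast e2
    have hY0 : (0 : ℝ) < Y := by exact_mod_cast (by omega : 0 < Y)
    have hlY : Real.log X / 3 ≤ Real.log Y := by
      rw [Real.le_log_iff_exp_le hY0]
      exact hYge
    have hYX : Y ≤ X := Nat.div_le_self _ _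
    have hlYX : Real.log Y ≤ Real.log X := Real.log_le_log hY0 (by exact_mod_cast hYX)
    have hlY0 : 0 < Real.log Y := by linarith
    have hPm : Pm Y ≤ ℓ + C₃ := (Pm_mono hYX).trans (h3 X hX3)
    -- the conductors
    have hlg : lg (9 * (nrm (AA (Sf t.1.1 S₀) P) * nrm (AA (Sf t.1.1 S₀) Q))) ≤ 100 * ℓ ^ 4 := by
      have e1 := (hdP.nrm_le).trans (prod_sq_le (k := k) hz1 (by rw [hSf]; exact hSz) (by rw [hSf]; exact hSk))
      have e2 := (hdQ.nrm_le).trans (prod_sq_le (k := k) hz1 (by rw [hSf]; exact hSz) (by rw [hSf]; exact hSk))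
      have e3 : 9 * (nrm (AA (Sf t.1.1 S₀) P) * nrm (AA (Sf t.1.1 S₀) Q)) ≤ z ^ (4 * (k + 1)) := by
        have e9 : 9 ≤ z ^ 4 := by
          calc 9 ≤ 3 ^ 4 := by norm_num
            _ ≤ z ^ 4 := Nat.pow_le_pow_left hz3 4
        refine (Nat.mul_le_mul e9 (Nat.mul_le_mul e1 e2)).trans (le_of_eq ?_)
        rw [← pow_add, ← pow_add]
        congr 1
        ring
      refine (lg_mono e3).trans ((lg_pow_le hz1).trans ?_)
      have hl2' := Real.log_two_gt_d9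
      have e4 : 4 * ((k + 1 : ℕ) : ℝ) * Real.log z ≤ 48 * ℓ ^ 4 := by
        have : ((k + 1 : ℕ) : ℝ) * Real.log z ≤ (12 * ℓ) * ℓ ^ 3 :=
          mul_le_mul (by push_cast; linarith) hzlog hzlog0.le (by positivity)
        nlinarith
      have e5 : 4 * ((k + 1 : ℕ) : ℝ) * Real.log z / Real.log 2 ≤ 99 * ℓ ^ 4 := by
        rw [div_le_iff₀ (by linarith)]
        nlinarith
      linarith
    have hlg1 := one_le_lg (9 * (nrm (AA (Sf t.1.1 S₀) P) * nrm (AA (Sf t.1.1 S₀) Q)))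
    have hlg6 : (lg (9 * (nrm (AA (Sf t.1.1 S₀) P) * nrm (AA (Sf t.1.1 S₀) Q)))) ^ (1 / 6 : ℝ) ≤
        100 * ℓ ^ 4 := by
      refine le_trans ?_ hlg
      have := Real.rpow_le_rpow_of_exponent_le hlg1 (show (1 / 6 : ℝ) ≤ 1 by norm_num)
      rwa [Real.rpow_one] at this
    have hmain := fam_card h11 h1 hL hdP.ps hdQ.ps hAB hY2
    have hrY : (Real.log Y) ^ (1 / 3 : ℝ) ≤ (Real.log X) ^ (1 / 3 : ℝ) :=
      Real.rpow_le_rpow hlY0.le hlYX (by norm_num)
    have hPm0 := Pm_nonneg Y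
    have hsq : 1 + Pm Y ≤ (1 + (ℓ + C₃)) ^ 2 := by
      have : (1 : ℝ) ≤ 1 + (ℓ + C₃) := by linarith
      nlinarith
    have hb : C₁ * Y * ((1 + Pm Y) *
      (864 * (lg (9 * (nrm (AA (Sf t.1.1 S₀) P) * nrm (AA (Sf t.1.1 S₀) Q)))) ^ (1 / 6 : ℝ) *
        (Real.log Y) ^ (1 / 3 : ℝ))) ≤ C₁ * ((X : ℝ) / N) * ((1 + (ℓ + C₃)) ^ 2 *
      (864 * (100 * ℓ ^ 4) * (Real.log X) ^ (1 / 3 : ℝ))) := by
      gcongr
    have hc : ((fam (chr t.1.1 t.1.2 S₀ (xt S₀ t.2)) Y).card : ℝ) * (Real.log X / 3) ≤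
        C₁ * ((X : ℝ) / N) * ((1 + (ℓ + C₃)) ^ 2 *
          (864 * (100 * ℓ ^ 4) * (Real.log X) ^ (1 / 3 : ℝ))) := by
      refine le_trans ?_ (hmain.trans hb)
      exact mul_le_mul_of_nonneg_left hlY (Nat.cast_nonneg _)
    have hd : (X : ℝ) / N * R = (C₁ * ((X : ℝ) / N) * ((1 + (ℓ + C₃)) ^ 2 *
          (864 * (100 * ℓ ^ 4) * (Real.log X) ^ (1 / 3 : ℝ)))) / (Real.log X / 3) := by
      rw [hR]
      field_simp
      ring
    rw [hd, le_div_iff₀ (by positivity)]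
    exact hc
  -- the sum over the small parts
  set B := (SS X).filter fun S => S.card ≤ k ∧ ¬ Nd (sm z S) (la z S) with hB
  set D := (range (z + 1)).filter fun p => p.Prime ∧ p % 3 = 1 with hD
  set W := D.powerset.filter fun S => S.card ≤ k with hW
  have hmaps : ∀ S ∈ B, sm z S ∈ W := by
    intro S hS
    rw [hB, mem_filter, SS, mem_filter, mem_powerset] at hS
    obtain ⟨⟨k1, k2, k3⟩, k4, k5⟩ := hS
    rw [hW, mem_filter, mem_powerset]
    refine ⟨fun p hp => ?_, (card_le_card (filter_subset _ _)).trans k4⟩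
    obtain ⟨l1, l2⟩ := mem_filter.1 hp
    rw [hD, mem_filter, mem_range]
    exact ⟨by omega, k2 p l1⟩
  have hcard : (B.card : ℝ) ≤ ∑ S₀ ∈ W, 6 * 3 ^ S₀.card * ((X : ℝ) / ((∏ p ∈ S₀, p : ℕ) : ℝ) * R) := by
    rw [card_eq_sum_card_fiberwise (f := fun S => sm z S) (t := W) (fun S hS => hmaps S hS)]
    push_cast
    refine sum_le_sum fun S₀ hS₀ => ?_
    rw [hW, mem_filter, mem_powerset] at hS₀
    have hpr : ∀ u ∈ S₀, u.Prime ∧ u % 3 = 1 := fun u hu => (mem_filter.1 (hS₀.1 hu)).2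
    have hle : ∀ u ∈ S₀, u ≤ z := fun u hu => by
      have := mem_range.1 (mem_filter.1 (hS₀.1 hu)).1
      omega
    have e1 : (B.filter fun S => sm z S = S₀).card ≤
        ((SS X).filter fun S => ¬ Nd (sm z S) (la z S) ∧ sm z S = S₀).card := by
      refine card_le_card fun S hS => ?_
      rw [mem_filter, hB, mem_filter] at hS
      rw [mem_filter]
      exact ⟨hS.1.1, hS.1.2.2, hS.2⟩
    have e2 := e1.trans (fiber hL X z hpr)
    have e3 : ((B.filter fun S => sm z S = S₀).card : ℝ) ≤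
        ∑ t : (Bool × ZMod 3) × (S₀ → ZMod 3), (X : ℝ) / ((∏ p ∈ S₀, p : ℕ) : ℝ) * R := by
      refine le_trans ((Nat.cast_le (α := ℝ)).2 e2) ?_
      rw [Nat.cast_sum]
      refine sum_le_sum fun t _ => ?_
      split_ifs with ht
      · exact key S₀ hpr hle hS₀.2 t ht
      · rw [Nat.cast_zero]
        exact mul_nonneg (div_nonneg (Nat.cast_nonneg _) (by positivity)) hR0
    refine e3.trans (le_of_eq ?_)
    rw [sum_const, card_univ, Fintype.card_prod, Fintype.card_prod, Fintype.card_bool,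
      Fintype.card_fun, ZMod.card, Fintype.card_coe, nsmul_eq_mul]
    push_cast
    ring
  have hsum : ∑ S₀ ∈ W, 6 * 3 ^ S₀.card * ((X : ℝ) / ((∏ p ∈ S₀, p : ℕ) : ℝ) * R) ≤
      6 * X * R * Real.exp (3 * Pm z) := by
    have e1 : ∀ S₀ ∈ W, 6 * 3 ^ S₀.card * ((X : ℝ) / ((∏ p ∈ S₀, p : ℕ) : ℝ) * R) =
        6 * X * R * ∏ p ∈ S₀, (3 / (p : ℝ)) := by
      intro S₀ _
      rw [prod_div_distrib, prod_const]
      push_cast
      ring
    rw [sum_congr rfl e1, ← mul_sum]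
    have h2XR : 0 ≤ 6 * (X : ℝ) * R := by positivity
    refine mul_le_mul_of_nonneg_left ?_ h2XR
    calc ∑ S₀ ∈ W, ∏ p ∈ S₀, (3 / (p : ℝ)) ≤ ∑ S₀ ∈ D.powerset, ∏ p ∈ S₀, (3 / (p : ℝ)) := by
          refine sum_le_sum_of_subset_of_nonneg (filter_subset _ _) fun S _ _ => ?_
          exact prod_nonneg fun _ _ => by positivity
      _ = ∏ p ∈ D, (1 + 3 / (p : ℝ)) := by rw [prod_one_add]
      _ ≤ ∏ p ∈ D, Real.exp (3 / (p : ℝ)) := by
          refine prod_le_prod (fun _ _ => by positivity) fun p _ => ?_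
          rw [add_comm]
          exact Real.add_one_le_exp _
      _ = Real.exp (∑ p ∈ D, 3 / (p : ℝ)) := by rw [Real.exp_sum]
      _ ≤ Real.exp (3 * Pm z) := by
          apply Real.exp_le_exp.2
          unfold Pm
          rw [mul_sum]
          have e2 : ∀ p : ℕ, 3 / (p : ℝ) = 3 * (1 / p) := fun p => by ring
          simp_rw [e2]
          refine sum_le_sum_of_subset_of_nonneg ?_ fun _ _ _ => by positivity
          intro p hp
          rw [hD, mem_filter, mem_range] at hp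
          rw [mem_filter, mem_Icc]
          exact ⟨⟨hp.2.1.pos, by omega⟩, hp.2.1⟩
  have hexp : Real.exp (3 * Pm z) ≤ Real.exp (3 * C₃) * ℓ ^ 9 := by
    have e1 := h3 z hz3
    have e2 : Real.exp (3 * Pm z) ≤ Real.exp (3 * (Real.log (Real.log z) + C₃)) :=
      Real.exp_le_exp.2 (by linarith)
    refine e2.trans ?_
    have e3 : Real.exp (3 * (Real.log (Real.log z) + C₃)) = Real.exp (3 * C₃) * (Real.log z) ^ 3 := by
      rw [mul_add, Real.exp_add, mul_comm]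
      congr 1
      rw [show (3 : ℝ) * Real.log (Real.log z) = Real.log ((Real.log z) ^ 3) by
        rw [Real.log_pow]; push_cast; ring]
      exact Real.exp_log (by positivity)
    rw [e3]
    refine mul_le_mul_of_nonneg_left ?_ (Real.exp_pos _).le
    calc (Real.log z) ^ 3 ≤ (ℓ ^ 3) ^ 3 := pow_le_pow_left₀ hzlog0.le hzlog 3
      _ = ℓ ^ 9 := by ring
  calc (B.card : ℝ) ≤ 6 * X * R * Real.exp (3 * Pm z) := hcard.trans hsum
    _ ≤ 6 * X * R * (Real.exp (3 * C₃) * ℓ ^ 9) :=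
        mul_le_mul_of_nonneg_left hexp (by positivity)
    _ = 1800 * C₁ * 864 * Real.exp (3 * C₃) * X * ((ℓ ^ 13 * (1 + (ℓ + C₃)) ^ 2) *
          (Real.log X) ^ (1 / 3 : ℝ) / Real.log X) := by
        rw [hR]
        ring
    _ ≤ 1800 * C₁ * 864 * Real.exp (3 * C₃) * X * ((Real.log X) ^ (1 / 15 : ℝ) *
          (Real.log X) ^ (1 / 3 : ℝ) / Real.log X) := by
        gcongr
    _ = 1800 * C₁ * 864 * Real.exp (3 * C₃) * X * (Real.log X) ^ (-(3 / 5) : ℝ) := by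
        congr 1
        rw [← Real.rpow_add hlX]
        nth_rewrite 2 [← Real.rpow_one (Real.log X)]
        rw [← Real.rpow_sub hlX]
        norm_num

end Pool.Agent.H462.N9.Law
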