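import Pool.Agent.H462.N9.Law.Stm
import Pool.Graph.R_seed8.Y911.CX.BOX

/-! The count in a box (adapted from `Y911/CX/BOX.lean`). -/

set_option autoImplicit false

open scoped Classical

namespace Pool.Agent.H462.N9.Law

open Finset
open Pool.Agent.Y703.CX (lam jj XX HB prs S_EQ S_C3)
open Pool.Agent.Y911.CX (ez0 ez0_coe HB_sub sum_un)

/-- the label of a prime with respect to the small primes and three -/
noncomputable def lb (S₀ : Finset ℕ) (x : ℕ) : (S₀ → ZMod 3) × (Option S₀ → ZMod 3) :=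
  (fun u => lam u x, fun o => o.elim (lam x 3) (fun u => lam x u))

/-- the good labels -/
def LN {ι : Type} [Fintype ι] (S₀ : Finset ℕ)
    (β : ι → (S₀ → ZMod 3) × (Option S₀ → ZMod 3)) : Prop :=
  (∀ v : S₀ → ZMod 3, (∃ u : S₀, v u ≠ 0) →
    2 ≤ (univ.filter fun i => ∑ u, v u * (β i).1 u ≠ 0).card) ∧
  ∀ w : Option S₀ → ZMod 3, (∃ u, w u ≠ 0) → ∃ i, ∑ u, w u * (β i).2 u ≠ 0

/-- the matrix of the small nodes -/
def AA (S₀ : Finset ℕ) (a : S₀ → S₀ → ZMod 3) (t : S₀ → ZMod 3) :
    Option S₀ → Option S₀ → ZMod 3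
  | none, _ => 0
  | some u, none => t u
  | some u, some v => a u v

/-- the labels -/
def BB {ι : Type} (S₀ : Finset ℕ) (b : ι → S₀ → ZMod 3) : Option S₀ → ι → ZMod 3
  | none, _ => 0
  | some u, l => b l u

/-- the nodes with an equation -/
noncomputable def U1 (S₀ : Finset ℕ) : Finset (Option S₀) := univ.map Function.Embedding.some

lemma mem_U1 {S₀ : Finset ℕ} {o : Option S₀} : o ∈ U1 S₀ ↔ ∃ u, o = some u := by
  unfold U1
  rw [Finset.mem_map]
  constructor
  · rintro ⟨u, -, rfl⟩
    exact ⟨u, rfl⟩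
  · rintro ⟨u, rfl⟩
    exact ⟨u, mem_univ _, rfl⟩

section one
variable {ι : Type} [Fintype ι] {S₀ : Finset ℕ} {p : ι → ℕ}

theorem im_filter (T : ℕ → Prop) [DecidablePred T] :
    ((univ.image p).filter fun x => T x) = (univ.filter fun i => T (p i)).image p := by
  ext x
  simp only [Finset.mem_filter, Finset.mem_image, Finset.mem_univ, true_and]
  constructor
  · rintro ⟨⟨i, rfl⟩, h2⟩
    exact ⟨i, h2, rfl⟩
  · rintro ⟨i, h2, rfl⟩
    exact ⟨⟨i, rfl⟩, h2⟩

theorem nd_iff (hp : Function.Injective p) :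
    Nd S₀ (univ.image p) ↔ LN S₀ (fun i => lb S₀ (p i)) := by
  have hc : ∀ (T : ℕ → Prop) [DecidablePred T], ((univ.image p).filter fun x => T x).card =
      (univ.filter fun i => T (p i)).card := by
    intro T _
    rw [im_filter, Finset.card_image_of_injective _ hp]
  unfold Nd LN
  refine and_congr ?_ ?_
  · constructor
    · intro h v hv
      obtain ⟨u, hu2⟩ := hv
      have h1 := h (ez0 v) ⟨u, u.2, by rw [ez0_coe]; exact hu2⟩
      rw [hc] at h1
      refine h1.trans (le_of_eq ?_)
      congr 1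
      refine Finset.filter_congr fun i _ => ?_
      rw [← Finset.sum_coe_sort S₀]
      refine not_congr (Eq.congr_left ?_)
      refine Finset.sum_congr rfl fun u _ => ?_
      rw [ez0_coe]
      rfl
    · intro h v hv
      obtain ⟨u, hu0, hu2⟩ := hv
      have h1 := h (fun u => v u) ⟨⟨u, hu0⟩, hu2⟩
      rw [hc]
      refine h1.trans (le_of_eq ?_)
      congr 1
      refine Finset.filter_congr fun i _ => ?_
      rw [← Finset.sum_coe_sort S₀]
      rfl
  · constructor
    · intro h w hw
      obtain ⟨x, hx, hx2⟩ := h (w none) (ez0 fun u => w (some u)) (by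
        obtain ⟨o, ho⟩ := hw
        cases o with
        | none => exact Or.inl ho
        | some u => exact Or.inr ⟨u, u.2, by rw [ez0_coe]; exact ho⟩)
      rw [Finset.mem_image] at hx
      obtain ⟨i, -, rfl⟩ := hx
      refine ⟨i, ?_⟩
      rw [← Finset.sum_coe_sort S₀] at hx2
      intro h0
      apply hx2
      rw [← h0, Fintype.sum_option]
      congr 1
      refine Finset.sum_congr rfl fun u _ => ?_
      rw [ez0_coe]
      rfl
    · intro h c w hw
      obtain ⟨i, hi2⟩ := h (fun o => o.elim c fun u => w u) (by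
        rcases hw with hc | ⟨u, hu0, hu⟩
        · exact ⟨none, hc⟩
        · exact ⟨some ⟨u, hu0⟩, hu⟩)
      refine ⟨p i, Finset.mem_image_of_mem _ (Finset.mem_univ _), ?_⟩
      rw [← Finset.sum_coe_sort S₀]
      rw [Fintype.sum_option] at hi2
      exact hi2

/-- the points of the union -/
noncomputable def em (S₀ : Finset ℕ) (p : ι → ℕ) : Option S₀ ⊕ ι → Option ↥(S₀ ∪ univ.image p)
  | Sum.inl none => none
  | Sum.inl (some u) => some ⟨u, Finset.mem_union_left _ u.2⟩
  | Sum.inr l => some ⟨p l, Finset.mem_union_right _ (Finset.mem_image_of_mem _ (mem_univ l))⟩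

theorem em_bij (hp : Function.Injective p) (hd : ∀ i, p i ∉ S₀) :
    Function.Bijective (em S₀ p) := by
  constructor
  · rintro ((_ | u) | l) ((_ | v) | m) h
    · rfl
    · exact absurd h (by simp [em])
    · exact absurd h (by simp [em])
    · exact absurd h (by simp [em])
    · have h1 := congrArg Subtype.val (Option.some.inj h)
      have h2 : (u : ℕ) = v := h1
      rw [Subtype.ext h2]
    · have h1 := congrArg Subtype.val (Option.some.inj h)
      have h2 : (u : ℕ) = p m := h1
      exact absurd u.2 (by rw [h2]; exact hd m)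
    · exact absurd h (by simp [em])
    · have h1 := congrArg Subtype.val (Option.some.inj h)
      have h2 : p l = (v : ℕ) := h1
      exact absurd v.2 (by rw [← h2]; exact hd l)
    · have h1 := congrArg Subtype.val (Option.some.inj h)
      have h2 : p l = p m := h1
      rw [hp h2]
  · rintro (_ | ⟨x, hx⟩)
    · exact ⟨Sum.inl none, rfl⟩
    · rw [Finset.mem_union, Finset.mem_image] at hx
      rcases hx with hx | ⟨l, -, rfl⟩
      · exact ⟨Sum.inl (some ⟨x, hx⟩), rfl⟩
      · exact ⟨Sum.inr l, rfl⟩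

/-- functions on the union -/
noncomputable def fe (hp : Function.Injective p) (hd : ∀ i, p i ∉ S₀) :
    (Option ↥(S₀ ∪ univ.image p) → ZMod 3) ≃ (Option S₀ → ZMod 3) × (ι → ZMod 3) :=
  ((Equiv.ofBijective _ (em_bij hp hd)).symm.arrowCongr (Equiv.refl (ZMod 3))).trans
    (Equiv.sumArrowEquivProdArrow _ _ _)

theorem ext_sum (k : ι) (d : ι → ZMod 3) :
    ∑ l, (d l - d k) * Pool.Agent.Y703.CX.ext
      (fun e : prs (univ : Finset ι) => lam (p e.1.1) (p e.1.2)) k l =
      ∑ l, (d l - d k) * lam (p k) (p l) := by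
  refine Finset.sum_congr rfl fun l _ => ?_
  by_cases h : l = k
  · rw [h, sub_self, zero_mul, zero_mul]
  · have hm : (k, l) ∈ prs (univ : Finset ι) := by
      unfold prs
      rw [Finset.mem_filter]
      exact ⟨Finset.mem_univ _, Finset.mem_univ _, h⟩
    unfold Pool.Agent.Y703.CX.ext
    rw [dif_pos hm]

/-- **the numbers of solutions agree** -/
theorem nQ_eq (hp : Function.Injective p) (hd : ∀ i, p i ∉ S₀) :
    nQ (S₀ ∪ univ.image p) = nG (U1 S₀) (univ : Finset ι)
      (AA S₀ (fun u v : S₀ => lam u v) fun u => lam u 3)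
      (BB S₀ fun l (u : S₀) => lam u (p l)) (fun k o => (lb S₀ (p k)).2 o)
      (Pool.Agent.Y703.CX.ext fun e : prs (univ : Finset ι) => lam (p e.1.1) (p e.1.2)) := by
  unfold nQ nG
  refine Nat.card_congr (Equiv.subtypeEquiv (fe hp hd) fun v => ?_)
  obtain ⟨a, ha⟩ : ∃ a : Option S₀ → ZMod 3, a = fun o => v (em S₀ p (Sum.inl o)) := ⟨_, rfl⟩
  obtain ⟨b, hb⟩ : ∃ b : ι → ZMod 3, b = fun l => v (em S₀ p (Sum.inr l)) := ⟨_, rfl⟩
  have hfe : fe hp hd v = (a, b) := by
    rw [ha, hb]
    rfl
  rw [hfe]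
  -- the sums over the union
  have hsum : ∀ f : ↥(S₀ ∪ univ.image p) → ZMod 3, ∑ q, f q =
      ∑ u : S₀, f ⟨u, Finset.mem_union_left _ u.2⟩ + ∑ l, f ⟨p l, Finset.mem_union_right _
        (Finset.mem_image_of_mem _ (mem_univ l))⟩ := by
    intro f
    have h1 := (Fintype.sum_bijective (em S₀ p) (em_bij hp hd)
      (fun x => (em S₀ p x).elim 0 f) (fun o => o.elim 0 f) fun x => rfl)
    rw [Fintype.sum_option, Fintype.sum_sum_type, Fintype.sum_option] at h1
    simp only [Option.elim] at h1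
    rw [zero_add] at h1
    rw [← h1]
    show 0 + _ + _ = _
    rw [zero_add]
    rfl
  have hx : ∀ x : ↥(S₀ ∪ univ.image p), (∃ u : S₀, x = ⟨u, Finset.mem_union_left _ u.2⟩) ∨
      ∃ l, x = ⟨p l, Finset.mem_union_right _ (Finset.mem_image_of_mem _ (mem_univ l))⟩ := by
    rintro ⟨x, hx⟩
    have hx' := hx
    rw [Finset.mem_union, Finset.mem_image] at hx'
    rcases hx' with hx' | ⟨l, -, hl⟩
    · exact Or.inl ⟨⟨x, hx'⟩, rfl⟩
    · exact Or.inr ⟨l, Subtype.ext hl.symm⟩
  have hnone : v none = a none := by rw [ha]; rfl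
  have hU : ∀ u : S₀, v (some ⟨u, Finset.mem_union_left _ u.2⟩) = a (some u) :=
    fun u => by rw [ha]; rfl
  have hJ : ∀ l, v (some ⟨p l, Finset.mem_union_right _
      (Finset.mem_image_of_mem _ (mem_univ l))⟩) = b l := fun l => by rw [hb]; rfl
  have eU : ∀ u : S₀, (lam u 3 * (v none - v (some ⟨u, Finset.mem_union_left _ u.2⟩)) +
      ∑ q : ↥(S₀ ∪ univ.image p), lam u q *
        (v (some q) - v (some ⟨u, Finset.mem_union_left _ u.2⟩))) =
      ∑ o, (a o - a (some u)) * AA S₀ (fun u v : S₀ => lam u v) (fun u => lam u 3) (some u) o +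
        ∑ l, (b l - a (some u)) * BB S₀ (fun l (u : S₀) => lam u (p l)) (some u) l := by
    intro u
    rw [hsum, hU u, hnone, Fintype.sum_option]
    simp only [hU, hJ]
    rw [← add_assoc]
    congr 1
    · congr 1
      · exact mul_comm _ _
      · exact Finset.sum_congr rfl fun _ _ => mul_comm _ _
    · exact Finset.sum_congr rfl fun _ _ => mul_comm _ _
  have eJ : ∀ m : ι, (lam (p m) 3 * (v none - v (some ⟨p m, Finset.mem_union_right _
      (Finset.mem_image_of_mem _ (mem_univ m))⟩)) +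
      ∑ q : ↥(S₀ ∪ univ.image p), lam (p m) q *
        (v (some q) - v (some ⟨p m, Finset.mem_union_right _
          (Finset.mem_image_of_mem _ (mem_univ m))⟩))) =
      ∑ o, (a o - b m) * (lb S₀ (p m)).2 o +
        ∑ l, (b l - b m) * Pool.Agent.Y703.CX.ext
          (fun e : prs (univ : Finset ι) => lam (p e.1.1) (p e.1.2)) m l := by
    intro m
    rw [hsum, hJ m, hnone, Fintype.sum_option, ext_sum]
    simp only [hU, hJ]
    rw [← add_assoc]
    congr 1
    · congr 1
      · exact mul_comm _ _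
      · exact Finset.sum_congr rfl fun _ _ => mul_comm _ _
    · exact Finset.sum_congr rfl fun _ _ => mul_comm _ _
  constructor
  · intro h
    refine ⟨fun o ho => ?_, fun m _ => ?_⟩
    · obtain ⟨u, rfl⟩ := mem_U1.1 ho
      exact (eU u).symm.trans (h ⟨u, _⟩)
    · exact (eJ m).symm.trans (h ⟨p m, _⟩)
  · rintro ⟨h1, h2⟩ x
    rcases hx x with ⟨u, rfl⟩ | ⟨l, rfl⟩
    · exact (eU u).trans (h1 (some u) (mem_U1.2 ⟨u, rfl⟩))
    · exact (eJ l).trans (h2 l (mem_univ _))

end one

/-- **The count in a box.** -/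
theorem t_BOX (hEQ : S_EQ) (h3 : S_C3) (r : ℕ) (ι : Type) [Fintype ι] [Nonempty ι]
    (C : ι → Finset ℕ) (X : ι → ℕ) (κ : ℝ) (S₀ : Finset ℕ) (hκ : 0 ≤ κ)
    (hCX : ∀ i, (C i).card ≤ X i) (hHB : HB univ C X κ)
    (hC : ∀ i, ∀ p ∈ C i, p ∉ S₀) (hdis : ∀ i l, i ≠ l → Disjoint (C i) (C l)) :
    |(((Fintype.piFinset C).filter fun p => Nd S₀ (univ.image p) ∧
        Gr r (S₀ ∪ univ.image p)).card : ℝ) -
      ur r * (((Fintype.piFinset C).filter fun p => Nd S₀ (univ.image p)).card : ℝ)| ≤
    75 * 3 ^ r * (3 ^ S₀.card / 3 ^ Fintype.card ι) *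
      (((Fintype.piFinset C).filter fun p => Nd S₀ (univ.image p)).card : ℝ) +
    3 ^ ((2 * S₀.card + 1) * Fintype.card ι + (prs (univ : Finset ι)).card) *
      (κ * ∏ j, (X j : ℝ)) := by
  set cc : ℝ := 75 * 3 ^ r * (3 ^ S₀.card / 3 ^ Fintype.card ι) with hcc
  set R : ℝ := 3 ^ (prs (univ : Finset ι)).card * (κ * ∏ j, (X j : ℝ)) with hR
  have hcc0 : 0 ≤ cc := by positivity
  have hR0 : 0 ≤ R := mul_nonneg (by positivity)
    (mul_nonneg hκ (Finset.prod_nonneg fun j _ => by positivity))
  -- facts on tuples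
  have hinj : ∀ p ∈ Fintype.piFinset C, Function.Injective p := by
    intro p hp i j hij
    rw [Fintype.mem_piFinset] at hp
    by_contra hne
    have h1 := Finset.disjoint_left.1 (hdis i j hne) (hp i)
    rw [hij] at h1
    exact h1 (hp j)
  have hd : ∀ p ∈ Fintype.piFinset C, ∀ i, p i ∉ S₀ := by
    intro p hp i
    rw [Fintype.mem_piFinset] at hp
    exact hC i _ (hp i)
  obtain ⟨ks⟩ := (inferInstance : Nonempty ι)
  have hcount : Fintype.card (Option S₀) + Fintype.card ι =
      (U1 S₀).card + (univ : Finset ι).card + 1 := by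
    unfold U1
    rw [Fintype.card_option, Finset.card_map, Finset.card_univ, Finset.card_univ]
    omega
  -- the part with given labels
  have h1 : ∀ β : ι → (S₀ → ZMod 3) × (Option S₀ → ZMod 3), LN S₀ β →
      |(((Fintype.piFinset C).filter fun p => (fun i => lb S₀ (p i)) = β ∧
          Gr r (S₀ ∪ univ.image p)).card : ℝ) -
        ur r * (((Fintype.piFinset C).filter fun p => (fun i => lb S₀ (p i)) = β).card : ℝ)| ≤
      cc * (((Fintype.piFinset C).filter fun p => (fun i => lb S₀ (p i)) = β).card : ℝ) + R := by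
    intro β hβ
    set C' : ι → Finset ℕ := fun i => (C i).filter fun q => lb S₀ q = β i with hC'
    have hpi : (Fintype.piFinset C).filter (fun p => (fun i => lb S₀ (p i)) = β) =
        Fintype.piFinset C' := by
      ext p
      simp only [Finset.mem_filter, Fintype.mem_piFinset, hC']
      constructor
      · rintro ⟨h2, h3⟩ i
        exact ⟨h2 i, congrFun h3 i⟩
      · intro h2
        exact ⟨fun i => (h2 i).1, funext fun i => (h2 i).2⟩
    have h2 := t_LA h3 r (Option S₀) ι (U1 S₀) univ ks hcount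
      (AA S₀ (fun u v : S₀ => lam u v) fun u => lam u 3)
      (BB S₀ fun l (u : S₀) => (β l).1 u) (fun k o => (β k).2 o)
      (by
        rintro v ⟨o, ho, hv⟩
        obtain ⟨u, rfl⟩ := mem_U1.1 ho
        have h3 := hβ.1 (fun u => v (some u)) ⟨u, hv⟩
        obtain ⟨l, hl, hlk⟩ := Finset.exists_mem_ne (lt_of_lt_of_le one_lt_two h3) ks
        refine ⟨l, hlk, ?_⟩
        have h4 := (Finset.mem_filter.1 hl).2
        unfold U1
        rw [Finset.sum_map]
        exact h4)
      (fun w hw => by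
        obtain ⟨i, hi⟩ := hβ.2 w hw
        exact ⟨i, mem_univ _, hi⟩)
    set Q : (prs (univ : Finset ι) → ZMod 3) → Prop := fun α => nG (U1 S₀) (univ : Finset ι)
      (AA S₀ (fun u v : S₀ => lam u v) fun u => lam u 3)
      (BB S₀ fun l (u : S₀) => (β l).1 u) (fun k o => (β k).2 o)
      (Pool.Agent.Y703.CX.ext α) = 3 ^ (r + 1) with hQ
    have h3 := hEQ ι univ C' X κ hκ
      (fun i => (Finset.card_le_card (Finset.filter_subset _ _)).trans (hCX i))
      (HB_sub hHB fun i q => lb S₀ q = β i) Q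
    have h4 : ((Fintype.piFinset C).filter fun p => (fun i => lb S₀ (p i)) = β ∧
        Gr r (S₀ ∪ univ.image p)) = ((Fintype.piFinset C').filter fun p =>
          Q fun e => lam (p e.1.1) (p e.1.2)) := by
      rw [← hpi, Finset.filter_filter]
      refine Finset.filter_congr fun p hp => ?_
      refine and_congr_right fun hl => ?_
      unfold Gr
      rw [nQ_eq (hinj p hp) (hd p hp)]
      subst hl
      exact Iff.rfl
    have h5 : (((Fintype.piFinset C').card : ℕ) : ℝ) = ∏ j, ((C' j).card : ℝ) := by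
      rw [Fintype.card_piFinset]
      push_cast
      rfl
    rw [h4, hpi, h5]
    rw [Fintype.card_option, Fintype.card_coe, Finset.card_univ] at h2
    set n : ℝ := (((Fintype.piFinset C').filter fun p =>
          Q fun e => lam (p e.1.1) (p e.1.2)).card : ℝ) with hn
    set q : ℝ := ((univ.filter Q).card : ℝ) / 3 ^ (prs (univ : Finset ι)).card with hq
    set P : ℝ := ∏ j, ((C' j).card : ℝ) with hP
    have hP0 : 0 ≤ P := Finset.prod_nonneg fun j _ => by positivity
    have h6 : |n - ur r * P| ≤ |n - q * P| + |q - ur r| * P := by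
      have h7 : n - ur r * P = (n - q * P) + (q - ur r) * P := by ring
      have h8 : |(q - ur r) * P| = |q - ur r| * P := by rw [abs_mul, abs_of_nonneg hP0]
      rw [h7, ← h8]
      exact abs_add_le _ _
    have h2' : |q - ur r| ≤ cc := by
      refine h2.trans (le_of_eq ?_)
      rw [hcc, pow_succ]
      ring
    have h7 : |q - ur r| * P ≤ cc * P := mul_le_mul_of_nonneg_right h2' hP0
    have h8 : |n - q * P| ≤ R := by
      convert h3 using 7
      ext α
      rw [Finset.mem_filter]
      exact (@Finset.mem_filter _ Q (fun a => Classical.propDecidable (Q a)) _ _).symm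
    linarith
  -- sum over the labels
  set LL := univ.filter (fun β : ι → (S₀ → ZMod 3) × (Option S₀ → ZMod 3) => LN S₀ β) with hLL
  have hfib : ∀ T : (ι → ℕ) → Prop,
      (((Fintype.piFinset C).filter fun p => Nd S₀ (univ.image p) ∧ T p).card : ℝ) =
      ∑ β ∈ LL, (((Fintype.piFinset C).filter fun p =>
        (fun i => lb S₀ (p i)) = β ∧ T p).card : ℝ) := by
    intro T
    rw [Finset.card_eq_sum_card_fiberwise (f := fun (p : ι → ℕ) (i : ι) => lb S₀ (p i))
      (t := LL) (by
        intro p hp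
        rw [Finset.mem_coe, Finset.mem_filter] at hp
        rw [Finset.mem_coe, hLL, Finset.mem_filter]
        exact ⟨Finset.mem_univ _, (nd_iff (hinj p hp.1)).1 hp.2.1⟩)]
    push_cast
    refine Finset.sum_congr rfl fun β hβ => ?_
    rw [hLL, Finset.mem_filter] at hβ
    congr 2
    ext p
    simp only [Finset.mem_filter]
    constructor
    · rintro ⟨⟨h3, h4, h4'⟩, h5⟩
      exact ⟨h3, h5, h4'⟩
    · rintro ⟨h3, h4, h5⟩
      refine ⟨⟨h3, ?_, h5⟩, h4⟩
      rw [nd_iff (hinj p h3), h4]
      exact hβ.2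
  have hf1 := hfib fun p => Gr r (S₀ ∪ univ.image p)
  have hf2 := hfib fun _ => True
  simp only [and_true] at hf2
  rw [hf1, hf2, Finset.mul_sum, ← Finset.sum_sub_distrib]
  refine (Finset.abs_sum_le_sum_abs _ _).trans ?_
  refine (Finset.sum_le_sum fun β hβ => h1 β (Finset.mem_filter.1 hβ).2).trans ?_
  rw [Finset.sum_add_distrib, ← Finset.mul_sum, Finset.sum_const, nsmul_eq_mul]
  have h5 : ((LL.card : ℕ) : ℝ) ≤ 3 ^ ((2 * S₀.card + 1) * Fintype.card ι) := by
    have h6 : LL.card ≤ Fintype.card (ι → (S₀ → ZMod 3) × (Option S₀ → ZMod 3)) :=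
      Finset.card_le_univ _
    rw [Fintype.card_fun, Fintype.card_prod, Fintype.card_fun, Fintype.card_fun, ZMod.card,
      Fintype.card_option, Fintype.card_coe, ← pow_add, ← pow_mul] at h6
    have h7 : (S₀.card + (S₀.card + 1)) * Fintype.card ι = (2 * S₀.card + 1) * Fintype.card ι := by
      ring
    rw [h7] at h6
    exact_mod_cast h6
  have h6 := mul_le_mul_of_nonneg_right h5 hR0
  rw [pow_add, mul_assoc]
  linarith

end Pool.Agent.H462.N9.Law
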