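import Pool.Agent.H462.N9.Law.Tr
import Pool.Agent.H462.N9.Law.Asy

/-!
# The law of the coranks for the numbers `m`
-/

set_option autoImplicit false
set_option linter.unusedVariables false

open scoped Classical

namespace Pool.Agent.H462.N9.Law

open Finset Filter
open Pool.Agent.Y703.CX (lam LamP)
open Pool.Agent.Y703.CT (NoSplit)

/-! ### no splitting -/

/-- the trivial factorizations -/
def triv (D : ℕ) (c : ZMod 3) : ZMod 3 → ℕ := fun i => if i = c then D else 1

lemma Spl_finite {D : ℕ} (h0 : D ≠ 0) : (Spl D).Finite := by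
  refine Set.Finite.subset (Set.Finite.pi' (t := fun _ : ZMod 3 => Set.Iic D)
    fun _ => Set.finite_Iic D) ?_
  rintro d ⟨h, -⟩ c
  have h1 : d c ∣ D := by
    rw [← h]
    exact Finset.dvd_prod_of_mem _ (Finset.mem_univ c)
  exact Nat.le_of_dvd (Nat.pos_of_ne_zero h0) h1

lemma triv_mem (D : ℕ) (c : ZMod 3) : triv D c ∈ Spl D := by
  refine ⟨?_, fun i j hij => ?_, fun i p hp hd => ?_⟩
  · unfold triv
    rw [Finset.prod_ite_eq' Finset.univ c fun _ => D, if_pos (Finset.mem_univ c)]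
  · unfold triv
    by_cases h1 : i = c
    · have hj : j ≠ c := fun h => hij (h1.trans h.symm)
      simp only [if_neg hj]
      exact Nat.coprime_one_right _
    · simp only [if_neg h1]
      exact Nat.coprime_one_left _
  · have h1 : i = c := by
      by_contra h1
      unfold triv at hd
      rw [if_neg h1] at hd
      exact hp.one_lt.ne' (Nat.dvd_one.1 hd)
    have n1 : i + 1 ≠ i := by
      have : ∀ a : ZMod 3, a + 1 ≠ a := by decide
      exact this _
    have n2 : i + 2 ≠ i := by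
      have : ∀ a : ZMod 3, a + 2 ≠ a := by decide
      exact this _
    refine ⟨1, ?_⟩
    unfold triv
    rw [if_neg (h1 ▸ n1), if_neg (h1 ▸ n2)]
    norm_num

lemma triv_inj {D : ℕ} (h1 : D ≠ 1) : Function.Injective (triv D) := by
  intro c c' h
  by_contra hne
  have h2 := congrFun h c
  unfold triv at h2
  rw [if_pos rfl, if_neg hne] at h2
  exact h1 h2

theorem noSplit_iff {D : ℕ} (h0 : D ≠ 0) (h1 : D ≠ 1) : NoSplit D ↔ (Spl D).ncard = 3 := by
  have hT : (Set.range (triv D)).ncard = 3 := by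
    rw [← Set.image_univ, Set.ncard_image_of_injective _ (triv_inj h1), Set.ncard_univ,
      Nat.card_zmod]
  have hsub : Set.range (triv D) ⊆ Spl D := by
    rintro _ ⟨c, rfl⟩
    exact triv_mem D c
  constructor
  · intro h
    suffices e : Spl D = Set.range (triv D) by rw [e]; exact hT
    refine Set.Subset.antisymm ?_ hsub
    rintro d ⟨k1, k2, k3⟩
    obtain ⟨c, hc⟩ := h d k1 k2 k3
    refine ⟨c, ?_⟩
    funext i
    unfold triv
    by_cases hi : i = c
    · rw [if_pos hi, hi, ← k1]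
      exact Finset.prod_eq_single c (fun j _ hj => hc j hj) (fun h => absurd (Finset.mem_univ c) h)
    · rw [if_neg hi, hc i hi]
  · intro h d k1 k2 k3
    have e : Set.range (triv D) = Spl D :=
      Set.eq_of_subset_of_ncard_le hsub (by rw [h, hT]) (Spl_finite h0)
    have hd : d ∈ Set.range (triv D) := by
      rw [e]
      exact ⟨k1, k2, k3⟩
    obtain ⟨c, rfl⟩ := hd
    refine ⟨c, fun j hj => ?_⟩
    unfold triv
    rw [if_neg hj]

/-! ### the bijection -/

theorem card_eq (X : ℕ) (P : ℕ → Prop) (Q : Finset ℕ → Prop)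
    (hPQ : ∀ m, Sq m → (P m ↔ Q m.primeFactors)) :
    {m : ℕ | m ≤ X ∧ Sq m ∧ P m}.ncard = ((SS X).filter Q).card := by
  have e : {m : ℕ | m ≤ X ∧ Sq m ∧ P m} = (((Icc 1 X).filter fun m => Sq m ∧ P m : Finset ℕ) :
      Set ℕ) := by
    ext m
    rw [mem_coe, mem_filter, mem_Icc]
    constructor
    · rintro ⟨h1, h2, h3⟩
      exact ⟨⟨Nat.one_le_iff_ne_zero.2 h2.1.ne_zero, h1⟩, h2, h3⟩
    · rintro ⟨⟨-, h1⟩, h2, h3⟩
      exact ⟨h1, h2, h3⟩
  rw [e, Set.ncard_coe_finset]
  refine Finset.card_bij (fun D _ => D.primeFactors) ?_ ?_ ?_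
  · intro D hD
    obtain ⟨h1, h2, h4⟩ := Finset.mem_filter.1 hD
    obtain ⟨h5, h6⟩ := Finset.mem_Icc.1 h1
    refine Finset.mem_filter.2 ⟨Finset.mem_filter.2 ⟨?_, h2.cl, ?_⟩, (hPQ D h2).1 h4⟩
    · rw [Finset.mem_powerset]
      intro p hp
      have := Nat.le_of_dvd (by omega) (Nat.dvd_of_mem_primeFactors hp)
      exact Finset.mem_range.2 (by omega)
    · rw [Nat.prod_primeFactors_of_squarefree h2.1]
      exact h6
  · intro D hD E hE h
    have h2 := (Finset.mem_filter.1 hD).2.1.1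
    have h3 := (Finset.mem_filter.1 hE).2.1.1
    have h' : D.primeFactors = E.primeFactors := h
    rw [← Nat.prod_primeFactors_of_squarefree h2, ← Nat.prod_primeFactors_of_squarefree h3, h']
  · intro S hS
    obtain ⟨h1, h2⟩ := Finset.mem_filter.1 hS
    obtain ⟨h3, h4, h5⟩ := Finset.mem_filter.1 h1
    have hpr : ∀ p ∈ S, p.Prime := fun p hp => (h4 p hp).1
    have hpf : (∏ p ∈ S, p).primeFactors = S := Nat.primeFactors_prod hpr
    have hsq : Squarefree (∏ p ∈ S, p) := by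
      refine Finset.squarefree_prod_of_pairwise_isCoprime (fun p hp q hq hpq => ?_)
        fun p hp => (hpr p hp).squarefree
      show IsRelPrime p q
      rw [← Nat.coprime_iff_isRelPrime]
      exact (Nat.coprime_primes (hpr p hp) (hpr q hq)).mpr hpq
    have hSq : Sq (∏ p ∈ S, p) := by
      refine ⟨hsq, fun p hp hd => ?_⟩
      have : p ∈ (∏ p ∈ S, p).primeFactors := Nat.mem_primeFactors.2 ⟨hp, hd, hsq.ne_zero⟩
      rw [hpf] at this
      exact (h4 p this).2
    refine ⟨∏ p ∈ S, p, ?_, hpf⟩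
    refine Finset.mem_filter.2 ⟨Finset.mem_Icc.2 ⟨?_, h5⟩, hSq, ?_⟩
    · exact Nat.one_le_iff_ne_zero.2 hsq.ne_zero
    · rw [hPQ _ hSq, hpf]
      exact h2

/-- the family: the squarefree `m > 1` with all primes `≡ 1` modulo `3` -/
def Fa (X : ℕ) : Set ℕ := {m | m ≤ X ∧ 1 < m ∧ Squarefree m ∧ ∀ p : ℕ, p.Prime → p ∣ m → p % 3 = 1}

lemma Fa_finite (X : ℕ) : (Fa X).Finite := (Set.finite_Iic X).subset fun m hm => hm.1

lemma Fa_ncard (X : ℕ) (P : ℕ → Prop) (Q : Finset ℕ → Prop)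
    (hPQ : ∀ m, Sq m → (P m ↔ Q m.primeFactors)) :
    {m ∈ Fa X | P m}.ncard = ((SS X).filter fun S => S ≠ ∅ ∧ Q S).card := by
  have key : {m : ℕ | m ≤ X ∧ Sq m ∧ (m ≠ 1 ∧ P m)}.ncard =
      ((SS X).filter fun S => S ≠ ∅ ∧ Q S).card := by
    convert card_eq X (fun m => m ≠ 1 ∧ P m) (fun S => S ≠ ∅ ∧ Q S) ?_
    intro m hm
    rw [hPQ m hm]
    refine and_congr_left fun _ => not_congr ?_
    rw [Nat.primeFactors_eq_empty]
    constructor
    · intro h; exact Or.inr h
    · rintro (h | h)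
      · exact absurd h hm.1.ne_zero
      · exact h
  rw [← key]
  · congr 1
    ext m
    constructor
    · rintro ⟨⟨h1, h2, h3, h4⟩, h5⟩
      exact ⟨h1, ⟨h3, h4⟩, h2.ne', h5⟩
    · rintro ⟨h1, ⟨h3, h4⟩, h2, h5⟩
      have := Nat.pos_of_ne_zero h3.ne_zero
      exact ⟨⟨h1, by omega, h3, h4⟩, h5⟩

lemma fil_ne (X : ℕ) (Q : Finset ℕ → Prop) :
    ((SS X).filter fun S => S ≠ ∅ ∧ Q S).card ≤ ((SS X).filter Q).card ∧
      ((SS X).filter Q).card ≤ ((SS X).filter fun S => S ≠ ∅ ∧ Q S).card + 1 := by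
  constructor
  · refine card_le_card fun S hS => ?_
    rw [mem_filter] at hS ⊢
    exact ⟨hS.1, hS.2.2⟩
  · have h : (SS X).filter Q ⊆ insert ∅ ((SS X).filter fun S => S ≠ ∅ ∧ Q S) := by
      intro S hS
      rw [mem_filter] at hS
      rw [mem_insert, mem_filter]
      by_cases h1 : S = ∅
      · exact Or.inl h1
      · exact Or.inr ⟨hS.1, h1, hS.2⟩
    exact (card_le_card h).trans (card_insert_le _ _)

lemma ss_top : Tendsto (fun X : ℕ => ((SS X).card : ℝ)) atTop atTop := by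
  obtain ⟨c, X₀, hc, h⟩ := t_LOW Pool.Agent.Y87.CX.t_MER
  have h1 : Tendsto (fun X : ℕ => c / 4 * Real.log X) atTop atTop :=
    (Real.tendsto_log_atTop.comp tendsto_natCast_atTop_atTop).const_mul_atTop (by positivity)
  refine tendsto_atTop_mono' _ ?_ h1
  filter_upwards [eventually_ge_atTop X₀, eventually_ge_atTop 3,
    ((Real.tendsto_log_atTop.comp tendsto_natCast_atTop_atTop).eventually_ge_atTop 1)]
    with X hX hX3 hl
  refine le_trans ?_ (h X hX)
  have hX0 : (1 : ℝ) < X := by exact_mod_cast (by omega : 1 < X)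
  have hl' : 1 ≤ Real.log X := hl
  have hlog : 0 < Real.log X := by linarith
  have h2 : Real.log X * (Real.log X) ^ (1 / 2 : ℝ) ≤ 4 * X := by
    have e1 : Real.log X ≤ 2 * (X : ℝ) ^ (1 / 2 : ℝ) := by
      have := Real.log_le_rpow_div (show (0 : ℝ) ≤ X by linarith) (show (0 : ℝ) < 1 / 2 by norm_num)
      linarith
    have e2 : (Real.log X) ^ (1 / 2 : ℝ) ≤ Real.log X := by
      have := Real.rpow_le_rpow_of_exponent_le hl' (show (1 / 2 : ℝ) ≤ 1 by norm_num)
      rwa [Real.rpow_one] at this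
    have e3 : (X : ℝ) ^ (1 / 2 : ℝ) * (X : ℝ) ^ (1 / 2 : ℝ) = X := by
      rw [← Real.rpow_add (by linarith)]
      norm_num
    have e4 : 0 ≤ (X : ℝ) ^ (1 / 2 : ℝ) := Real.rpow_nonneg (by linarith) _
    calc Real.log X * (Real.log X) ^ (1 / 2 : ℝ) ≤ Real.log X * Real.log X :=
          mul_le_mul_of_nonneg_left e2 hlog.le
      _ ≤ (2 * (X : ℝ) ^ (1 / 2 : ℝ)) * (2 * (X : ℝ) ^ (1 / 2 : ℝ)) :=
          mul_le_mul e1 e1 hlog.le (by positivity)
      _ = 4 * X := by linear_combination 4 * e3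
  have h3 : c * X * (Real.log X) ^ (-(1 / 2) : ℝ) = c / 4 * (4 * X * (Real.log X) ^ (-(1 / 2) : ℝ)) := by
    ring
  rw [h3]
  refine mul_le_mul_of_nonneg_left ?_ (by positivity)
  rw [Real.rpow_neg hlog.le, ← div_eq_mul_inv, le_div_iff₀ (Real.rpow_pos_of_pos hlog _)]
  exact h2

/-- **the law of the coranks for the numbers `m`** -/
theorem law (r : ℕ) : Tendsto (fun X : ℕ =>
    (({m ∈ Fa X | (Spl (3 * m)).ncard = 3 ^ (r + 1)}.ncard : ℕ) : ℝ) / ((Fa X).ncard : ℝ))
    atTop (nhds (ur r)) := by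
  have hL := Pool.Agent.Y333.CX.t_LAM
  have h1 := t_DQ r
  have e1 : ∀ X : ℕ, {m ∈ Fa X | (Spl (3 * m)).ncard = 3 ^ (r + 1)}.ncard =
      ((SS X).filter fun S => S ≠ ∅ ∧ Gr r S).card := fun X =>
    Fa_ncard X _ _ fun m hm => by rw [card_Spl hL hm]; rfl
  have e2 : ∀ X : ℕ, (Fa X).ncard = ((SS X).filter fun S => S ≠ ∅ ∧ True).card := fun X => by
    have := Fa_ncard X (fun _ => True) (fun _ => True) fun m hm => Iff.rfl
    simpa using this
  have hN := ss_top
  have hinv : Tendsto (fun X : ℕ => 1 / ((SS X).card : ℝ)) atTop (nhds 0) :=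
    tendsto_const_nhds.div_atTop hN
  -- the denominators
  have h2 : Tendsto (fun X : ℕ => ((Fa X).ncard : ℝ) / ((SS X).card : ℝ)) atTop (nhds 1) := by
    have hlo : Tendsto (fun X : ℕ => 1 - 1 / ((SS X).card : ℝ)) atTop (nhds 1) := by
      simpa using tendsto_const_nhds.sub hinv
    refine tendsto_of_tendsto_of_tendsto_of_le_of_le' hlo tendsto_const_nhds ?_ ?_
    · filter_upwards [hN.eventually_gt_atTop 0] with X hX
      rw [e2 X, sub_le_iff_le_add, ← add_div, le_div_iff₀ hX, one_mul]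
      have := (fil_ne X fun _ => True).2
      rw [filter_true] at this
      exact_mod_cast this
    · filter_upwards [hN.eventually_gt_atTop 0] with X hX
      rw [e2 X, div_le_iff₀ hX, one_mul]
      have := (fil_ne X fun _ => True).1
      rw [filter_true] at this
      exact_mod_cast this
  have h3 : Tendsto (fun X : ℕ => (({m ∈ Fa X | (Spl (3 * m)).ncard = 3 ^ (r + 1)}.ncard : ℕ) : ℝ) /
      ((SS X).card : ℝ)) atTop (nhds (ur r)) := by
    have hlo : Tendsto (fun X : ℕ => (((SS X).filter (Gr r)).card : ℝ) / ((SS X).card : ℝ) -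
        1 / ((SS X).card : ℝ)) atTop (nhds (ur r)) := by
      simpa using h1.sub hinv
    refine tendsto_of_tendsto_of_tendsto_of_le_of_le' hlo h1 ?_ ?_
    · filter_upwards [hN.eventually_gt_atTop 0] with X hX
      rw [e1 X, sub_le_iff_le_add, ← add_div]
      apply div_le_div_of_nonneg_right _ hX.le
      have := (fil_ne X (Gr r)).2
      exact_mod_cast this
    · filter_upwards [hN.eventually_gt_atTop 0] with X hX
      rw [e1 X]
      apply div_le_div_of_nonneg_right _ hX.le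
      have := (fil_ne X (Gr r)).1
      exact_mod_cast this
  have h4 := h3.div h2 one_ne_zero
  rw [div_one] at h4
  refine h4.congr' ?_
  filter_upwards [hN.eventually_gt_atTop 0] with X hX
  show _ / ((SS X).card : ℝ) / (((Fa X).ncard : ℝ) / ((SS X).card : ℝ)) = _
  rw [div_div_div_cancel_right₀ hX.ne']

/-- the number of the `m` -/
theorem fa_low : ∃ (c : ℝ) (X₀ : ℕ), 0 < c ∧ ∀ X : ℕ, X₀ ≤ X →
    c * X * (Real.log X) ^ (-(1 / 2) : ℝ) ≤ ((Fa X).ncard : ℝ) := by
  obtain ⟨c, X₀, hc, h⟩ := t_LOW Pool.Agent.Y87.CX.t_MER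
  obtain ⟨X₁, h1⟩ := eventually_atTop.1 (ss_top.eventually_ge_atTop 2)
  refine ⟨c / 2, max X₀ X₁, by positivity, fun X hX => ?_⟩
  have h2 := h X ((le_max_left _ _).trans hX)
  have h3 := h1 X ((le_max_right _ _).trans hX)
  have e2 : (Fa X).ncard = ((SS X).filter fun S => S ≠ ∅ ∧ True).card := by
    have := Fa_ncard X (fun _ => True) (fun _ => True) fun m hm => Iff.rfl
    simpa using this
  have h4 := (fil_ne X fun _ => True).2
  rw [filter_true] at h4
  have h5 : ((SS X).card : ℝ) ≤ ((Fa X).ncard : ℝ) + 1 := by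
    rw [e2]
    exact_mod_cast h4
  have h6 : c / 2 * X * (Real.log X) ^ (-(1 / 2) : ℝ) =
    (c * X * (Real.log X) ^ (-(1 / 2) : ℝ)) / 2 := by ring
  rw [h6]
  linarith

end Pool.Agent.H462.N9.Law
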