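import Pool.Graph.R_seed8.Y759.CX.LA
import Pool.Graph.R_seed8.Y461.CX.C3

/-!
# Linear algebra over the field with three elements: the law of the coranks
-/

set_option autoImplicit false
set_option linter.unusedSectionVars false

open scoped Classical

namespace Pool.Agent.H462.N9.Law

open Function Module
open Pool.Agent.Y703.CX (c3 S_C3 prs ext)
open Pool.Agent.Y759.CX

section lin

variable {X K Q W Y V : Type} [AddCommGroup X] [Module F X] [Finite X]
  [AddCommGroup K] [Module F K] [Finite K] [AddCommGroup Q] [Module F Q] [Finite Q]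
  [AddCommGroup W] [Module F W] [Finite W] [AddCommGroup Y] [Module F Y] [Finite Y]
  [AddCommGroup V] [Module F V] [Finite V]

lemma pm_pos (m : ℕ) : 0 < pm m := by
  refine Finset.prod_pos fun i _ => ?_
  have : (1 / 3 : ℝ) ^ (i + 1) < 1 := pow_lt_one₀ (by norm_num) (by norm_num) (by omega)
  linarith

/-- the number of the injective maps -/
theorem card_inj {a b : ℕ} (hK : finrank F K = a) (hQ : finrank F Q = b) (hab : a ≤ b) :
    (Nat.card {g : K →ₗ[F] Q // Injective g} : ℝ) = 3 ^ (a * b) * (pm b / pm (b - a)) := by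
  have := Fintype.ofFinite Q
  have := Fintype.ofFinite K
  let B : Basis (Fin a) F K := Module.finBasisOfFinrankEq F K hK
  have h1 : Nat.card {g : K →ₗ[F] Q // Injective g} =
      Nat.card {s : Fin a → Q // LinearIndependent F s} := by
    symm
    refine Nat.card_congr ((B.constr F).toEquiv.subtypeEquiv fun s => ?_)
    show _ ↔ Injective (B.constr F s)
    have hb : ∀ i, B.constr F s (B i) = s i := fun i => B.constr_basis F s i
    constructor
    · intro hi
      refine (injective_iff_map_eq_zero (B.constr F s)).2 ?_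
      intro x hx
      have h4 : ∑ i, B.repr x i • s i = 0 := by
        have h5 := congrArg (B.constr F s) (B.sum_repr x)
        rw [map_sum, hx] at h5
        rw [← h5]
        exact Finset.sum_congr rfl fun i _ => by rw [map_smul, hb]
      have h5 := Fintype.linearIndependent_iff.1 hi _ h4
      rw [← B.sum_repr x]
      exact Finset.sum_eq_zero fun i _ => by rw [h5 i, zero_smul]
    · intro hi
      have h2 := B.linearIndependent.map' (B.constr F s) (LinearMap.ker_eq_bot.2 hi)
      have h3 : (B.constr F s) ∘ B = s := funext hb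
      rwa [h3] at h2
  rw [h1, card_linearIndependent (K := F) (V := Q) (by rw [hQ]; exact hab), hQ, ZMod.card,
    Fin.prod_univ_eq_prod_range (fun i => 3 ^ b - 3 ^ i) a]
  have h6 : ((∏ i ∈ Finset.range a, (3 ^ b - 3 ^ i) : ℕ) : ℝ) =
      ∏ i ∈ Finset.range a, ((3 : ℝ) ^ b - 3 ^ i) := by
    rw [Nat.cast_prod]
    refine Finset.prod_congr rfl fun i hi => ?_
    rw [Nat.cast_sub (Nat.pow_le_pow_right (by norm_num) ((Finset.mem_range.1 hi).le.trans hab))]
    push_cast
    rfl
  rw [h6, ← mul_div_assoc, eq_div_iff (pm_pos _).ne']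
  have h7 : (3 : ℝ) ^ (a * b) = ∏ i ∈ Finset.range a, (3 : ℝ) ^ b := by
    rw [Finset.prod_const, Finset.card_range, ← pow_mul, mul_comm]
  have h8 : pm b = pm (b - a) * ∏ i ∈ Finset.range a, (1 - (1 / 3 : ℝ) ^ (b - a + i + 1)) := by
    unfold pm
    rw [← Finset.prod_range_add]
    congr 2
    omega
  have h9 : ∏ i ∈ Finset.range a, (1 - (1 / 3 : ℝ) ^ (b - a + i + 1)) =
      ∏ i ∈ Finset.range a, (1 - (1 / 3 : ℝ) ^ (b - i)) := by
    rw [← Finset.prod_range_reflect]
    refine Finset.prod_congr rfl fun i hi => ?_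
    have := Finset.mem_range.1 hi
    congr 2
    omega
  rw [h8, h9, h7, mul_left_comm, ← Finset.prod_mul_distrib, mul_comm]
  congr 1
  refine Finset.prod_congr rfl fun i hi => ?_
  have := Finset.mem_range.1 hi
  rw [mul_sub, mul_one, one_div_pow, mul_one_div]
  congr 1
  rw [eq_div_iff (by positivity), ← pow_add]
  congr 1
  omega

/-- the maps with a given kernel -/
lemma card_ker_eq (L : Submodule F K) :
    Nat.card {g : K →ₗ[F] Q // LinearMap.ker g = L} =
      Nat.card {g : (K ⧸ L) →ₗ[F] Q // Injective g} := by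
  refine Nat.card_congr ?_
  exact {
    toFun := fun g => ⟨L.liftQ g.1 (by rw [g.2]), by
      rw [← LinearMap.ker_eq_bot]
      exact Submodule.ker_liftQ_eq_bot _ _ _ (by rw [g.2])⟩
    invFun := fun g => ⟨g.1 ∘ₗ L.mkQ, by
      rw [LinearMap.ker_comp, LinearMap.ker_eq_bot.2 g.2, Submodule.comap_bot, Submodule.ker_mkQ]⟩
    left_inv := fun g => Subtype.ext (by
      show L.liftQ g.1 _ ∘ₗ L.mkQ = g.1
      exact Submodule.liftQ_mkQ _ _ _)
    right_inv := fun g => Subtype.ext (by
      show L.liftQ (g.1 ∘ₗ L.mkQ) _ = g.1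
      refine Submodule.linearMap_qext _ ?_
      exact Submodule.liftQ_mkQ _ _ _) }

/-- the parametrisations of a subspace -/
lemma card_range_eq {r : ℕ} (L : Submodule F K) (hL : finrank F L = r) :
    Nat.card {s : (Fin r → F) →ₗ[F] K // Injective s ∧ LinearMap.range s = L} =
      Nat.card {s : (Fin r → F) →ₗ[F] L // Injective s} := by
  refine Nat.card_congr ?_
  exact {
    toFun := fun s => ⟨s.1.codRestrict L (fun x => (le_of_eq s.2.2) ⟨x, rfl⟩),
      fun x y hxy => s.2.1 (congrArg Subtype.val hxy)⟩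
    invFun := fun s => ⟨L.subtype ∘ₗ s.1, ⟨fun x y hxy => s.2 (Subtype.ext hxy), by
      rw [LinearMap.range_comp]
      have h1 : LinearMap.range s.1 = ⊤ := by
        refine LinearMap.range_eq_top.2 ?_
        refine (LinearMap.injective_iff_surjective_of_finrank_eq_finrank ?_).1 s.2
        rw [hL, finrank_fintype_fun_eq_card, Fintype.card_fin]
      rw [h1, Submodule.map_top, Submodule.range_subtype]⟩⟩
    left_inv := fun s => Subtype.ext (by
      ext x
      rfl)
    right_inv := fun s => Subtype.ext (by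
      ext x
      rfl) }

/-- the number of the maps with a kernel of dimension `r` -/
theorem card_ker {m r : ℕ} (hK : finrank F K = m) (hQ : finrank F Q = m) (hr : r ≤ m) :
    (Nat.card {g : K →ₗ[F] Q // finrank F (LinearMap.ker g) = r} : ℝ) * (3 ^ (r * r) * pm r) =
      (3 ^ (r * m) * (pm m / pm (m - r))) * (3 ^ ((m - r) * m) * (pm m / pm r)) := by
  have hpm0 : pm 0 = 1 := by unfold pm; simp
  -- count the pairs
  have h1 : Nat.card (Σ g : {g : K →ₗ[F] Q // finrank F (LinearMap.ker g) = r},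
      {s : (Fin r → F) →ₗ[F] K // Injective s ∧ LinearMap.range s = LinearMap.ker g.1}) =
      Nat.card (Σ s : {s : (Fin r → F) →ₗ[F] K // Injective s},
        {g : K →ₗ[F] Q // LinearMap.ker g = LinearMap.range s.1}) := by
    refine Nat.card_congr ?_
    exact {
      toFun := fun x => ⟨⟨x.2.1, x.2.2.1⟩, ⟨x.1.1, x.2.2.2.symm⟩⟩
      invFun := fun x => ⟨⟨x.2.1, by
        rw [x.2.2, LinearMap.finrank_range_of_inj x.1.2, finrank_fintype_fun_eq_card,
          Fintype.card_fin]⟩, ⟨x.1.1, x.1.2, x.2.2.symm⟩⟩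
      left_inv := fun x => rfl
      right_inv := fun x => rfl }
  have := Fintype.ofFinite {g : K →ₗ[F] Q // finrank F (LinearMap.ker g) = r}
  have := Fintype.ofFinite {s : (Fin r → F) →ₗ[F] K // Injective s}
  rw [Nat.card_sigma, Nat.card_sigma] at h1
  have h2 : ∀ g : {g : K →ₗ[F] Q // finrank F (LinearMap.ker g) = r},
      (Nat.card {s : (Fin r → F) →ₗ[F] K // Injective s ∧
        LinearMap.range s = LinearMap.ker g.1} : ℝ) = 3 ^ (r * r) * pm r := by
    intro g
    rw [card_range_eq _ g.2, card_inj (a := r) (b := r) (by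
      rw [finrank_fintype_fun_eq_card, Fintype.card_fin]) g.2 le_rfl, Nat.sub_self, hpm0, div_one]
  have h3 : ∀ s : {s : (Fin r → F) →ₗ[F] K // Injective s},
      (Nat.card {g : K →ₗ[F] Q // LinearMap.ker g = LinearMap.range s.1} : ℝ) =
        3 ^ ((m - r) * m) * (pm m / pm r) := by
    intro s
    have h4 : finrank F (K ⧸ LinearMap.range s.1) = m - r := by
      have h5 := Submodule.finrank_quotient_add_finrank (LinearMap.range s.1)
      rw [LinearMap.finrank_range_of_inj s.2, finrank_fintype_fun_eq_card, Fintype.card_fin, hK]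
        at h5
      omega
    haveI : Finite (K ⧸ LinearMap.range s.1) := Finite.of_surjective _ (Submodule.mkQ_surjective _)
    rw [card_ker_eq, card_inj h4 hQ (by omega)]
    congr 3
    omega
  have h4 : (Nat.card {s : (Fin r → F) →ₗ[F] K // Injective s} : ℝ) =
      3 ^ (r * m) * (pm m / pm (m - r)) := card_inj (by
    rw [finrank_fintype_fun_eq_card, Fintype.card_fin]) hK hr
  have h5 := congrArg (fun n : ℕ => (n : ℝ)) h1
  simp only [Nat.cast_sum] at h5
  rw [Finset.sum_congr rfl fun g _ => h2 g, Finset.sum_congr rfl fun s _ => h3 s,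
    Finset.sum_const, Finset.sum_const, nsmul_eq_mul, nsmul_eq_mul, Finset.card_univ,
    Finset.card_univ, ← Nat.card_eq_fintype_card, ← Nat.card_eq_fintype_card, h4] at h5
  exact h5

/-- the proportion of the maps with a kernel of dimension `r` -/
noncomputable def qq (m r : ℕ) : ℝ :=
  if r ≤ m then (1 / 3 : ℝ) ^ (r ^ 2) * (pm m ^ 2 / (pm (m - r) * pm r ^ 2)) else 0

theorem fr_ker {m r : ℕ} (hK : finrank F K = m) (hQ : finrank F Q = m) :
    fr (fun g : K →ₗ[F] Q => finrank F (LinearMap.ker g) = r) = qq m r := by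
  unfold qq
  split_ifs with hr
  · have h1 := card_ker (K := K) (Q := Q) hK hQ hr
    have h2 : (Nat.card (K →ₗ[F] Q) : ℝ) = 3 ^ (m * m) := by
      rw [card_mod, Module.finrank_linearMap, hK, hQ]
      push_cast
      rfl
    unfold fr
    rw [h2, div_eq_iff (by positivity)]
    have h3 := (pm_pos r).ne'
    have h4 := (pm_pos (m - r)).ne'
    have h5 : (3 : ℝ) ^ (r * r) * pm r ≠ 0 := mul_ne_zero (by positivity) h3
    refine mul_right_cancel₀ h5 ?_
    rw [h1]
    have h6 : (3 : ℝ) ^ (r * m) * 3 ^ ((m - r) * m) = 3 ^ (m * m) := by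
      rw [← pow_add, ← add_mul]
      congr 2
      omega
    have h7 : (1 / 3 : ℝ) ^ (r ^ 2) * 3 ^ (r * r) = 1 := by
      rw [← pow_two, ← mul_pow]
      norm_num
    calc (3 : ℝ) ^ (r * m) * (pm m / pm (m - r)) * (3 ^ ((m - r) * m) * (pm m / pm r))
        = ((3 : ℝ) ^ (r * m) * 3 ^ ((m - r) * m)) * (pm m / pm (m - r) * (pm m / pm r)) := by ring
      _ = 3 ^ (m * m) * ((1 / 3 : ℝ) ^ (r ^ 2) * 3 ^ (r * r)) *
          (pm m / pm (m - r) * (pm m / pm r)) := by rw [h6, h7, mul_one]
      _ = 3 ^ (m * m) * ((1 / 3 : ℝ) ^ (r ^ 2) * 3 ^ (r * r)) *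
          (pm m ^ 2 / (pm (m - r) * pm r ^ 2) * pm r) := by
        congr 1
        field_simp
      _ = _ := by ring
  · unfold fr
    have : IsEmpty {g : K →ₗ[F] Q // finrank F (LinearMap.ker g) = r} := ⟨fun g => by
      have h1 := Submodule.finrank_le (LinearMap.ker g.1)
      rw [g.2, hK] at h1
      exact hr h1⟩
    rw [Nat.card_of_isEmpty, Nat.cast_zero, zero_div]

/-- the law of the coranks -/
noncomputable def ur (r : ℕ) : ℝ := (1 / 3 : ℝ) ^ (r ^ 2) * (c3 / pm r ^ 2)

lemma c3_le_pm (h : S_C3) (m : ℕ) : c3 ≤ pm m := by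
  have h1 : Filter.Tendsto (fun n => pm n) Filter.atTop (nhds c3) := by
    rw [tendsto_iff_dist_tendsto_zero]
    refine squeeze_zero (fun _ => dist_nonneg) (fun n => h.1 n) ?_
    exact tendsto_pow_atTop_nhds_zero_of_lt_one (by norm_num) (by norm_num)
  refine Antitone.le_of_tendsto (antitone_nat_of_succ_le fun n => ?_) h1 m
  unfold pm
  rw [Finset.prod_range_succ]
  refine mul_le_of_le_one_right (pm_nonneg n) ?_
  have : 0 ≤ (1 / 3 : ℝ) ^ (n + 1) := by positivity
  linarith

lemma ur_nonneg (h : S_C3) (r : ℕ) : 0 ≤ ur r := by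
  have := h.2.1
  unfold ur
  positivity

lemma ur_zero : ur 0 = c3 := by
  unfold ur pm
  simp

/-- convergence to the law -/
theorem qq_lim (h : S_C3) (m r : ℕ) : |qq m r - ur r| ≤ 24 * (3 ^ r / 3 ^ m) := by
  have hc0 := h.2.1
  have hc1 := h.2.2.1
  have hc2 := h.2.2.2
  have hr1 := c3_le_pm h r
  have hr2 := pm_le_one r
  have hpr := pm_pos r
  have hX : (1 / 3 : ℝ) ^ (r ^ 2) / pm r ^ 2 ≤ 4 := by
    rw [div_le_iff₀ (by positivity)]
    have h1 : (1 / 3 : ℝ) ^ (r ^ 2) ≤ 1 := pow_le_one₀ (by norm_num) (by norm_num)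
    nlinarith
  have hX0 : 0 ≤ (1 / 3 : ℝ) ^ (r ^ 2) / pm r ^ 2 := by positivity
  have hur : ur r = (1 / 3 : ℝ) ^ (r ^ 2) / pm r ^ 2 * c3 := by
    unfold ur
    ring
  unfold qq
  split_ifs with hr
  · have ha := c3_le_pm h m
    have hb := c3_le_pm h (m - r)
    have ha1 := (abs_le.1 (h.1 m)).2
    have hb1 := (abs_le.1 (h.1 (m - r))).2
    have ha2 : pm m - c3 ≤ (1 / 3 : ℝ) ^ m := ha1
    have hb2 : pm (m - r) - c3 ≤ (1 / 3 : ℝ) ^ (m - r) := hb1
    have ha3 := pm_le_one m
    have hδ : (1 / 3 : ℝ) ^ m ≤ (1 / 3 : ℝ) ^ (m - r) :=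
      pow_le_pow_of_le_one (by norm_num) (by norm_num) (by omega)
    have hδ2 : (1 / 3 : ℝ) ^ (m - r) = 3 ^ r / 3 ^ m := by
      rw [one_div_pow, one_div, inv_eq_one_div, div_eq_div_iff (by positivity) (by positivity),
        one_mul, ← pow_add]
      congr 1
      omega
    rw [← hδ2]
    set δ : ℝ := (1 / 3 : ℝ) ^ (m - r)
    have hδ0 : 0 ≤ δ := by positivity
    have e1 : (1 / 3 : ℝ) ^ (r ^ 2) * (pm m ^ 2 / (pm (m - r) * pm r ^ 2)) - ur r =
        (1 / 3 : ℝ) ^ (r ^ 2) / pm r ^ 2 * ((pm m ^ 2 - c3 * pm (m - r)) / pm (m - r)) := by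
      rw [hur]
      have := (pm_pos r).ne'
      have := (pm_pos (m - r)).ne'
      field_simp
    rw [e1, abs_mul, abs_of_nonneg hX0, abs_div, abs_of_pos (pm_pos (m - r))]
    have h2 : |pm m ^ 2 - c3 * pm (m - r)| ≤ 3 * δ := by
      rw [abs_le]
      constructor <;> nlinarith
    have h3 : |pm m ^ 2 - c3 * pm (m - r)| / pm (m - r) ≤ 6 * δ := by
      rw [div_le_iff₀ (pm_pos _)]
      nlinarith
    calc (1 / 3 : ℝ) ^ (r ^ 2) / pm r ^ 2 * (|pm m ^ 2 - c3 * pm (m - r)| / pm (m - r)) ≤
        4 * (6 * δ) := mul_le_mul hX h3 (div_nonneg (abs_nonneg _) (pm_nonneg _)) (by norm_num)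
      _ = 24 * δ := by ring
  · rw [zero_sub, abs_neg, abs_of_nonneg (ur_nonneg h r), hur]
    have h1 : (1 : ℝ) ≤ 3 ^ r / 3 ^ m := by
      rw [one_le_div (by positivity)]
      exact pow_le_pow_right₀ (by norm_num) (by omega)
    nlinarith

/-- the block system -/
noncomputable def Ph (A : X →ₗ[F] Y) (B : V →ₗ[F] Y) (C : X →ₗ[F] W) (R : V →ₗ[F] W) :
    (X × V) →ₗ[F] (Y × W) := (A.coprod B).prod (C.coprod R)

lemma mem_Ph {A : X →ₗ[F] Y} {B : V →ₗ[F] Y} {C : X →ₗ[F] W} {R : V →ₗ[F] W} {p : X × V} :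
    p ∈ LinearMap.ker (Ph A B C R) ↔ A p.1 + B p.2 = 0 ∧ C p.1 + R p.2 = 0 := by
  rw [LinearMap.mem_ker]
  show (A p.1 + B p.2, C p.1 + R p.2) = 0 ↔ _
  rw [Prod.mk_eq_zero]

/-- the law for a block system -/
theorem fr_block (A : X →ₗ[F] Y) (B : V →ₗ[F] Y) (C : X →ₗ[F] W) (hB : Surjective B)
    (hC : Injective C) (h : finrank F X + finrank F V = finrank F Y + finrank F W) (r : ℕ) :
    |fr (fun R : V →ₗ[F] W => finrank F (LinearMap.ker (Ph A B C R)) = r) -
      qq (finrank F W - finrank F X) r| ≤ 3 ^ finrank F X / 3 ^ finrank F W := by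
  obtain ⟨s, hs⟩ := B.exists_rightInverse_of_surjective (LinearMap.range_eq_top.2 hB)
  have hs' : ∀ y, B (s y) = y := fun y => by
    rw [← LinearMap.comp_apply, hs, LinearMap.id_apply]
  let K := LinearMap.ker B
  have hP0 : ∀ v, v - s (B v) ∈ K := fun v => by
    rw [LinearMap.mem_ker, map_sub, hs', sub_self]
  let P : V →ₗ[F] K := (LinearMap.id - s ∘ₗ B).codRestrict K hP0
  have hP : ∀ v, (P v : V) = v - s (B v) := fun v => rfl
  have hK1 : finrank F K + finrank F Y = finrank F V := by
    have h1 := LinearMap.finrank_range_add_finrank_ker B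
    rw [LinearMap.range_eq_top.2 hB, finrank_top] at h1
    show finrank F (LinearMap.ker B) + _ = _
    omega
  have hC1 : finrank F X ≤ finrank F W := LinearMap.finrank_le_finrank_of_injective hC
  obtain ⟨m, hm⟩ : ∃ m, m = finrank F W - finrank F X := ⟨_, rfl⟩
  have hK : finrank F K = m := by omega
  have hW : finrank F W = finrank F X + m := by omega
  let e : (Y →ₗ[F] W) × (K →ₗ[F] W) ≃ (V →ₗ[F] W) :=
    { toFun := fun p => p.1 ∘ₗ B + p.2 ∘ₗ P
      invFun := fun R => (R ∘ₗ s, R ∘ₗ K.subtype)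
      left_inv := fun p => by
        refine Prod.ext ?_ ?_
        · refine LinearMap.ext fun y => ?_
          show p.1 (B (s y)) + p.2 (P (s y)) = p.1 y
          have : P (s y) = 0 := Subtype.ext (by
            rw [hP, hs', sub_self]
            rfl)
          rw [this, map_zero, add_zero, hs']
        · refine LinearMap.ext fun k => ?_
          show p.1 (B (k : V)) + p.2 (P (k : V)) = p.2 k
          have h1 : B (k : V) = 0 := LinearMap.mem_ker.1 k.2
          have : P (k : V) = k := Subtype.ext (by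
            rw [hP, h1, map_zero, sub_zero])
          rw [this, h1, map_zero, zero_add]
      right_inv := fun R => by
        refine LinearMap.ext fun v => ?_
        show R (s (B v)) + R (P v : V) = R v
        rw [hP, map_sub]
        abel }
  rw [← fr_equiv e]
  have he : ∀ (R1 : Y →ₗ[F] W) (R2 : K →ₗ[F] W) (v : V), e (R1, R2) v = R1 (B v) + R2 (P v) :=
    fun _ _ v => rfl
  -- the kernel when the perturbation is injective
  have hker : ∀ (R1 : Y →ₗ[F] W) (R2 : K →ₗ[F] W), Injective (C - R1 ∘ₗ A) →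
      finrank F (LinearMap.ker (Ph A B C (e (R1, R2)))) =
        finrank F (LinearMap.ker ((LinearMap.range (C - R1 ∘ₗ A)).mkQ ∘ₗ R2)) := by
    intro R1 R2 hi
    have hi' := (injective_iff_map_eq_zero _).1 hi
    have hkey : ∀ (x : X) (v : V), A x + B v = 0 → C x + e (R1, R2) v = 0 →
        (C - R1 ∘ₗ A) x + R2 (P v) = 0 := by
      intro x v h1 h2
      have h3 : B v = -A x := by
        rw [eq_neg_iff_add_eq_zero, add_comm]
        exact h1
      rw [he, h3, map_neg] at h2
      simp only [LinearMap.sub_apply, LinearMap.comp_apply]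
      rw [← h2]
      abel
    let ψ : LinearMap.ker (Ph A B C (e (R1, R2))) →ₗ[F]
        LinearMap.ker ((LinearMap.range (C - R1 ∘ₗ A)).mkQ ∘ₗ R2) :=
      (P ∘ₗ (LinearMap.snd F X V) ∘ₗ (Submodule.subtype _)).codRestrict _ (fun p => by
        obtain ⟨h1, h2⟩ := mem_Ph.1 p.2
        have h3 := hkey _ _ h1 h2
        rw [LinearMap.mem_ker]
        show (LinearMap.range (C - R1 ∘ₗ A)).mkQ (R2 (P p.1.2)) = 0
        rw [Submodule.mkQ_apply, Submodule.Quotient.mk_eq_zero]
        refine ⟨-p.1.1, ?_⟩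
        rw [map_neg]
        exact (eq_neg_of_add_eq_zero_right h3).symm)
    have hψ : ∀ p, ((ψ p : K) : V) = (P p.1.2 : V) := fun p => rfl
    refine LinearEquiv.finrank_eq (LinearEquiv.ofBijective ψ ⟨?_, ?_⟩)
    · rw [injective_iff_map_eq_zero]
      rintro ⟨⟨x, v⟩, hp⟩ h0
      obtain ⟨h1, h2⟩ := mem_Ph.1 hp
      have h3 := hkey _ _ h1 h2
      have h4 : P v = 0 := Subtype.ext_iff.1 h0
      rw [h4, map_zero, add_zero] at h3
      have h5 : x = 0 := hi' _ h3
      have h6 : B v = 0 := by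
        simp only at h1
        rw [h5, map_zero, zero_add] at h1
        exact h1
      have h7 := hP v
      rw [h4, h6, map_zero, sub_zero] at h7
      refine Subtype.ext (Prod.ext h5 ?_)
      exact h7.symm
    · rintro ⟨k, hk⟩
      have h1 : R2 k ∈ LinearMap.range (C - R1 ∘ₗ A) := by
        have h2 := LinearMap.mem_ker.1 hk
        rw [LinearMap.comp_apply, Submodule.mkQ_apply, Submodule.Quotient.mk_eq_zero] at h2
        exact h2
      obtain ⟨x, hx⟩ := h1
      have hBk : B (k : V) = 0 := LinearMap.mem_ker.1 k.2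
      have h2 : B ((k : V) + s (A x)) = A x := by
        rw [map_add, hBk, hs', zero_add]
      have h3 : P ((k : V) + s (A x)) = k := Subtype.ext (by
        rw [hP, h2]
        abel)
      refine ⟨⟨(-x, (k : V) + s (A x)), mem_Ph.2 ⟨?_, ?_⟩⟩, ?_⟩
      · show A (-x) + B ((k : V) + s (A x)) = 0
        rw [h2, map_neg, neg_add_cancel]
      · show C (-x) + e (R1, R2) ((k : V) + s (A x)) = 0
        rw [he, h2, h3, ← hx]
        simp only [LinearMap.sub_apply, LinearMap.comp_apply, map_neg]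
        abel
      · exact Subtype.ext h3
  -- the two parts
  have := Fintype.ofFinite (Y →ₗ[F] W)
  have e1 := fr_prod (fun (R1 : Y →ₗ[F] W) (R2 : K →ₗ[F] W) =>
    finrank F (LinearMap.ker (Ph A B C (e (R1, R2)))) = r)
  have e2 : (fun p : (Y →ₗ[F] W) × (K →ₗ[F] W) =>
      finrank F (LinearMap.ker (Ph A B C (e (p.1, p.2)))) = r) =
      fun p => finrank F (LinearMap.ker (Ph A B C (e p))) = r := rfl
  rw [e2] at e1
  rw [e1, ← hm]
  have h2 : ∀ R1 : Y →ₗ[F] W, Injective (C - R1 ∘ₗ A) → fr (fun R2 : K →ₗ[F] W =>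
      finrank F (LinearMap.ker (Ph A B C (e (R1, R2)))) = r) = qq m r := by
    intro R1 hi
    set R := LinearMap.range (C - R1 ∘ₗ A) with hR
    have hQ : finrank F (W ⧸ R) = m := by
      have h1 := Submodule.finrank_quotient_add_finrank R
      have h2 : finrank F R = finrank F X := LinearMap.finrank_range_of_inj hi
      omega
    haveI : Finite (W ⧸ R) := Finite.of_surjective _ R.mkQ_surjective
    let π : (K →ₗ[F] W) →+ (K →ₗ[F] W ⧸ R) :=
      { toFun := fun g => R.mkQ ∘ₗ g
        map_zero' := by ext; simp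
        map_add' := fun g h => by ext; simp }
    have hπ : Surjective π := by
      obtain ⟨s, hs⟩ := R.mkQ.exists_rightInverse_of_surjective
        (LinearMap.range_eq_top.2 R.mkQ_surjective)
      intro g
      refine ⟨s ∘ₗ g, ?_⟩
      show R.mkQ ∘ₗ (s ∘ₗ g) = g
      rw [← LinearMap.comp_assoc, hs, LinearMap.id_comp]
    rw [← fr_ker (K := K) (Q := W ⧸ R) (r := r) hK hQ, ← fr_comp π hπ]
    congr 1
    funext R2
    rw [hker R1 R2 hi]
    rfl
  have h3 := fr_pert A C hC
  set δ : ℝ := 3 ^ finrank F X / 3 ^ finrank F W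
  set N : ℝ := (Nat.card (Y →ₗ[F] W) : ℝ) with hN
  have hN0 : 0 < N := by
    rw [hN]
    exact_mod_cast Nat.card_pos
  have hNf : N = ∑ _R1 : Y →ₗ[F] W, (1 : ℝ) := by
    rw [Finset.sum_const, nsmul_eq_mul, mul_one, Finset.card_univ, ← Nat.card_eq_fintype_card]
  have h4 : |∑ R1 : Y →ₗ[F] W, fr (fun R2 : K →ₗ[F] W =>
      finrank F (LinearMap.ker (Ph A B C (e (R1, R2)))) = r) - N * qq m r| ≤ δ * N := by
    rw [hNf, Finset.sum_mul, ← Finset.sum_sub_distrib]
    refine (Finset.abs_sum_le_sum_abs _ _).trans ?_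
    have h5 : ∀ R1 : Y →ₗ[F] W, |fr (fun R2 : K →ₗ[F] W =>
        finrank F (LinearMap.ker (Ph A B C (e (R1, R2)))) = r) - 1 * qq m r| ≤
        if ¬ Injective (C - R1 ∘ₗ A) then 1 else 0 := by
      intro R1
      by_cases hi : ¬ Injective (C - R1 ∘ₗ A)
      · rw [if_pos hi]
        have q0 : 0 ≤ qq m r := by
          unfold qq
          split_ifs
          · have := pm_pos m
            have := pm_pos (m - r)
            have := pm_pos r
            positivity
          · exact le_rfl
        have q1 : qq m r ≤ 1 := by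
          have h6 := fr_ker (K := Fin m → F) (Q := Fin m → F) (m := m) (r := r)
            (by rw [finrank_fintype_fun_eq_card, Fintype.card_fin])
            (by rw [finrank_fintype_fun_eq_card, Fintype.card_fin])
          rw [← h6]
          exact fr_le_one _
        have f0 := fr_nonneg (fun R2 : K →ₗ[F] W =>
          finrank F (LinearMap.ker (Ph A B C (e (R1, R2)))) = r)
        have f1 := fr_le_one (fun R2 : K →ₗ[F] W =>
          finrank F (LinearMap.ker (Ph A B C (e (R1, R2)))) = r)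
        rw [one_mul, abs_le]
        constructor <;> linarith
      · rw [if_neg hi]
        rw [not_not] at hi
        rw [h2 R1 hi, one_mul, sub_self, abs_zero]
    refine (Finset.sum_le_sum fun R1 _ => h5 R1).trans ?_
    rw [← Finset.sum_filter, Finset.sum_const, nsmul_eq_mul, mul_one]
    unfold fr at h3
    rw [div_le_iff₀ (by exact_mod_cast Nat.card_pos)] at h3
    rw [← hNf]
    refine le_trans (le_of_eq ?_) h3
    rw [Nat.card_eq_fintype_card (α := {g : Y →ₗ[F] W // ¬ Injective (C - g ∘ₗ A)}),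
      Fintype.card_subtype]
  have e3 : (∑ R1 : Y →ₗ[F] W, fr (fun R2 : K →ₗ[F] W =>
      finrank F (LinearMap.ker (Ph A B C (e (R1, R2)))) = r)) / N - qq m r =
      (∑ R1 : Y →ₗ[F] W, fr (fun R2 : K →ₗ[F] W =>
      finrank F (LinearMap.ker (Ph A B C (e (R1, R2)))) = r) - N * qq m r) / N := by
    rw [sub_div, mul_div_cancel_left₀ _ hN0.ne']
  rw [e3, abs_div, abs_of_pos hN0, div_le_iff₀ hN0]
  exact h4

end lin

/-! ### the system -/

section main

open Finset

variable {U J : Type} [Fintype U] [Fintype J]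

/-- the solutions of the block system -/
def Sl (U1 : Finset U) (J1 : Finset J) (A : U → U → F) (B : U → J → F) (C : J → U → F)
    (R : J → J → F) (p : (U → F) × (J → F)) : Prop :=
  (∀ u ∈ U1, ∑ v, (p.1 v - p.1 u) * A u v + ∑ l, (p.2 l - p.1 u) * B u l = 0) ∧
    ∀ k ∈ J1, ∑ u, (p.1 u - p.2 k) * C k u + ∑ l, (p.2 l - p.2 k) * R k l = 0

/-- their number -/
noncomputable def nG (U1 : Finset U) (J1 : Finset J) (A : U → U → F) (B : U → J → F)
    (C : J → U → F) (R : J → J → F) : ℕ := Nat.card {p // Sl U1 J1 A B C R p}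

lemma nG_eq (ks : J) (U1 : Finset U) (J1 : Finset J) (A : U → U → F) (B : U → J → F)
    (C : J → U → F) (α : prs J1 → F) : nG U1 J1 A B C (ext α) =
      3 ^ (finrank F (LinearMap.ker (Ph (mA U1 A B) (mB ks U1 B) (mC J1 C) (eR ks J1 C α))) + 1) := by
  set Φ := Ph (mA U1 A B) (mB ks U1 B) (mC J1 C) (eR ks J1 C α) with hΦ
  have h1 : nG U1 J1 A B C (ext α) = Nat.card (F × LinearMap.ker Φ) := by
    unfold nG
    have h3 : ∀ (d : J → F) (l : J), dt ks (fun l : {l : J // l ≠ ks} => d l - d ks) l =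
        d l - d ks := by
      intro d l
      by_cases h : l = ks
      · rw [h, dt_ks, sub_self]
      · rw [dt_of ks _ h]
    refine Nat.card_congr ?_
    exact {
      toFun := fun p => (p.1.2 ks, ⟨(fun u => p.1.1 u - p.1.2 ks, fun l => p.1.2 l - p.1.2 ks), by
        obtain ⟨⟨c, d⟩, h1, h2⟩ := p
        refine mem_Ph.2 ⟨?_, ?_⟩
        · funext u
          rw [row1]
          have h6 := h1 u u.2
          simp only [h3, sub_sub_sub_cancel_right]
          exact h6
        · funext k
          rw [row2]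
          have h6 := h2 k k.2
          simp only [h3, sub_sub_sub_cancel_right]
          exact h6⟩)
      invFun := fun q => ⟨(fun u => q.2.1.1 u + q.1, fun l => dt ks q.2.1.2 l + q.1), by
        obtain ⟨t, ⟨⟨x, d⟩, hq⟩⟩ := q
        obtain ⟨h1, h2⟩ := mem_Ph.1 hq
        refine ⟨fun u hu => ?_, fun k hk => ?_⟩
        · have h4 := congrFun h1 ⟨u, hu⟩
          rw [row1] at h4
          simp only [add_sub_add_right_eq_sub]
          exact h4
        · have h4 := congrFun h2 ⟨k, hk⟩
          rw [row2] at h4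
          simp only [add_sub_add_right_eq_sub]
          exact h4⟩
      left_inv := fun p => by
        obtain ⟨⟨c, d⟩, h1, h2⟩ := p
        refine Subtype.ext (Prod.ext ?_ ?_)
        · funext u
          show c u - d ks + d ks = c u
          ring
        · funext l
          show dt ks (fun l : {l : J // l ≠ ks} => d l - d ks) l + d ks = d l
          rw [h3]
          ring
      right_inv := fun q => by
        obtain ⟨t, ⟨⟨x, d⟩, hq⟩⟩ := q
        refine Prod.ext ?_ (Subtype.ext (Prod.ext ?_ ?_))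
        · show dt ks d ks + t = t
          rw [dt_ks, zero_add]
        · funext u
          show x u + t - (dt ks d ks + t) = x u
          rw [dt_ks]
          ring
        · funext l
          show dt ks d l + t - (dt ks d ks + t) = d l
          rw [dt_ks, dt_of ks d l.2]
          ring }
  rw [h1, Nat.card_prod, card_mod (LinearMap.ker Φ), Nat.card_zmod, pow_succ, mul_comm]

/-- the law of the number of solutions -/
theorem t_LA (h3 : S_C3) (r : ℕ) (U J : Type) [Fintype U] [Fintype J] (U1 : Finset U)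
    (J1 : Finset J) (ks : J) (hcard : Fintype.card U + Fintype.card J = U1.card + J1.card + 1)
    (A : U → U → ZMod 3) (B : U → J → ZMod 3) (C : J → U → ZMod 3)
    (hB : ∀ v : U → ZMod 3, (∃ u ∈ U1, v u ≠ 0) → ∃ l, l ≠ ks ∧ ∑ u ∈ U1, v u * B u l ≠ 0)
    (hC : ∀ w : U → ZMod 3, (∃ u, w u ≠ 0) → ∃ k ∈ J1, ∑ u, w u * C k u ≠ 0) :
    |((univ.filter fun α : prs J1 → ZMod 3 => nG U1 J1 A B C (ext α) = 3 ^ (r + 1)).card : ℝ) /
      3 ^ (prs J1).card - ur r| ≤ 25 * 3 ^ r * (3 ^ Fintype.card U / 3 ^ J1.card) := by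
  have hU : 1 ≤ Fintype.card J := Fintype.card_pos_iff.2 ⟨ks⟩
  have e1 : finrank F (U → F) = Fintype.card U := finrank_fintype_fun_eq_card F
  have e2 : finrank F ({l : J // l ≠ ks} → F) = Fintype.card J - 1 := by
    rw [finrank_fintype_fun_eq_card, card_ne]
  have e3 : finrank F (U1 → F) = U1.card := by
    rw [finrank_fintype_fun_eq_card, Fintype.card_coe]
  have e4 : finrank F (J1 → F) = J1.card := by
    rw [finrank_fintype_fun_eq_card, Fintype.card_coe]
  have key := fr_block (mA U1 A B) (mB ks U1 B) (mC J1 C) (mB_surj ks U1 B hB) (mC_inj J1 C hC)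
    (by rw [e1, e2, e3, e4]; omega) r
  have hle : Fintype.card U ≤ J1.card := by
    rw [← e1, ← e4]
    exact LinearMap.finrank_le_finrank_of_injective (mC_inj J1 C hC)
  have h5 : ((univ.filter fun α : prs J1 → ZMod 3 => nG U1 J1 A B C (ext α) = 3 ^ (r + 1)).card
      : ℝ) / 3 ^ (prs J1).card = fr (fun R : ({l : J // l ≠ ks} → F) →ₗ[F] (J1 → F) =>
        finrank F (LinearMap.ker (Ph (mA U1 A B) (mB ks U1 B) (mC J1 C) R)) = r) := by
    rw [← fr_equiv (eR ks J1 C)]
    unfold fr
    have h6 : Nat.card (prs J1 → F) = 3 ^ (prs J1).card := by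
      rw [Nat.card_fun, Nat.card_eq_fintype_card, Nat.card_eq_fintype_card, ZMod.card,
        Fintype.card_coe]
    rw [h6, Nat.card_eq_fintype_card, Fintype.card_subtype]
    push_cast
    congr 3
    refine Finset.filter_congr fun α _ => ?_
    rw [nG_eq ks, Nat.pow_right_inj (by norm_num)]
    omega
  rw [h5]
  rw [e1, e4] at key
  have h7 := qq_lim h3 (J1.card - Fintype.card U) r
  have h8 : (3 : ℝ) ^ r / 3 ^ (J1.card - Fintype.card U) =
      3 ^ r * (3 ^ Fintype.card U / 3 ^ J1.card) := by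
    rw [← mul_div_assoc, ← pow_add, div_eq_div_iff (by positivity) (by positivity), ← pow_add,
      ← pow_add]
    congr 1
    omega
  rw [h8] at h7
  have h9 : (3 : ℝ) ^ Fintype.card U / 3 ^ J1.card ≤
      3 ^ r * (3 ^ Fintype.card U / 3 ^ J1.card) := by
    refine le_mul_of_one_le_left (by positivity) ?_
    exact one_le_pow₀ (by norm_num)
  rw [abs_le] at key h7 ⊢
  constructor <;> nlinarith [key.1, key.2, h7.1, h7.2]

end main

end Pool.Agent.H462.N9.Law
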