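import Pool.Graph.R_seed8.Y703.CX.Stm
import Pool.Agent.H462.N9.Law.LA

/-!
# The law of the coranks for `D = 3 m` over `ℚ`: statements

`m` runs over the products of different primes `≡ 1` modulo `3`.
-/

set_option autoImplicit false
set_option linter.unusedVariables false

open scoped Classical

namespace Pool.Agent.H462.N9.Law

open Finset
open Pool.Agent.Y699.E (ez)
open Pool.Agent.Y703.CX (lam jj XX eL zz kk sm la HB prs LamP S_EQ S_C3)

/-- the class -/
def Cl (S : Finset ℕ) : Prop := ∀ p ∈ S, p.Prime ∧ p % 3 = 1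

/-- the sets of the class with product at most `X` -/
noncomputable def SS (X : ℕ) : Finset (Finset ℕ) :=
  (range (X + 1)).powerset.filter fun S => Cl S ∧ ∏ p ∈ S, p ≤ X

/-- the number of the solutions of the system of a set, with the additional node for `3` -/
noncomputable def nQ (S : Finset ℕ) : ℕ :=
  Nat.card {v : Option S → ZMod 3 // ∀ p : S, lam p 3 * (v none - v (some p)) +
    ∑ q : S, lam p q * (v (some q) - v (some p)) = 0}

/-- the sets whose solution space has dimension `r + 1` -/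
def Gr (r : ℕ) (S : Finset ℕ) : Prop := nQ S = 3 ^ (r + 1)

/-- the labels of the large primes with respect to the small ones are not degenerate -/
def Nd (S₀ S₁ : Finset ℕ) : Prop :=
  (∀ v : ℕ → ZMod 3, (∃ u ∈ S₀, v u ≠ 0) →
    2 ≤ (S₁.filter fun p => ∑ u ∈ S₀, v u * lam u p ≠ 0).card) ∧
  ∀ (c : ZMod 3) (w : ℕ → ZMod 3), (c ≠ 0 ∨ ∃ u ∈ S₀, w u ≠ 0) →
    ∃ p ∈ S₁, c * lam p 3 + ∑ u ∈ S₀, w u * lam p u ≠ 0

/-- the regular sets -/
noncomputable def RR (X z H K V : ℕ) : Finset (Finset ℕ) :=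
  (SS X).filter fun S => Set.InjOn (jj H) (la z S : Set ℕ) ∧ S.card ≤ K ∧
    (∏ p ∈ sm z S, p) * ∏ p ∈ la z S, XX H (jj H p) ≤ X ∧
    (sm z S).card + V < (la z S).card

end Pool.Agent.H462.N9.Law
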