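import Pool.Agent.H462.N9.Law.Hal
import Pool.Agent.H462.N9.Law.Stm
import Pool.Graph.R_seed8.Y37.CX.Bad

/-!
# Families closed under subsets
-/

set_option autoImplicit false
set_option linter.unusedVariables false

open scoped Classical

namespace Pool.Agent.H462.N9.Law

open Finset
open Pool.Agent.Y692.QS (Ei)
open Pool.Agent.Y715.T.Rec (cs)
open Pool.Agent.Y715.T.RecG (Pq)
open Pool.Agent.Y699.E (ez PS nrm lg xab sum_le_inj ez_zero ez_add one_le_lg lg_mono)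
open Pool.Agent.Y703.CX (lam pp jj XX eL zz kk sm la LamP S_SIE)
open Pool.Agent.Y37.CX (Pm Pm_nonneg prod_pos_of prod_sub_le sub_range UU sum_UU mem_UU AA Pf Qf Sf
  dtP dtQ PQ_ne mem_Sf xt AA_congr xab_val)
open Pool.Agent.H462.N9.Chr

/-- the exceptional primes -/
def Exc (χ : Ei → ℂ) (p : ℕ) : Prop := ¬ (χ (pp p) = 1 ∧ χ (star (pp p)) = 1)

/-- the family of the possible large parts -/
noncomputable def fam (χ : Ei → ℂ) (Y : ℕ) : Finset (Finset ℕ) :=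
  (range (Y + 1)).powerset.filter fun T => (∀ p ∈ T, p.Prime ∧ p % 3 = 1) ∧
    (T.filter fun p => Exc χ p).card ≤ 1 ∧ ∏ p ∈ T, p ≤ Y

/-- the logarithmic sum over the family -/
lemma fam_sum (χ : Ei → ℂ) (Y : ℕ) :
    ∑ T ∈ fam χ Y, (1 : ℝ) / ((∏ p ∈ T, p : ℕ) : ℝ) ≤
      (1 + Pm Y) * ∑ S ∈ HX χ Y, (1 : ℝ) / ((∏ p ∈ S, p : ℕ) : ℝ) := by
  have e : (1 + Pm Y) * ∑ S ∈ HX χ Y, (1 : ℝ) / ((∏ p ∈ S, p : ℕ) : ℝ) =
      ∑ x ∈ UU Y ×ˢ HX χ Y, (1 : ℝ) / ((∏ p ∈ x.1, p : ℕ) : ℝ) *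
        (1 / ((∏ p ∈ x.2, p : ℕ) : ℝ)) := by
    rw [sum_product]
    simp_rw [← mul_sum]
    rw [← sum_mul, sum_UU]
  rw [e]
  refine sum_le_inj (fun T => (T.filter (fun p => Exc χ p), T.filter (fun p => ¬ Exc χ p)))
    ?_ ?_ ?_ ?_
  · intro T hT
    rw [fam, mem_filter, mem_powerset] at hT
    obtain ⟨h1, h2, h4, h5⟩ := hT
    have hpr : ∀ p ∈ T, p.Prime := fun p hp => (h2 p hp).1
    have hle : ∀ p ∈ T, p ≤ Y := fun p hp => by
      have := mem_range.1 (h1 hp); omega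
    rw [mem_product]
    refine ⟨mem_UU h4 fun p hp => ?_, ?_⟩
    · exact ⟨hpr p (mem_filter.1 hp).1, hle p (mem_filter.1 hp).1⟩
    · rw [HX, mem_filter, mem_powerset]
      refine ⟨(filter_subset _ _).trans h1, fun p hp => ?_,
        (prod_sub_le (filter_subset _ _) hpr).trans h5⟩
      obtain ⟨k1, k3⟩ := mem_filter.1 hp
      unfold Exc at k3
      rw [not_not] at k3
      exact ⟨hpr p k1, (h2 p k1).2, k3.1, k3.2⟩
  · intro S hS T hT h
    simp only [Prod.mk.injEq] at h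
    obtain ⟨h2, h3⟩ := h
    have key : ∀ S : Finset ℕ, ∀ p, p ∈ S ↔
        p ∈ S.filter (fun p => Exc χ p) ∨ p ∈ S.filter (fun p => ¬ Exc χ p) := by
      intro S p
      simp only [mem_filter]
      tauto
    ext p
    rw [key S, key T, h2, h3]
  · intro T hT
    apply le_of_eq
    have e1 : ∏ p ∈ T, p = (∏ p ∈ T.filter (fun p => Exc χ p), p) *
        ∏ p ∈ T.filter (fun p => ¬ Exc χ p), p :=
      (prod_filter_mul_prod_filter_not T (fun p => Exc χ p) _).symm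
    simp only
    rw [e1]
    push_cast
    rw [one_div_mul_one_div]
  · intro x _
    positivity

/-- the size of the family -/
lemma fam_card {C₁ : ℝ} (h11 : 1 ≤ C₁)
    (hSIE : ∀ (Y : ℕ) (L : Finset (Finset ℕ)), 1 ≤ Y →
      (∀ S ∈ L, (∀ p ∈ S, p.Prime) ∧ ∏ p ∈ S, p ≤ Y) → (∀ S ∈ L, ∀ T, T ⊆ S → T ∈ L) →
      (L.card : ℝ) * Real.log Y ≤ C₁ * Y * ∑ S ∈ L, (1 : ℝ) / ((∏ p ∈ S, p : ℕ) : ℝ))
    (hL : LamP) {c : ZMod 3} {A B : Ei} (hA : PS A) (hB : PS B) (h1 : c ≠ 0 ∨ A ≠ B)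
    {Y : ℕ} (hY : 2 ≤ Y) :
    ((fam (yn c A B) Y).card : ℝ) * Real.log Y ≤ C₁ * Y * ((1 + Pm Y) *
      (864 * (lg (9 * (nrm A * nrm B))) ^ (1 / 6 : ℝ) * (Real.log Y) ^ (1 / 3 : ℝ))) := by
  have h2 := hSIE Y (fam (yn c A B) Y) (by omega) (by
    intro S hS
    rw [fam, mem_filter] at hS
    exact ⟨fun p hp => (hS.2.1 p hp).1, hS.2.2.2⟩) (by
    intro S hS T hTS
    rw [fam, mem_filter, mem_powerset] at hS ⊢
    obtain ⟨h1, h2, h4, h5⟩ := hS
    refine ⟨hTS.trans h1, fun p hp => h2 p (hTS hp), ?_, ?_⟩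
    · exact (card_le_card (filter_subset_filter _ hTS)).trans h4
    · exact (prod_sub_le hTS fun p hp => (h2 p hp).1).trans h5)
  refine h2.trans (mul_le_mul_of_nonneg_left ((fam_sum _ Y).trans ?_) (by positivity))
  exact mul_le_mul_of_nonneg_left (hal_yn hL hA hB h1 hY) (by have := Pm_nonneg Y; linarith)

/-! ### degenerate labels -/

/-- the character of an index -/
noncomputable def chr (b : Bool) (c : ZMod 3) (S : Finset ℕ) (v : ℕ → ZMod 3) : Ei → ℂ :=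
  yn c (AA (Sf b S) (Pf b v)) (AA (Sf b S) (Qf b v))

lemma Sf_eq {b : Bool} {S : Finset ℕ} (hS : ∀ u ∈ S, u.Prime ∧ u % 3 = 1) : Sf b S = S := by
  unfold Sf
  split_ifs
  · exact filter_true_of_mem fun u hu => (hS u hu).2
  · rfl

lemma ne3 {S : Finset ℕ} (hS : ∀ u ∈ S, u.Prime ∧ u % 3 = 1) : ∀ u ∈ S, u.Prime ∧ u ≠ 3 :=
  fun u hu => ⟨(hS u hu).1, fun h => by have := (hS u hu).2; omega⟩

/-- the values of the characters -/
lemma chr_val (hL : LamP) {S : Finset ℕ} (hS : ∀ u ∈ S, u.Prime ∧ u % 3 = 1) (b : Bool)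
    (c : ZMod 3) (v : ℕ → ZMod 3) {p : ℕ} (hp : p.Prime) (hp1 : p % 3 = 1) (hpS : p ∉ S) :
    chr b c S v (pp p) = ez ((∑ u ∈ S, v u * (if b then lam u p else lam p u)) + c * lam p 3) ∧
    chr b c S v (star (pp p)) =
      ez ((∑ u ∈ S, v u * (if b then lam u p else -lam p u)) - c * lam p 3) := by
  obtain ⟨e1, e2⟩ := xab_val hL (ne3 hS) b v hp hp1 hpS
  rw [Sf_eq hS] at e1 e2
  obtain ⟨k1, k2⟩ := hL.ex p hp hp1
  have k3 := Pool.Agent.Y350.CT.pq_star k1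
  have h3 : lam p 3 = nn (pp p) := by
    unfold lam
    have : ((3 : ℕ) : Ei) = 3 := by norm_num
    rw [this]
    exact Pool.Agent.H462.N9.Cri.cs3 k1
  unfold chr yn
  rw [Sf_eq hS, e1, e2, ch3_prim c k1.three, ch3_prim c k3.three, ← ez_add, ← ez_add, h3,
    Pool.Agent.H462.N9.Cri.nn_star k1]
  refine ⟨rfl, ?_⟩
  congr 1
  ring

lemma notNd (hL : LamP) {S T : Finset ℕ} (hS : ∀ u ∈ S, u.Prime ∧ u % 3 = 1)
    (hT : ∀ p ∈ T, p.Prime ∧ p % 3 = 1) (hd : Disjoint S T) (h : ¬ Nd S T) :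
    ∃ (b : Bool) (c : ZMod 3) (v : ℕ → ZMod 3), (c ≠ 0 ∨ ∃ u ∈ S, v u ≠ 0) ∧
      (T.filter fun p => Exc (chr b c S v) p).card ≤ 1 := by
  unfold Nd at h
  rw [not_and_or] at h
  rcases h with h | h
  · push Not at h
    obtain ⟨v, hv, h2⟩ := h
    refine ⟨true, 0, v, Or.inr hv, ?_⟩
    refine (card_le_card ?_).trans (Nat.lt_succ_iff.1 h2)
    intro p hp
    rw [mem_filter] at hp ⊢
    refine ⟨hp.1, fun h0 => hp.2 ?_⟩
    have hpS : p ∉ S := fun h' => disjoint_left.1 hd h' hp.1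
    obtain ⟨e1, e2⟩ := chr_val hL hS true 0 v (hT p hp.1).1 (hT p hp.1).2 hpS
    simp only [if_true, zero_mul, add_zero, sub_zero] at e1 e2
    rw [h0, ez_zero] at e1 e2
    exact ⟨e1, e2⟩
  · push Not at h
    obtain ⟨c, v, hv, h2⟩ := h
    refine ⟨false, c, v, hv, ?_⟩
    have : (T.filter fun p => Exc (chr false c S v) p) = ∅ := by
      rw [filter_eq_empty_iff]
      intro p hp hE
      apply hE
      have hpS : p ∉ S := fun h' => disjoint_left.1 hd h' hp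
      obtain ⟨e1, e2⟩ := chr_val hL hS false c v (hT p hp).1 (hT p hp).2 hpS
      have h0 := h2 p hp
      simp only [Bool.false_eq_true, if_false] at e1 e2
      rw [show (∑ u ∈ S, v u * lam p u) + c * lam p 3 = 0 by rw [← h0]; ring, ez_zero] at e1
      have h4 : (∑ u ∈ S, v u * -lam p u) - c * lam p 3 = 0 := by
        simp only [mul_neg, sum_neg_distrib]
        linear_combination -h0
      rw [h4, ez_zero] at e2
      exact ⟨e1, e2⟩
    rw [this]
    simp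

lemma chr_xt (b : Bool) (c : ZMod 3) {S : Finset ℕ} (hS : ∀ u ∈ S, u.Prime ∧ u % 3 = 1)
    (v : ℕ → ZMod 3) : chr b c S (xt S fun u => v u) = chr b c S v := by
  have key : ∀ u ∈ S, xt S (fun u => v u) u = v u := by
    intro u hu
    unfold xt
    rw [dif_pos hu]
  unfold chr
  rw [Sf_eq hS]
  have e1 : AA S (Pf b (xt S fun u => v u)) = AA S (Pf b v) := by
    apply AA_congr
    intro u hu
    unfold Pf
    rw [key u hu]
  have e2 : AA S (Qf b (xt S fun u => v u)) = AA S (Qf b v) := by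
    apply AA_congr
    intro u hu
    unfold Qf
    rw [key u hu]
  rw [e1, e2]

/-- the number of sets with given small part -/
lemma fiber (hL : LamP) (X z : ℕ) {S₀ : Finset ℕ} (hS₀ : ∀ u ∈ S₀, u.Prime ∧ u % 3 = 1) :
    ((SS X).filter fun S => ¬ Nd (sm z S) (la z S) ∧ sm z S = S₀).card ≤
      ∑ t : (Bool × ZMod 3) × (S₀ → ZMod 3), if t.1.2 ≠ 0 ∨ ∃ u ∈ S₀, xt S₀ t.2 u ≠ 0 then
        (fam (chr t.1.1 t.1.2 S₀ (xt S₀ t.2)) (X / ∏ p ∈ S₀, p)).card else 0 := by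
  rw [← sum_filter]
  refine le_trans ?_ Finset.card_biUnion_le
  apply Finset.card_le_card_of_injOn (fun S => la z S)
  · intro S hS
    rw [mem_coe, mem_filter, SS, mem_filter, mem_powerset] at hS
    obtain ⟨⟨h1, h2, h4⟩, h5, h6⟩ := hS
    have hla : ∀ p ∈ la z S, p.Prime ∧ p % 3 = 1 := fun p hp => h2 p (mem_filter.1 hp).1
    have hsm : ∀ p ∈ sm z S, p.Prime ∧ p % 3 = 1 := fun p hp => h2 p (mem_filter.1 hp).1
    have hd : Disjoint (sm z S) (la z S) := disjoint_filter_filter_not _ _ _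
    obtain ⟨b, c, v, hu, h7⟩ := notNd hL hsm hla hd h5
    rw [h6] at hu h7
    rw [mem_coe, mem_biUnion]
    refine ⟨((b, c), fun u => v u), ?_, ?_⟩
    · rw [mem_filter]
      refine ⟨mem_univ _, ?_⟩
      rcases hu with hu | ⟨u, hu, hv⟩
      · exact Or.inl hu
      · refine Or.inr ⟨u, hu, ?_⟩
        simp only
        unfold xt
        rw [dif_pos hu]
        exact hv
    · simp only
      rw [chr_xt b c hS₀, fam, mem_filter, mem_powerset]
      have hN : 0 < ∏ p ∈ S₀, p := prod_pos_of fun p hp => (hS₀ p hp).1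
      have hprod : ∏ p ∈ la z S, p ≤ X / ∏ p ∈ S₀, p := by
        rw [Nat.le_div_iff_mul_le hN, mul_comm, ← h6]
        have : (∏ p ∈ sm z S, p) * ∏ p ∈ la z S, p = ∏ p ∈ S, p :=
          prod_filter_mul_prod_filter_not _ _ _
        rw [this]
        exact h4
      exact ⟨sub_range (fun p hp => (hla p hp).1) hprod, hla, h7, hprod⟩
  · intro S hS T hT h
    rw [mem_coe, mem_filter] at hS hT
    simp only at h
    have key : ∀ S : Finset ℕ, sm z S ∪ la z S = S := fun S => filter_union_filter_not_eq _ _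
    rw [← key S, ← key T, hS.2.2, hT.2.2, h]

end Pool.Agent.H462.N9.Law
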