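import Pool.Agent.H462.CTU.Law.Hal
import Pool.Agent.H462.N9.Cri
import Pool.Graph.R_seed8.Y495.CX.HAL

/-!
# Mean values of multiplicative functions: characters with the cubic symbol of three
-/

set_option autoImplicit false

open Finset

namespace Pool.Agent.H462.N9.Law

open Pool.Agent.Y692.QS (Ei w nr nr_mul nr_nonneg)
open Pool.Agent.Y715.T.Rec (cs)
open Pool.Agent.Y715.T.RecG (Pq)
open Pool.Agent.Y699.E
open Pool.Agent.Y703.CX (pp LamP)
open Pool.Agent.H462.N9.Chr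
open Pool.Agent.H462.CTU.Law (chs_logX xab_cases)
open scoped ComplexConjugate

lemma C3_of {a : Ei} (h : ¬ (3 : ℤ) ∣ nr a) : C3 a := by
  obtain ⟨u, hu⟩ := (Pool.Agent.Y274.CT.assoc_ns h).symm
  obtain ⟨t, ht⟩ := Pool.Agent.Y692.QS.ns_one h
  exact ⟨u, t, u.isUnit, by rw [← hu]; linear_combination (u : Ei) * ht⟩

/-- the character `ζ^{c nn(a)}` -/
noncomputable def ch3 (c : ZMod 3) (a : Ei) : ℂ := if (3 : ℤ) ∣ nr a then 0 else ez (c * nn a)

lemma ch3_mul (c : ZMod 3) (a b : Ei) : ch3 c (a * b) = ch3 c a * ch3 c b := by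
  unfold ch3
  rw [nr_mul]
  have h3 : (3 : ℤ) ∣ nr a * nr b ↔ (3 : ℤ) ∣ nr a ∨ (3 : ℤ) ∣ nr b := Int.prime_three.dvd_mul
  by_cases h1 : (3 : ℤ) ∣ nr a
  · rw [if_pos (h3.2 (Or.inl h1)), if_pos h1, zero_mul]
  by_cases h2 : (3 : ℤ) ∣ nr b
  · rw [if_pos (h3.2 (Or.inr h2)), if_pos h2, mul_zero]
  rw [if_neg (fun h => (h3.1 h).elim h1 h2), if_neg h1, if_neg h2,
    nn_mul (C3_of h1) (C3_of h2), mul_add, ez_add]

lemma ch3_one (c : ZMod 3) : ch3 c 1 = 1 := by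
  unfold ch3
  have h1 : nr (1 : Ei) = 1 := by decide
  rw [if_neg (by rw [h1]; norm_num), nn_unit isUnit_one, mul_zero, ez_zero]

lemma ch3_cases (c : ZMod 3) (a : Ei) : ch3 c a = 0 ∨ ∃ d : ZMod 3, ch3 c a = ez d := by
  unfold ch3
  split_ifs
  · exact Or.inl rfl
  · exact Or.inr ⟨_, rfl⟩

lemma nr_per {a b : Ei} (h : (9 : Ei) ∣ a - b) : (9 : ℤ) ∣ nr a - nr b := by
  obtain ⟨x, hx⟩ := h
  obtain ⟨p, q⟩ := x
  obtain ⟨s, t⟩ := b
  have e : a = (⟨s + 9 * p, t + 9 * q⟩ : Ei) := by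
    have h0 : a = ⟨s, t⟩ + 9 * ⟨p, q⟩ := by rw [← hx]; ring
    have h1 : (9 : Ei) = ⟨9, 0⟩ := by decide
    rw [h0, h1]
    ext
    · simp
    · simp
  rw [e]
  show (9 : ℤ) ∣ ((s + 9 * p) ^ 2 - (s + 9 * p) * (t + 9 * q) + (t + 9 * q) ^ 2) -
    (s ^ 2 - s * t + t ^ 2)
  exact ⟨2 * s * p + 9 * p ^ 2 - s * q - p * t - 9 * p * q + 2 * t * q + 9 * q ^ 2, by ring⟩

lemma ch3_per (c : ZMod 3) {a b : Ei} (h : (9 : Ei) ∣ a - b) : ch3 c a = ch3 c b := by
  have h9 := nr_per h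
  unfold ch3
  have h3 : (3 : ℤ) ∣ nr a ↔ (3 : ℤ) ∣ nr b := by omega
  by_cases h1 : (3 : ℤ) ∣ nr b
  · rw [if_pos (h3.2 h1), if_pos h1]
  · rw [if_neg (fun h => h1 (h3.1 h)), if_neg h1,
      nn_per (C3_of (fun h => h1 (h3.1 h))) h]

lemma not_three_nr {π : Ei} (h : (3 : Ei) ∣ π - 1) : ¬ (3 : ℤ) ∣ nr π := by
  intro h3
  obtain ⟨u1, u2, h1, -⟩ := Pool.Agent.Y703.CT.ex_q h
  rw [h1, Pool.Agent.Y703.CT.nr_form] at h3
  omega

lemma ch3_prim (c : ZMod 3) {π : Ei} (h : (3 : Ei) ∣ π - 1) : ch3 c π = ez (c * nn π) := by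
  unfold ch3
  rw [if_neg (not_three_nr h)]

/-- the character attached to two elements and a residue -/
noncomputable def yn (c : ZMod 3) (A B a : Ei) : ℂ := xab A B a * ch3 c a

lemma yn_ch (c : ZMod 3) {A B : Ei} (hA : PS A) (hB : PS B) : CH (yn c A B) := by
  refine ⟨?_, ?_, ?_⟩
  · unfold yn
    rw [(xab_ch hA hB).one, ch3_one, one_mul]
  · intro a b
    unfold yn
    rw [(xab_ch hA hB).mul, ch3_mul]
    ring
  · intro a
    unfold yn
    rcases xab_cases A B a with h | ⟨d, h⟩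
    · left; rw [h, zero_mul]
    · rcases ch3_cases c a with h' | ⟨d', h'⟩
      · left; rw [h', mul_zero]
      · right
        rw [h, h', ← ez_add]
        exact ez_val _

open Classical in
/-- the character on primary elements -/
noncomputable def FFn (c : ZMod 3) (x x' a : Ei) : ℂ := if prm a then yn c x x' a else 0

lemma FFn_norm (c : ZMod 3) {x x' : Ei} (hx : PS x) (hx' : PS x') (a : Ei) :
    ‖FFn c x x' a‖ ≤ 1 := by
  unfold FFn
  split_ifs
  · exact (yn_ch c hx hx').norm_le a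
  · simp

/-- the sum over an ellipse -/
lemma FFn_sum {c : ZMod 3} (hc : c ≠ 0) {x x' : Ei} (hx : PS x) (hx' : PS x') (V : ℕ) :
    ‖∑ a ∈ ZB V, FFn c x x' a‖ ≤ 243 * (nrm x * nrm x') * (3 * Real.sqrt V + 1) := by
  classical
  have h9 : (9 : Ei) ≠ 0 := by decide
  have hq : 9 * (x * x') ≠ 0 := mul_ne_zero h9 (mul_ne_zero hx.ne hx'.ne)
  obtain ⟨m, hm⟩ : ∃ m : Ei, m = x * x' := ⟨_, rfl⟩
  have hm3 : (3 : Ei) ∣ m - 1 := by
    have h1 : (3 : Ei) ∣ x - 1 := hx.prm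
    have h2 : (3 : Ei) ∣ x' - 1 := hx'.prm
    have e : m - 1 = (x - 1) * x' + (x' - 1) := by rw [hm]; ring
    rw [e]
    exact dvd_add (h1.mul_right _) h2
  obtain ⟨d, hd⟩ : ∃ d : Ei, d = 1 + 3 * (m * w) := ⟨_, rfl⟩
  have hd1 : prm d := ⟨m * w, by rw [hd]; ring⟩
  have hdx : x ∣ d - 1 := ⟨3 * x' * w, by rw [hd, hm]; ring⟩
  have hdx' : x' ∣ d - 1 := ⟨3 * x * w, by rw [hd, hm]; ring⟩
  have hnn : nn d = 1 := by
    have h1 := nn_up isUnit_one (m * w)
    rw [one_mul, ← hd] at h1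
    rw [h1]
    obtain ⟨s, hs⟩ := hm3
    have e : m * w = w + 3 * (s * w) := by linear_combination w * hs
    rw [e, im_add, im_three, add_zero]
    rfl
  have hcd : ch3 c d = ez c := by
    rw [ch3_prim c hd1, hnn, mul_one]
  have hz : ez c ≠ 1 := by
    intro h1
    have h2 := ez_root hc
    rw [h1] at h2
    norm_num at h2
  have hxd : xab x x' d = 1 := by
    unfold xab
    have e1 : jac x d = jac x 1 := jac_per hx.ne hdx
    have e2 : jac x' d = jac x' 1 := jac_per hx'.ne hdx'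
    rw [e1, e2, jac_one_right hx.ne, jac_one_right hx'.ne, map_one, one_mul]
  have hcop : IsCoprime d (9 * (x * x')) := by
    have c1 : IsCoprime d 3 := ⟨1, -(m * w), by rw [hd]; ring⟩
    have c9 : IsCoprime d 9 := by
      have e : (9 : Ei) = 3 * 3 := by decide
      rw [e]
      exact c1.mul_right c1
    have c2 : IsCoprime d (x * x') := ⟨1, -(3 * w), by rw [hd, hm]; ring⟩
    exact c9.mul_right c2
  have h3 := csum hq (f := FFn c x x') ?_ (FFn_norm c hx hx') hcop hz ?_ V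
  · refine h3.trans (le_of_eq ?_)
    have e9 : nrm (9 : Ei) = 81 := by decide
    rw [nrm_mul, nrm_mul, e9]
    push_cast
    ring
  · intro a b hab
    unfold FFn
    have e9 : (9 : Ei) ∣ a - b := (dvd_mul_right _ _).trans hab
    have e39 : (3 : Ei) ∣ 9 := ⟨3, by decide⟩
    have e1 : (3 : Ei) ∣ a - b := dvd_trans e39 e9
    have e2 : x ∣ a - b := ((dvd_mul_right _ _).trans (dvd_mul_left _ _)).trans hab
    have e3 : x' ∣ a - b := ((dvd_mul_left _ _).trans (dvd_mul_left _ _)).trans hab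
    have e4 : prm a ↔ prm b := by
      unfold prm
      constructor
      · intro h
        have := dvd_sub h e1
        have e : a - 1 - (a - b) = b - 1 := by ring
        rwa [e] at this
      · intro h
        have := dvd_add h e1
        have e : b - 1 + (a - b) = a - 1 := by ring
        rwa [e] at this
    unfold yn xab
    rw [jac_per hx.ne e2, jac_per hx'.ne e3, ch3_per c e9]
    by_cases h : prm a
    · rw [if_pos h, if_pos (e4.1 h)]
    · rw [if_neg h, if_neg (fun hh => h (e4.2 hh))]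
  · intro a
    unfold FFn
    have e4 : prm (d * a) ↔ prm a :=
      ⟨fun h => prm_cancel hd1 h, fun h => prm_mul hd1 h⟩
    by_cases h : prm a
    · rw [if_pos h, if_pos (e4.2 h), (yn_ch c hx hx').mul]
      congr 1
      unfold yn
      rw [hxd, hcd, one_mul]
    · rw [if_neg h, if_neg (fun hh => h (e4.1 hh)), mul_zero]

/-- character sums -/
lemma chs_le_n {c : ZMod 3} (hc : c ≠ 0) {A B : Ei} (hA : PS A) (hB : PS B) {v : ℕ}
    (hv : 1 ≤ v) :
    ‖∑ d ∈ PB v, yn c A B d‖ ≤ 108 * (9 * (nrm A * nrm B) : ℕ) * Real.sqrt v := by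
  classical
  have h := FFn_sum hc hA hB v
  have e : ∑ a ∈ ZB v, FFn c A B a = ∑ d ∈ PB v, yn c A B d := by
    unfold PB
    rw [sum_filter]
    refine sum_congr rfl fun a _ => ?_
    unfold FFn
    rfl
  rw [e] at h
  have h2 : (1 : ℝ) ≤ Real.sqrt v := Real.one_le_sqrt.2 (by exact_mod_cast hv)
  have h3 : (0 : ℝ) ≤ (nrm A : ℝ) * nrm B := by positivity
  refine h.trans ?_
  push_cast
  nlinarith

open Classical in
/-- the sets of primes `p ≡ 1` with all characters of the two factors equal to one -/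
noncomputable def HX (χ : Ei → ℂ) (T : ℕ) : Finset (Finset ℕ) :=
  (range (T + 1)).powerset.filter fun S => (∀ p ∈ S, p.Prime ∧ p % 3 = 1 ∧
    χ (pp p) = 1 ∧ χ (star (pp p)) = 1) ∧ ∏ p ∈ S, p ≤ T

open Pool.Agent.Y495.CX (Op pr2 pr2_ps pr2_inj nrm_pr2 st2) in
/-- the square of the logarithmic sum -/
lemma HX_sq (L : LamP) {χ : Ei → ℂ} (hχ : CH χ) (T : ℕ) :
    (∑ S ∈ HX χ T, (1 : ℝ) / ((∏ p ∈ S, p : ℕ) : ℝ)) ^ 2 ≤
      ∑ n ∈ SB (T ^ 2), mf (fun π => (1 + 2 * (χ π).re) / 3) n / nrm n := by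
  classical
  have hOp : ∀ S ∈ HX χ T, Op S ∧ (∀ p ∈ S, χ (pp p) = 1 ∧ χ (star (pp p)) = 1) ∧
      ∏ p ∈ S, p ≤ T := by
    intro S hS
    unfold HX at hS
    rw [mem_filter] at hS
    exact ⟨fun p hp => ⟨(hS.2.1 p hp).1, (hS.2.1 p hp).2.1⟩, fun p hp => (hS.2.1 p hp).2.2, hS.2.2⟩
  have e1 : (∑ S ∈ HX χ T, (1 : ℝ) / ((∏ p ∈ S, p : ℕ) : ℝ)) ^ 2 =
      ∑ x ∈ HX χ T ×ˢ HX χ T,
        (1 : ℝ) / (((∏ p ∈ x.1, p : ℕ) : ℝ) * ((∏ p ∈ x.2, p : ℕ) : ℝ)) := by
    rw [sq, sum_mul_sum, ← sum_product']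
    refine sum_congr rfl fun x _ => ?_
    rw [div_mul_div_comm, one_mul]
  rw [e1]
  refine sum_le_inj pr2 ?_ ?_ ?_ ?_
  · intro x hx
    rw [mem_product] at hx
    obtain ⟨a1, a2, a3⟩ := hOp _ hx.1
    obtain ⟨b1, b2, b3⟩ := hOp _ hx.2
    rw [mem_SB, nrm_pr2 L a1 b1]
    exact ⟨by rw [sq]; exact Nat.mul_le_mul a3 b3, (pr2_ps L a1 b1).1⟩
  · intro x hx y hy h
    rw [mem_product] at hx hy
    exact pr2_inj L (hOp _ hx.1).1 (hOp _ hx.2).1 (hOp _ hy.1).1 (hOp _ hy.2).1 h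
  · intro x hx
    rw [mem_product] at hx
    obtain ⟨a1, a2, a3⟩ := hOp _ hx.1
    obtain ⟨b1, b2, b3⟩ := hOp _ hx.2
    have e2 : mf (fun π => (1 + 2 * (χ π).re) / 3) (pr2 x) = 1 := by
      unfold mf
      rw [(pr2_ps L a1 b1).2]
      refine prod_eq_one fun π hπ => ?_
      have h3 : χ π = 1 := by
        unfold st2 at hπ
        rw [mem_union, mem_image, mem_image] at hπ
        rcases hπ with ⟨p, hp, rfl⟩ | ⟨p, hp, rfl⟩
        · exact (a2 p hp).1
        · exact (b2 p hp).2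
      rw [h3]
      norm_num
    rw [e2, nrm_pr2 L a1 b1]
    push_cast
    exact le_rfl
  · intro n _
    refine div_nonneg (mf_nonneg (fun π => ?_) n) (Nat.cast_nonneg _)
    have := re_nonneg (hχ.val π)
    linarith

/-- the logarithmic density for a nontrivial character -/
theorem hal (L : LamP) {χ : Ei → ℂ} (hχ : CH χ) {N : ℕ}
    (hlog : ∀ Y : ℕ, ‖∑ d ∈ PB Y, χ d / nrm d‖ ≤ 264 * lg N) {T : ℕ} (hT : 2 ≤ T) :
    ∑ S ∈ HX χ T, (1 : ℝ) / ((∏ p ∈ S, p : ℕ) : ℝ) ≤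
      864 * (lg N) ^ (1 / 6 : ℝ) * (Real.log T) ^ (1 / 3 : ℝ) := by
  classical
  have hl := one_le_lg N
  have lT : 0 < Real.log T := Real.log_pos (by exact_mod_cast (by omega : 1 < T))
  have h2 := HX_sq L hχ T
  have hg0 : ∀ π, 0 ≤ (1 + 2 * (χ π).re) / 3 := fun π => by
    have := re_nonneg (hχ.val π)
    linarith
  have hg1 : ∀ π, (1 + 2 * (χ π).re) / 3 ≤ 1 := fun π => by
    have := re_le (hχ.val π)
    linarith
  have h3 := hall3 hg0 hg1 (T ^ 2)
  have h4 : ∑ n ∈ PB ((T ^ 2) ^ 3), mf (fun π => 3 * ((1 + 2 * (χ π).re) / 3)) n / nrm n ≤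
      (32 * lg ((T ^ 2) ^ 3)) ^ 2 * (264 * lg N) := by
    have e1 : (fun π : Ei => 3 * ((1 + 2 * (χ π).re) / 3)) =
        fun π => 1 + 2 * (χ π).re := by
      funext π; ring
    rw [e1]
    exact conv_bound hχ hlog _
  have h5 : lg ((T ^ 2) ^ 3) ≤ 27 * Real.log T := by
    have a1 := lg_cube (T ^ 2)
    have a2 : lg (T ^ 2) ≤ lg (T ^ 3) := lg_mono (Nat.pow_le_pow_right (by omega) (by norm_num))
    have a3 := lg_cube T
    have a4 := lg_le_log hT
    linarith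
  have h7 := lg_pos ((T ^ 2) ^ 3)
  generalize hH : ∑ S ∈ HX χ T, (1 : ℝ) / ((∏ p ∈ S, p : ℕ) : ℝ) = H at h2 ⊢
  have H0 : 0 ≤ H := by
    rw [← hH]
    exact sum_nonneg fun S _ => by positivity
  generalize lg N = M at h4 hl ⊢
  have N0 : 0 < M := by linarith
  have h6 : H ^ 6 ≤ (864 * Real.log T) ^ 2 * (264 * M) := by
    have e2 : H ^ 6 = (H ^ 2) ^ 3 := by ring
    rw [e2]
    refine (pow_le_pow_left₀ (by positivity) h2 3).trans (h3.trans (h4.trans ?_))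
    apply mul_le_mul_of_nonneg_right _ (by positivity)
    apply pow_le_pow_left₀ (by positivity)
    linarith
  apply le_of_pow_le_pow_left₀ (n := 6) (by norm_num) (by positivity)
  refine h6.trans ?_
  have e1 : (864 * M ^ (1 / 6 : ℝ) * Real.log T ^ (1 / 3 : ℝ)) ^ 6 =
      864 ^ 6 * M * (Real.log T) ^ 2 := by
    rw [mul_pow, mul_pow, ← Real.rpow_natCast (M ^ (1 / 6 : ℝ)), ← Real.rpow_mul N0.le,
      ← Real.rpow_natCast (Real.log T ^ (1 / 3 : ℝ)), ← Real.rpow_mul lT.le]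
    norm_num
  rw [e1]
  have h8 : 0 ≤ M * (Real.log T) ^ 2 := by positivity
  calc (864 * Real.log T) ^ 2 * (264 * M) = (864 ^ 2 * 264) * (M * (Real.log T) ^ 2) := by ring
    _ ≤ 864 ^ 6 * (M * (Real.log T) ^ 2) := by
        apply mul_le_mul_of_nonneg_right _ h8
        norm_num
    _ = 864 ^ 6 * M * (Real.log T) ^ 2 := by ring

/-- the bound for the characters of two elements and a residue -/
theorem hal_yn (L : LamP) {c : ZMod 3} {A B : Ei} (hA : PS A) (hB : PS B)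
    (h1 : c ≠ 0 ∨ A ≠ B) {T : ℕ} (hT : 2 ≤ T) :
    ∑ S ∈ HX (yn c A B) T, (1 : ℝ) / ((∏ p ∈ S, p : ℕ) : ℝ) ≤
      864 * (lg (9 * (nrm A * nrm B))) ^ (1 / 6 : ℝ) * (Real.log T) ^ (1 / 3 : ℝ) := by
  classical
  have hAB : 1 ≤ nrm A * nrm B := Nat.mul_pos (nrm_pos' hA.ne) (nrm_pos' hB.ne)
  by_cases hc : c = 0
  · have hAB' : A ≠ B := h1.resolve_left (fun h => h hc)
    have e1 : ∀ π, Pq π → yn c A B π = xab A B π := by
      intro π hπ
      unfold yn
      rw [ch3_prim c hπ.three, hc, zero_mul, ez_zero, mul_one]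
    have e2 : HX (yn c A B) T = HX (xab A B) T := by
      unfold HX
      refine filter_congr fun S _ => ?_
      refine and_congr_left fun _ => forall_congr' fun p => imp_congr_right fun _ => ?_
      refine and_congr_right fun hp => and_congr_right fun hp1 => ?_
      have h2 := (L.ex p hp hp1).1
      rw [e1 _ h2, e1 _ (Pool.Agent.Y350.CT.pq_star h2)]
    rw [e2]
    have h3 : lg (nrm A * nrm B) ≤ lg (9 * (nrm A * nrm B)) := lg_mono (by omega)
    refine hal L (xab_ch hA hB) (fun Y => (chs_log hA hB hAB' Y).trans ?_) hT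
    linarith
  · exact hal L (yn_ch c hA hB) (fun Y => chs_logX (yn_ch c hA hB) (by omega)
      (fun v hv => chs_le_n hc hA hB hv) Y) hT

end Pool.Agent.H462.N9.Law
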