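import Pool.Agent.H462.N9.Law.Tr
import Pool.Graph.R_seed8.Y37.CX.Sym

/-!
# The kernel over `ℚ(ω)` and the system over `ℚ`
-/

set_option autoImplicit false
set_option linter.unusedVariables false

open scoped Classical

namespace Pool.Agent.H462.N9.Law

open Finset
open Pool.Agent.Y692.QS (Ei)
open Pool.Agent.Y715.T.Rec (cs)
open Pool.Agent.Y715.T.RecG (Pq)
open Pool.Agent.Y703.CX (lam pp LamP)
open Pool.Agent.Y703.CT (Dt pD)
open Pool.Agent.Y37.CX (pp_facts sep)
open Pool.Agent.H462.N9.Sel (K9 KerC)
open Pool.Agent.H462.N9.Chr (nn)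

/-- the primary primes which divide the elements of `S` -/
noncomputable def pj (S : Finset ℕ) (j : S × Bool) : Ei :=
  if j.2 then pp j.1 else star (pp j.1)

variable {S : Finset ℕ}

lemma pj_t (p : S) : pj S (p, true) = pp p := if_pos rfl
lemma pj_f (p : S) : pj S (p, false) = star (pp p) := if_neg (by simp)

lemma pj_dt (hL : LamP) (hS : Cl S) : Dt (pj S) (fun _ => (1 : ZMod 3)) := by
  have hdv : ∀ j : S × Bool, Pq (pj S j) ∧ pj S j ∣ ((j.1 : ℕ) : Ei) := by
    rintro ⟨p, b⟩
    obtain ⟨h1, h2⟩ := hS p p.2
    obtain ⟨k1, k2, k3, k4, -⟩ := pp_facts hL h1 h2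
    cases b with
    | true => rw [pj_t]; exact ⟨k1, k3⟩
    | false => rw [pj_f]; exact ⟨k2, k4⟩
  refine ⟨fun j => (hdv j).1, fun i j hij hd => ?_, fun j => one_ne_zero⟩
  by_cases hp : i.1 = j.1
  · obtain ⟨p, b⟩ := i
    obtain ⟨p', b'⟩ := j
    simp only at hp
    subst hp
    obtain ⟨h1, h2⟩ := hS p p.2
    obtain ⟨k1, k2, k3, k4, k5⟩ := pp_facts hL h1 h2
    have hcop := Pool.Agent.Y699.E.pq_cop k1 k2 k5
    cases b <;> cases b'
    · exact hij rfl
    · rw [pj_t, pj_f] at hd
      exact k1.prime.not_isUnit (hcop.isUnit_of_dvd' (dvd_refl _) hd)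
    · rw [pj_t, pj_f] at hd
      exact k2.prime.not_isUnit (hcop.isUnit_of_dvd' hd (dvd_refl _))
    · exact hij rfl
  · have hne : (j.1 : ℕ) ≠ (i.1 : ℕ) := fun h => hp (Subtype.ext h.symm)
    exact sep (hdv j).1 (hS j.1 j.1.2).1 (hS i.1 i.1.2).1 hne (hdv j).2
      (hd.trans (hdv i).2)

lemma pj_pD (hL : LamP) (hS : Cl S) : pD (pj S) (fun _ => (1 : ZMod 3)) =
    ((∏ p ∈ S, p : ℕ) : Ei) := by
  unfold pD
  have e1 : ∀ j : S × Bool, pj S j ^ (1 : ZMod 3).val = pj S j := fun j => by
    have : (1 : ZMod 3).val = 1 := rfl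
    rw [this, pow_one]
  simp_rw [e1]
  rw [Fintype.prod_prod_type]
  have e2 : ∀ p : S, ∏ b : Bool, pj S (p, b) = ((p : ℕ) : Ei) := by
    intro p
    obtain ⟨h1, h2⟩ := hS p p.2
    rw [Fintype.prod_bool, pj_t, pj_f, Pool.Agent.Y692.QS.mul_star, (hL.ex p h1 h2).2]
    simp
  simp_rw [e2]
  push_cast
  exact Finset.prod_coe_sort S fun p => ((p : ℕ) : Ei)

/-- the symbol of a prime and its conjugate -/
lemma cs_self_star {π : Ei} (h : Pq π) (h' : Pq (star π)) (hne : π ≠ star π) :
    cs π (star π) = 0 ∧ cs (star π) π = 0 := by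
  have hcop := Pool.Agent.Y699.E.pq_cop h h' hne
  have n1 : ¬ π ∣ star π := fun hd =>
    h.prime.not_isUnit (hcop.isUnit_of_dvd' (dvd_refl _) hd)
  have n2 : ¬ star π ∣ π := fun hd =>
    h'.prime.not_isUnit (hcop.isUnit_of_dvd' hd (dvd_refl _))
  have h1 : cs π (star π) = cs (star π) π := Pool.Agent.Y350.CT.rec _ _ h' h n1
  have h2 := Pool.Agent.Y37.CX.cs_star h n1
  rw [star_star] at h2
  rw [h2] at h1
  have key : ∀ x : ZMod 3, x = -x → x = 0 := by decide
  have h3 := key _ h1
  exact ⟨h3, by rw [h2, h3, neg_zero]⟩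

/-- the matrix -/
noncomputable def Mt (S : Finset ℕ) : Matrix S S (ZMod 3) := fun p q =>
  if q = p then -(lam p 3 + ∑ r ∈ univ.erase p, lam p r) else lam p q

lemma Mt_mulVec (x : S → ZMod 3) (p : S) : (Mt S).mulVec x p =
    -(lam p 3 * x p) + ∑ q : S, lam p q * (x q - x p) := by
  unfold Matrix.mulVec dotProduct Mt
  rw [← Finset.add_sum_erase univ _ (mem_univ p)]
  beta_reduce
  rw [if_pos rfl, ← Finset.add_sum_erase univ (fun q : S => lam p q * (x q - x p)) (mem_univ p), sub_self,
    mul_zero, zero_add]
  have e : ∑ q ∈ univ.erase p, (if q = p then -(lam p 3 + ∑ r ∈ univ.erase p, lam p r)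
      else lam p q) * x q = ∑ q ∈ univ.erase p, lam p q * x q :=
    sum_congr rfl fun q hq => by rw [if_neg (ne_of_mem_erase hq)]
  rw [e]
  simp_rw [mul_sub]
  rw [sum_sub_distrib, ← sum_mul]
  ring

lemma Mt_transpose (x : S → ZMod 3) (p : S) : (Mt S).transpose.mulVec x p =
    -(lam p 3 * x p) + ∑ q ∈ univ.erase p, (lam q p * x q - lam p q * x p) := by
  unfold Matrix.mulVec dotProduct Matrix.transpose Mt
  simp only [Matrix.of_apply]
  rw [← Finset.add_sum_erase univ _ (mem_univ p), if_pos rfl]
  have e : ∑ q ∈ univ.erase p, (if p = q then -(lam q 3 + ∑ r ∈ univ.erase q, lam q r)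
      else lam q p) * x q = ∑ q ∈ univ.erase p, lam q p * x q :=
    sum_congr rfl fun q hq => by rw [if_neg (ne_of_mem_erase hq).symm]
  rw [e, sum_sub_distrib, ← sum_mul]
  ring

/-- a matrix and its transpose have kernels of the same size -/
lemma ker_transpose (M : Matrix S S (ZMod 3)) :
    Nat.card {x : S → ZMod 3 // M.transpose.mulVec x = 0} =
      Nat.card {x : S → ZMod 3 // M.mulVec x = 0} := by
  have h1 : Module.finrank (ZMod 3) (LinearMap.ker M.transpose.mulVecLin) =
      Module.finrank (ZMod 3) (LinearMap.ker M.mulVecLin) := by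
    have a1 := LinearMap.finrank_range_add_finrank_ker M.transpose.mulVecLin
    have a2 := LinearMap.finrank_range_add_finrank_ker M.mulVecLin
    have a3 : Module.finrank (ZMod 3) (LinearMap.range M.transpose.mulVecLin) =
        Module.finrank (ZMod 3) (LinearMap.range M.mulVecLin) := M.rank_transpose
    omega
  have h2 : Nat.card (LinearMap.ker M.transpose.mulVecLin) =
      Nat.card (LinearMap.ker M.mulVecLin) := by
    have a1 := Module.natCard_eq_pow_finrank (K := ZMod 3) (V := LinearMap.ker M.transpose.mulVecLin)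
    have a2 := Module.natCard_eq_pow_finrank (K := ZMod 3) (V := LinearMap.ker M.mulVecLin)
    rw [a1, a2, h1]
  exact h2

/-- the system with the additional node -/
lemma nQ_mat : nQ S = 3 * Nat.card {x : S → ZMod 3 // (Mt S).mulVec x = 0} := by
  have e0 : 3 * Nat.card {x : S → ZMod 3 // (Mt S).mulVec x = 0} =
      Nat.card (ZMod 3 × {x : S → ZMod 3 // (Mt S).mulVec x = 0}) := by
    rw [Nat.card_prod, Nat.card_zmod]
  rw [e0]
  unfold nQ
  refine Nat.card_congr ?_
  exact {
    toFun := fun v => (v.1 none, ⟨fun p => v.1 (some p) - v.1 none, by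
      funext p
      rw [Mt_mulVec, Pi.zero_apply]
      refine Eq.trans ?_ (v.2 p)
      congr 1
      · ring
      · exact sum_congr rfl fun q _ => by ring⟩)
    invFun := fun x => ⟨fun o => o.elim x.1 (fun p => x.2.1 p + x.1), fun p => by
      have h := congrFun x.2.2 p
      rw [Mt_mulVec, Pi.zero_apply] at h
      refine Eq.trans ?_ h
      simp only [Option.elim]
      congr 1
      · ring
      · exact sum_congr rfl fun q _ => by ring⟩
    left_inv := fun v => by
      apply Subtype.ext
      funext o
      cases o with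
      | none => rfl
      | some p => simp
    right_inv := fun x => by
      refine Prod.ext rfl (Subtype.ext ?_)
      funext p
      simp }

/-- the equations over `ℚ(ω)` -/
lemma eqn_t (v : Option (S × Bool) → ZMod 3) (p : S) :
    nn (pj S (p, true)) * (v none - v (some (p, true))) +
      ∑ i : S × Bool, (1 : ZMod 3) * cs (pj S (p, true)) (pj S i) * (v (some i) - v (some (p, true))) =
    nn (pp p) * (v none - v (some (p, true))) + ∑ q : S,
      (cs (pp p) (pp q) * (v (some (q, true)) - v (some (p, true))) +
        cs (pp p) (star (pp q)) * (v (some (q, false)) - v (some (p, true)))) := by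
  rw [Fintype.sum_prod_type, pj_t]
  congr 1
  refine sum_congr rfl fun q _ => ?_
  rw [Fintype.sum_bool, pj_t, pj_f, one_mul, one_mul]

lemma eqn_f (v : Option (S × Bool) → ZMod 3) (p : S) :
    nn (pj S (p, false)) * (v none - v (some (p, false))) +
      ∑ i : S × Bool, (1 : ZMod 3) * cs (pj S (p, false)) (pj S i) *
        (v (some i) - v (some (p, false))) =
    nn (star (pp p)) * (v none - v (some (p, false))) + ∑ q : S,
      (cs (star (pp p)) (pp q) * (v (some (q, true)) - v (some (p, false))) +
        cs (star (pp p)) (star (pp q)) * (v (some (q, false)) - v (some (p, false)))) := by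
  rw [Fintype.sum_prod_type, pj_f]
  congr 1
  refine sum_congr rfl fun q _ => ?_
  rw [Fintype.sum_bool, pj_t, pj_f, one_mul, one_mul]

/-- the difference and the sum of the two equations -/
lemma eqn_pm (hL : LamP) (hS : Cl S) (v : Option (S × Bool) → ZMod 3) (p : S) :
    (nn (pp p) * (v none - v (some (p, true))) + ∑ q : S,
      (cs (pp p) (pp q) * (v (some (q, true)) - v (some (p, true))) +
        cs (pp p) (star (pp q)) * (v (some (q, false)) - v (some (p, true))))) -
    (nn (star (pp p)) * (v none - v (some (p, false))) + ∑ q : S,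
      (cs (star (pp p)) (pp q) * (v (some (q, true)) - v (some (p, false))) +
        cs (star (pp p)) (star (pp q)) * (v (some (q, false)) - v (some (p, false))))) =
    lam p 3 * (2 * v none - (v (some (p, true)) + v (some (p, false)))) +
      ∑ q : S, lam p q * ((v (some (q, true)) + v (some (q, false))) -
        (v (some (p, true)) + v (some (p, false)))) ∧
    (nn (pp p) * (v none - v (some (p, true))) + ∑ q : S,
      (cs (pp p) (pp q) * (v (some (q, true)) - v (some (p, true))) +
        cs (pp p) (star (pp q)) * (v (some (q, false)) - v (some (p, true))))) +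
    (nn (star (pp p)) * (v none - v (some (p, false))) + ∑ q : S,
      (cs (star (pp p)) (pp q) * (v (some (q, true)) - v (some (p, false))) +
        cs (star (pp p)) (star (pp q)) * (v (some (q, false)) - v (some (p, false))))) =
    (Mt S).transpose.mulVec (fun q => v (some (q, true)) - v (some (q, false))) p := by
  obtain ⟨h1, h2⟩ := hS p p.2
  obtain ⟨k1, k2, k3, k4, k5⟩ := pp_facts hL h1 h2
  have h3 : lam p 3 = nn (pp p) := by
    unfold lam
    have : ((3 : ℕ) : Ei) = 3 := by norm_num
    rw [this]
    exact Pool.Agent.H462.N9.Cri.cs3 k1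
  obtain ⟨s1, s2⟩ := cs_self_star k1 k2 k5
  have hsym : ∀ q : S, q ≠ p → lam p q = cs (pp p) (pp q) + cs (pp p) (star (pp q)) ∧
      lam q p = cs (pp p) (pp q) - cs (pp p) (star (pp q)) ∧
      cs (star (pp p)) (pp q) = - cs (pp p) (star (pp q)) ∧
      cs (star (pp p)) (star (pp q)) = - cs (pp p) (pp q) := by
    intro q hq
    obtain ⟨l1, l2⟩ := hS q q.2
    obtain ⟨m1, m2, m3, m4, -⟩ := pp_facts hL l1 l2
    have hne : (p : ℕ) ≠ (q : ℕ) := fun h => hq (Subtype.ext h.symm)
    obtain ⟨r1, r2, r3, -, -⟩ := hL.rec1 p q h1 h2 l1 l2 hne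
    have d1 : ¬ pp p ∣ ((q : ℕ) : Ei) := sep k1 h1 l1 hne k3
    have e1 : ¬ pp p ∣ pp q := fun h => d1 (h.trans m3)
    exact ⟨r1, r2, r3, Pool.Agent.Y37.CX.cs_star k1 e1⟩
  rw [Mt_transpose, h3, Pool.Agent.H462.N9.Cri.nn_star k1]
  constructor
  · rw [← Finset.add_sum_erase univ _ (mem_univ p), ← Finset.add_sum_erase univ
      (fun q : S => cs (star (pp p)) (pp q) * (v (some (q, true)) - v (some (p, false))) +
        cs (star (pp p)) (star (pp q)) * (v (some (q, false)) - v (some (p, false)))) (mem_univ p),
      ← Finset.add_sum_erase univ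
      (fun q : S => lam p q * ((v (some (q, true)) + v (some (q, false))) -
        (v (some (p, true)) + v (some (p, false))))) (mem_univ p), s1, s2]
    have e : ∑ q ∈ univ.erase p, (cs (pp p) (pp q) * (v (some (q, true)) - v (some (p, true))) +
        cs (pp p) (star (pp q)) * (v (some (q, false)) - v (some (p, true)))) -
        ∑ q ∈ univ.erase p, (cs (star (pp p)) (pp q) * (v (some (q, true)) - v (some (p, false))) +
        cs (star (pp p)) (star (pp q)) * (v (some (q, false)) - v (some (p, false)))) =
        ∑ q ∈ univ.erase p, lam p q * ((v (some (q, true)) + v (some (q, false))) -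
        (v (some (p, true)) + v (some (p, false)))) := by
      rw [← sum_sub_distrib]
      refine sum_congr rfl fun q hq => ?_
      obtain ⟨r1, r2, r3, r4⟩ := hsym q (ne_of_mem_erase hq)
      rw [r1, r3, r4]
      ring
    linear_combination e
  · rw [← Finset.add_sum_erase univ _ (mem_univ p), ← Finset.add_sum_erase univ
      (fun q : S => cs (star (pp p)) (pp q) * (v (some (q, true)) - v (some (p, false))) +
        cs (star (pp p)) (star (pp q)) * (v (some (q, false)) - v (some (p, false)))) (mem_univ p),
      s1, s2]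
    have e : ∑ q ∈ univ.erase p, (cs (pp p) (pp q) * (v (some (q, true)) - v (some (p, true))) +
        cs (pp p) (star (pp q)) * (v (some (q, false)) - v (some (p, true)))) +
        ∑ q ∈ univ.erase p, (cs (star (pp p)) (pp q) * (v (some (q, true)) - v (some (p, false))) +
        cs (star (pp p)) (star (pp q)) * (v (some (q, false)) - v (some (p, false)))) =
        ∑ q ∈ univ.erase p, (lam q p * (v (some (q, true)) - v (some (q, false))) -
          lam p q * (v (some (p, true)) - v (some (p, false)))) := by
      rw [← sum_add_distrib]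
      refine sum_congr rfl fun q hq => ?_
      obtain ⟨r1, r2, r3, r4⟩ := hsym q (ne_of_mem_erase hq)
      rw [r1, r2, r3, r4]
      ring
    linear_combination e

/-- the size of the kernel over `ℚ(ω)` -/
theorem K9_card (hL : LamP) (hS : Cl S) :
    (K9 (pj S) (fun _ => (1 : ZMod 3))).ncard * 3 = nQ S * nQ S := by
  have h1 : (K9 (pj S) (fun _ => (1 : ZMod 3))).ncard =
      nQ S * Nat.card {x : S → ZMod 3 // (Mt S).mulVec x = 0} := by
    rw [← ker_transpose]
    unfold nQ
    rw [← Nat.card_prod, ← Nat.card_coe_set_eq]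
    have hK : ∀ v : Option (S × Bool) → ZMod 3, v ∈ K9 (pj S) (fun _ => (1 : ZMod 3)) ↔
        (∀ p : S, lam p 3 * (2 * v none - (v (some (p, true)) + v (some (p, false)))) +
          ∑ q : S, lam p q * ((v (some (q, true)) + v (some (q, false))) -
          (v (some (p, true)) + v (some (p, false)))) = 0) ∧
        (Mt S).transpose.mulVec (fun q => v (some (q, true)) - v (some (q, false))) = 0 := by
      intro v
      constructor
      · intro h
        have ht : ∀ p : S, _ = (0 : ZMod 3) := fun p => (eqn_t v p).symm.trans (h (p, true))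
        have hf : ∀ p : S, _ = (0 : ZMod 3) := fun p => (eqn_f v p).symm.trans (h (p, false))
        refine ⟨fun p => ?_, ?_⟩
        · rw [← (eqn_pm hL hS v p).1, ht p, hf p, sub_zero]
        · funext p
          rw [← (eqn_pm hL hS v p).2, ht p, hf p, add_zero, Pi.zero_apply]
      · rintro ⟨h1, h2⟩ ⟨p, b⟩
        have a1 := (eqn_pm hL hS v p).1
        have a2 := (eqn_pm hL hS v p).2
        rw [h1 p] at a1
        rw [h2, Pi.zero_apply] at a2
        have key : ∀ x y : ZMod 3, x - y = 0 → x + y = 0 → x = 0 ∧ y = 0 := by decide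
        obtain ⟨b1, b2⟩ := key _ _ a1 a2
        cases b with
        | true => exact (eqn_t v p).trans b1
        | false => exact (eqn_f v p).trans b2
    have e4 : ∀ x : ZMod 3, 2 * (2 * x) = x := by decide
    refine Nat.card_congr ?_
    exact {
      toFun := fun v => (⟨fun o => o.elim (2 * v.1 none) fun p =>
          v.1 (some (p, true)) + v.1 (some (p, false)), fun p => ((hK v.1).1 v.2).1 p⟩,
        ⟨fun q => v.1 (some (q, true)) - v.1 (some (q, false)), ((hK v.1).1 v.2).2⟩)
      invFun := fun x => ⟨fun o => o.elim (2 * x.1.1 none) fun j =>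
          if j.2 then 2 * (x.1.1 (some j.1) + x.2.1 j.1) else 2 * (x.1.1 (some j.1) - x.2.1 j.1),
        by
          rw [hK]
          have s1 : ∀ a b : ZMod 3, 2 * (a + b) + 2 * (a - b) = a := by decide
          have s2 : ∀ a b : ZMod 3, 2 * (a + b) - 2 * (a - b) = b := by decide
          constructor
          · intro p
            simp only [Option.elim, if_true, Bool.false_eq_true, if_false, s1, e4]
            exact x.1.2 p
          · simp only [Option.elim, if_true, Bool.false_eq_true, if_false, s2]
            exact x.2.2⟩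
      left_inv := fun v => by
        apply Subtype.ext
        funext o
        have s1 : ∀ a b : ZMod 3, 2 * (a + b + (a - b)) = a := by decide
        have s2 : ∀ a b : ZMod 3, 2 * (a + b - (a - b)) = b := by decide
        match o with
        | none => exact e4 _
        | some (p, true) =>
          simp only [Option.elim, if_true, s1]
        | some (p, false) =>
          simp only [Option.elim, Bool.false_eq_true, if_false, s2]
      right_inv := fun x => by
        have s1 : ∀ a b : ZMod 3, 2 * (a + b) + 2 * (a - b) = a := by decide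
        have s2 : ∀ a b : ZMod 3, 2 * (a + b) - 2 * (a - b) = b := by decide
        refine Prod.ext (Subtype.ext ?_) (Subtype.ext ?_)
        · funext o
          match o with
          | none => exact e4 _
          | some p =>
            simp only [Option.elim, if_true, Bool.false_eq_true, if_false, s1]
        · funext p
          simp only [Option.elim, if_true, Bool.false_eq_true, if_false, s2] }
  rw [h1, mul_assoc, mul_comm (Nat.card _) 3, ← nQ_mat]

end Pool.Agent.H462.N9.Law
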