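import Pool.Agent.H462.N9.Law.Rank
import Pool.Agent.H462.N9.Short
import Pool.Agent.H462.T1.D

/-!
# The theorem for one `m` and the shares
-/

set_option autoImplicit false
set_option linter.unusedVariables false

open scoped Classical

namespace Pool.Agent.H462.N9.Law

open WeierstrassCurve Module Filter
open Pool.Agent.Y703.CT
open Pool.Agent.Y703.CX (c3 S_C3)
open Pool.Agent.H462.N9.Short

lemma Sq.odd {m : ℕ} (h : Sq m) : ¬ 2 ∣ 3 * m := by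
  intro h2
  rcases (Nat.Prime.dvd_mul Nat.prime_two).1 h2 with h3 | h3
  · norm_num at h3
  · have := h.2 2 Nat.prime_two h3
    norm_num at this

/-- a unit above three is not zero -/
lemma f_ne {W : WeierstrassCurve ℤ} {f : ℂ → ℂ} {u : ℂ} (t : ℕ) (ht : t ≠ 0)
    (hΩ : Pool.Agent.Y700.Omega W ≠ 0)
    (h : f 1 = u * (((Pool.Agent.Y700.Omega W : ℝ) : ℂ) * (t : ℂ) / 9)) (hu : ThreeUnit u) :
    f 1 ≠ 0 := by
  rw [h]
  refine mul_ne_zero hu.1 (div_ne_zero (mul_ne_zero ?_ ?_) (by norm_num))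
  · exact_mod_cast hΩ
  · exact_mod_cast ht

/-- the theorem for one `m` -/
theorem one_m {m : ℕ} (hm : Sq m) (h1 : m ≠ 1) :
    (∃ f, IsLab 0 (16 * ((3 * m : ℕ) : ℤ) ^ 2) f) ∧
    ∀ r, (Spl (3 * m)).ncard = 3 ^ (r + 1) →
      Module.Finite ℤ (ES (3 * m)).toAffine.Point ∧
      finrank ℤ (ES (3 * m)).toAffine.Point ≤ 2 * r ∧
      (r = 0 → Finite (ES (3 * m)).toAffine.Point ∧
        (∀ f, IsLab 0 (16 * ((3 * m : ℕ) : ℤ) ^ 2) f → f 1 ≠ 0) ∧
        Q1 0 (16 * ((3 * m : ℕ) : ℤ) ^ 2) ∧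
        {q : ℚ × ℚ | q.1 ^ 3 + q.2 ^ 3 = ((3 * m : ℕ) : ℚ)}.Finite) := by
  have hcls := hm.cls h1
  have hD0 : 3 * m ≠ 0 := by
    have := hm.1.ne_zero
    omega
  have hD1 : 3 * m ≠ 1 := by omega
  obtain ⟨-, f, hf, u, hu, -, hu2, hu3⟩ := Pool.Agent.H462.N9.One.one hcls
  obtain ⟨φ⟩ := eqv hD0
  refine ⟨⟨_, isL_short hm.odd hf⟩, fun r hr => ?_⟩
  obtain ⟨a1, a2⟩ := rk_m hm h1 hr
  refine ⟨Module.Finite.equiv φ.toIntLinearEquiv, ?_, fun hr0 => ?_⟩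
  · rw [← φ.toIntLinearEquiv.finrank_eq]
    exact a2
  · subst hr0
    have hN : NoSplit (3 * m) := (noSplit_iff hD0 hD1).2 (by rw [hr]; rfl)
    obtain ⟨b1, -, -⟩ := hu3 hN
    have hf1 : f 1 ≠ 0 := by
      refine f_ne _ ?_ ?_ hu (hu2.2 hN)
      · obtain ⟨n, π, e, hdt, hDp⟩ := Pool.Agent.Y274.CT.t_exi m hcls.base
        rw [Pool.Agent.H462.N9.Tam.tam9 hcls]
        positivity
      · rw [Pool.Agent.Y333.CT.per (3 * m) (by omega)]
        have hpos : (0 : ℝ) < ((3 * m : ℕ) : ℝ) := by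
          have : 0 < 3 * m := by omega
          exact_mod_cast this
        have h5 := Pool.Agent.Y715.T.Om.Om_pos
        have h6 := Real.rpow_pos_of_pos hpos (1 / 3 : ℝ)
        positivity
    have hfin : {q : ℚ × ℚ | q.1 ^ 3 + q.2 ^ 3 = ((3 * m : ℕ) : ℚ)}.Finite := by
      have hS := fin_short hD0 b1
      refine Set.Finite.of_finite_image (f := fun q : ℚ × ℚ =>
        ((-4 * (q.1 * q.2), 4 * (-2 * q.1 ^ 3 + ((3 * m : ℕ) : ℚ))) : ℚ × ℚ)) (hS.subset ?_) ?_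
      · rintro _ ⟨⟨x, y⟩, hxy, rfl⟩
        have hxy' : x ^ 3 + y ^ 3 = ((3 * m : ℕ) : ℚ) := hxy
        show (4 * (-2 * x ^ 3 + ((3 * m : ℕ) : ℚ))) ^ 2 = (-4 * (x * y)) ^ 3 +
          ((0 : ℤ) : ℚ) * (-4 * (x * y)) + ((16 * ((3 * m : ℕ) : ℤ) ^ 2 : ℤ) : ℚ)
        rw [← hxy']
        push_cast
        have h3 : ((3 : ℚ) * m) = x ^ 3 + y ^ 3 := by rw [hxy']; push_cast; ring
        rw [h3]
        ring
      · rintro ⟨x, y⟩ hxy ⟨x', y'⟩ hxy' h
        simp only [Prod.mk.injEq] at h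
        have e1 : x ^ 3 = x' ^ 3 := by linear_combination (-1 / 8 : ℚ) * h.2
        have e2 : x = x' := (Odd.strictMono_pow (by decide : Odd 3)).injective e1
        have e3 : y ^ 3 = y' ^ 3 := by
          have k1 : x ^ 3 + y ^ 3 = ((3 * m : ℕ) : ℚ) := hxy
          have k2 : x' ^ 3 + y' ^ 3 = ((3 * m : ℕ) : ℚ) := hxy'
          linear_combination k1 - k2 - e1
        exact Prod.ext e2 ((Odd.strictMono_pow (by decide : Odd 3)).injective e3)
    refine ⟨Finite.of_equiv _ φ.toEquiv, fun g hg => ?_, q1_of hD0 hm.odd hf hf1 b1, hfin⟩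
    rw [isLab_unique hg (isL_short hm.odd hf)]
    refine mul_ne_zero hf1 ?_
    rw [show (1 : ℂ) - 2 * 1 = -1 by norm_num, Complex.cpow_neg_one]
    norm_num

/-! ### shares -/

lemma share_of {n d : ℕ → ℕ} {L : ℝ}
    (h : Tendsto (fun X : ℕ => (n X : ℝ) / (d X : ℝ)) atTop (nhds L)) (ε : ℝ)
    (hε : 0 < ε) : ∃ X₀ : ℕ, ∀ X : ℕ, X₀ ≤ X → (L - ε) * (d X : ℝ) ≤ (n X : ℝ) := by
  obtain ⟨X₀, h1⟩ := eventually_atTop.1 ((tendsto_order.1 h).1 (L - ε) (by linarith))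
  refine ⟨X₀, fun X hX => ?_⟩
  have h2 := h1 X hX
  rcases Nat.eq_zero_or_pos (d X) with h0 | h0
  · rw [h0, Nat.cast_zero, mul_zero]
    exact Nat.cast_nonneg _
  · rw [lt_div_iff₀ (by exact_mod_cast h0)] at h2
    exact h2.le

/-- the share of the small coranks -/
theorem law_le (r : ℕ) : Tendsto (fun X : ℕ =>
    (({m ∈ Fa X | ∃ s ≤ r, (Spl (3 * m)).ncard = 3 ^ (s + 1)}.ncard : ℕ) : ℝ) /
      ((Fa X).ncard : ℝ)) atTop (nhds (∑ s ∈ Finset.range (r + 1), ur s)) := by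
  have h := tendsto_finsetSum (Finset.range (r + 1)) fun s _ => law s
  refine h.congr fun X => ?_
  rw [← Finset.sum_div]
  congr 1
  have e : {m ∈ Fa X | ∃ s ≤ r, (Spl (3 * m)).ncard = 3 ^ (s + 1)} =
      ⋃ s ∈ Finset.range (r + 1), {m ∈ Fa X | (Spl (3 * m)).ncard = 3 ^ (s + 1)} := by
    ext D
    simp only [Set.mem_iUnion, Finset.mem_range, exists_prop]
    constructor
    · rintro ⟨h1, s, hs, h3⟩
      exact ⟨s, by omega, h1, h3⟩
    · rintro ⟨s, hs, h1, h3⟩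
      exact ⟨h1, s, by omega, h3⟩
  rw [e, Pool.Agent.H462.T1.ncard_union (fun s => {m ∈ Fa X | (Spl (3 * m)).ncard = 3 ^ (s + 1)})
    (fun s => (Fa_finite X).subset fun D hD => hD.1) ?_]
  · push_cast
    rfl
  · intro s t hst
    rw [Set.disjoint_left]
    rintro D ⟨h1, h2⟩ ⟨-, h5⟩
    rw [h2] at h5
    have := Nat.pow_right_injective (le_refl 2 |>.trans (by norm_num : 2 ≤ 3)) h5
    omega

/-- bounds for the constant -/
theorem c3_lt : c3 < 0.5602 := by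
  have h := c3_le_pm Pool.Agent.Y461.CX.t_C3 8
  refine lt_of_le_of_lt h ?_
  unfold Pool.Agent.Y759.CX.pm
  norm_num [Finset.prod_range_succ]

end Pool.Agent.H462.N9.Law
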