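import Pool.Agent.H462.N9.Law.LA

/-!
# The law of the coranks is a probability
-/

set_option autoImplicit false
set_option linter.unusedSectionVars false

open scoped Classical

namespace Pool.Agent.H462.N9.Law

open Function Module Filter
open Pool.Agent.Y703.CX (c3 S_C3)
open Pool.Agent.Y759.CX

theorem sum_qq (m : ℕ) : ∑ r ∈ Finset.range (m + 1), qq m r = 1 := by
  have hK : finrank F (Fin m → F) = m := by rw [finrank_fintype_fun_eq_card, Fintype.card_fin]
  have h1 : ∀ r, qq m r = fr (fun g : (Fin m → F) →ₗ[F] (Fin m → F) =>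
      finrank F (LinearMap.ker g) = r) := fun r => (fr_ker hK hK).symm
  simp_rw [h1]
  unfold fr
  rw [← Finset.sum_div]
  have h0 : (0 : ℝ) < (Nat.card ((Fin m → F) →ₗ[F] (Fin m → F)) : ℝ) := by
    exact_mod_cast Nat.card_pos
  rw [div_eq_one_iff_eq h0.ne']
  have h2 : Nat.card ((Fin m → F) →ₗ[F] (Fin m → F)) = ∑ r ∈ Finset.range (m + 1),
      Nat.card {g : (Fin m → F) →ₗ[F] (Fin m → F) // finrank F (LinearMap.ker g) = r} := by
    have := Fintype.ofFinite ((Fin m → F) →ₗ[F] (Fin m → F))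
    rw [Nat.card_eq_fintype_card, ← Finset.card_univ,
      Finset.card_eq_sum_card_fiberwise (f := fun g => finrank F (LinearMap.ker g))
        (t := Finset.range (m + 1)) (fun g _ => ?_)]
    · refine Finset.sum_congr rfl fun r _ => ?_
      rw [Nat.card_eq_fintype_card, Fintype.card_subtype]
    · have h3 := Submodule.finrank_le (LinearMap.ker g)
      rw [hK] at h3
      simp only [Finset.coe_range, Set.mem_Iio]
      omega
  rw [h2]
  push_cast
  rfl

lemma qq_le (h : S_C3) (m r : ℕ) : qq m r ≤ 2 * (1 / 3 : ℝ) ^ (r ^ 2) := by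
  have hc0 := h.2.1
  have hc2 := h.2.2.2
  unfold qq
  split_ifs with hr
  · have h1 : pm m ^ 2 / (pm (m - r) * pm r ^ 2) ≤ 2 := by
      have a1 := c3_le_pm h r
      have a2 := pm_pos m
      have a3 := pm_pos r
      have a4 := pm_pos (m - r)
      have mono : ∀ {a b : ℕ}, a ≤ b → pm b ≤ pm a := fun {a b} hab =>
        (antitone_nat_of_succ_le fun n => by
          unfold pm
          rw [Finset.prod_range_succ]
          refine mul_le_of_le_one_right (pm_nonneg n) ?_
          have : 0 ≤ (1 / 3 : ℝ) ^ (n + 1) := by positivity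
          linarith : Antitone pm) hab
      have b1 := mono (Nat.sub_le m r)
      have b2 := mono hr
      rw [div_le_iff₀ (by positivity)]
      have c1 : pm m ^ 2 ≤ pm (m - r) * pm r := by
        rw [sq]
        exact mul_le_mul b1 b2 a2.le a4.le
      have c2 : pm r ≤ 2 * pm r ^ 2 := by nlinarith
      have c3' : pm (m - r) * pm r ≤ pm (m - r) * (2 * pm r ^ 2) :=
        mul_le_mul_of_nonneg_left c2 a4.le
      linarith
    have h2 : (0 : ℝ) ≤ (1 / 3 : ℝ) ^ (r ^ 2) := by positivity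
    calc (1 / 3 : ℝ) ^ (r ^ 2) * (pm m ^ 2 / (pm (m - r) * pm r ^ 2)) ≤
        (1 / 3 : ℝ) ^ (r ^ 2) * 2 := mul_le_mul_of_nonneg_left h1 h2
      _ = _ := by ring
  · positivity

lemma qq_nonneg (m r : ℕ) : 0 ≤ qq m r := by
  unfold qq
  split_ifs with hr
  · have := pm_pos m
    have := pm_pos r
    have := pm_pos (m - r)
    positivity
  · exact le_rfl

lemma geo (R n : ℕ) : ∑ r ∈ Finset.Ico R n, 2 * (1 / 3 : ℝ) ^ (r ^ 2) ≤
    3 * (1 / 3 : ℝ) ^ (R ^ 2) := by
  have h1 : ∀ k, ∑ r ∈ Finset.Ico R (R + k), 2 * (1 / 3 : ℝ) ^ (r ^ 2) ≤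
      3 * (1 / 3 : ℝ) ^ (R ^ 2) * (1 - (1 / 3 : ℝ) ^ k) := by
    intro k
    induction k with
    | zero => simp
    | succ k ih =>
      rw [← add_assoc, Finset.sum_Ico_succ_top (by omega)]
      have h2 : (1 / 3 : ℝ) ^ ((R + k) ^ 2) ≤ (1 / 3 : ℝ) ^ (R ^ 2) * (1 / 3 : ℝ) ^ k := by
        rw [← pow_add]
        refine pow_le_pow_of_le_one (by norm_num) (by norm_num) ?_
        have e1 := Nat.le_mul_self k
        have e2 : (R + k) ^ 2 = R ^ 2 + 2 * (R * k) + k * k := by ring
        have e3 := Nat.zero_le (R * k)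
        omega
      have h3 : (0 : ℝ) < (1 / 3 : ℝ) ^ (R ^ 2) := by positivity
      rw [pow_succ (1 / 3 : ℝ) k]
      nlinarith
  rcases le_total n R with h | h
  · rw [Finset.Ico_eq_empty (by omega), Finset.sum_empty]
    positivity
  · obtain ⟨k, rfl⟩ := Nat.exists_eq_add_of_le h
    refine (h1 k).trans ?_
    have h2 : (0 : ℝ) ≤ 3 * (1 / 3 : ℝ) ^ (R ^ 2) := by positivity
    have h3 : (0 : ℝ) ≤ (1 / 3 : ℝ) ^ k := by positivity
    nlinarith

/-- the partial sums of the law -/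
theorem ur_part (h : S_C3) (R : ℕ) : 1 - 3 * (1 / 3 : ℝ) ^ (R ^ 2) ≤ ∑ r ∈ Finset.range R, ur r ∧
    ∑ r ∈ Finset.range R, ur r ≤ 1 := by
  have key : ∀ m, R ≤ m + 1 → |∑ r ∈ Finset.range R, qq m r - ∑ r ∈ Finset.range R, ur r| ≤
      24 * R * 3 ^ R * (1 / 3 : ℝ) ^ m := by
    intro m hm
    rw [← Finset.sum_sub_distrib]
    refine (Finset.abs_sum_le_sum_abs _ _).trans ?_
    have h1 : ∀ r ∈ Finset.range R, |qq m r - ur r| ≤ 24 * 3 ^ R * (1 / 3 : ℝ) ^ m := by
      intro r hr
      have hr' := (Finset.mem_range.1 hr).le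
      refine (qq_lim h m r).trans ?_
      have h2 : (3 : ℝ) ^ r ≤ 3 ^ R := pow_le_pow_right₀ (by norm_num) hr'
      rw [one_div_pow, mul_assoc, mul_one_div]
      gcongr
    refine (Finset.sum_le_sum h1).trans (le_of_eq ?_)
    rw [Finset.sum_const, Finset.card_range, nsmul_eq_mul]
    ring
  have hlim : Tendsto (fun m : ℕ => 24 * R * 3 ^ R * (1 / 3 : ℝ) ^ m) atTop (nhds 0) := by
    have := (tendsto_pow_atTop_nhds_zero_of_lt_one (show (0 : ℝ) ≤ 1 / 3 by norm_num)
      (by norm_num)).const_mul (24 * (R : ℝ) * 3 ^ R)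
    simpa using this
  have hq : Tendsto (fun m : ℕ => ∑ r ∈ Finset.range R, qq m r) atTop
      (nhds (∑ r ∈ Finset.range R, ur r)) := by
    rw [tendsto_iff_dist_tendsto_zero]
    refine squeeze_zero' (Eventually.of_forall fun _ => dist_nonneg) ?_ hlim
    filter_upwards [eventually_ge_atTop R] with m hm
    exact key m (by omega)
  have hsum : ∀ m, R ≤ m + 1 → ∑ r ∈ Finset.range R, qq m r +
      ∑ r ∈ Finset.Ico R (m + 1), qq m r = 1 := by
    intro m hm
    rw [Finset.sum_range_add_sum_Ico _ hm, sum_qq]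
  constructor
  · refine ge_of_tendsto hq ?_
    filter_upwards [eventually_ge_atTop R] with m hm
    have h1 := hsum m (by omega)
    have h2 : ∑ r ∈ Finset.Ico R (m + 1), qq m r ≤ 3 * (1 / 3 : ℝ) ^ (R ^ 2) :=
      (Finset.sum_le_sum fun r _ => qq_le h m r).trans (geo R (m + 1))
    linarith
  · refine le_of_tendsto hq ?_
    filter_upwards [eventually_ge_atTop R] with m hm
    have h1 := hsum m (by omega)
    have h2 : 0 ≤ ∑ r ∈ Finset.Ico R (m + 1), qq m r :=
      Finset.sum_nonneg fun r _ => qq_nonneg m r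
    linarith

/-- the law is a probability -/
theorem ur_hasSum (h : S_C3) : HasSum ur 1 := by
  rw [hasSum_iff_tendsto_nat_of_nonneg (ur_nonneg h)]
  have h1 : Tendsto (fun R : ℕ => 1 - 3 * (1 / 3 : ℝ) ^ (R ^ 2)) atTop (nhds 1) := by
    have h2 : Tendsto (fun R : ℕ => (1 / 3 : ℝ) ^ (R ^ 2)) atTop (nhds 0) :=
      (tendsto_pow_atTop_nhds_zero_of_lt_one (by norm_num) (by norm_num)).comp
        (tendsto_pow_atTop (by norm_num))
    simpa using tendsto_const_nhds.sub (h2.const_mul 3)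
  exact tendsto_of_tendsto_of_tendsto_of_le_of_le h1 tendsto_const_nhds
    (fun R => (ur_part h R).1) fun R => (ur_part h R).2

theorem ur_one : ur 1 = 3 / 4 * c3 := by
  unfold ur pm
  simp
  ring

end Pool.Agent.H462.N9.Law
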