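import Pool.Agent.H462.N9.Law.Cou
import Pool.Agent.H462.N9.Law.Ker
import Pool.Agent.H462.N9.Law.Sum
import Pool.Agent.H462.N9.RkQ
import Pool.Agent.H462.N9.One
import Pool.Graph.R_seed8.Y455.CTK.JEX

/-!
# The rank over `ℚ` of the curves `y² + 3 m y = x³`
-/

set_option autoImplicit false
set_option linter.unusedVariables false

open scoped Classical

namespace Pool.Agent.H462.N9.Law

open NumberField WeierstrassCurve Module
open Pool.Agent.Y692.QS (Ei)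
open Pool.Agent.Y703.CX (lam LamP)
open Pool.Agent.Y703.CT
open Pool.Agent.Y696.CTK (ED)
open Pool.Agent.Y710.CTE (Ed)
open Pool.Agent.H462.N9.Sel (K9)

lemma Sq.cls {m : ℕ} (h : Sq m) (h1 : m ≠ 1) : Pool.Agent.H462.N9.Tam.Cls3 m := by
  refine ⟨h.1.ne_zero, h1, h.2, fun p hp hd => ?_⟩
  have h2 : p * p ∣ m := (Dvd.intro _ (by ring)).trans hd
  exact hp.one_lt.ne' (Nat.isUnit_iff.1 (h.1 p h2))

lemma Sq.ne {m : ℕ} (h : Sq m) (h1 : m ≠ 1) : m.primeFactors.Nonempty := by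
  rw [Finset.nonempty_iff_ne_empty, Ne, Nat.primeFactors_eq_empty]
  rintro (h2 | h2)
  · exact h.1.ne_zero h2
  · exact h1 h2

/-- the corank exists -/
theorem exists_r {m : ℕ} (hm : Sq m) : ∃ r, (Spl (3 * m)).ncard = 3 ^ (r + 1) := by
  rw [card_Spl Pool.Agent.Y333.CX.t_LAM hm, nQ_mat]
  have a2 := Module.natCard_eq_pow_finrank (K := ZMod 3)
    (V := LinearMap.ker (Mt m.primeFactors).mulVecLin)
  refine ⟨Module.finrank (ZMod 3) (LinearMap.ker (Mt m.primeFactors).mulVecLin), ?_⟩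
  have a3 : Nat.card {x : m.primeFactors → ZMod 3 // (Mt m.primeFactors).mulVec x = 0} =
      Nat.card (LinearMap.ker (Mt m.primeFactors).mulVecLin) := rfl
  rw [a3, a2, Nat.card_zmod, pow_succ]
  ring

/-- **the rank over `ℚ`** -/
theorem rk_m {m : ℕ} (hm : Sq m) (h1 : m ≠ 1) {r : ℕ} (hr : (Spl (3 * m)).ncard = 3 ^ (r + 1)) :
    Module.Finite ℤ (EQ (WD ((3 * m : ℕ) : ℤ))).toAffine.Point ∧
      finrank ℤ (EQ (WD ((3 * m : ℕ) : ℤ))).toAffine.Point ≤ 2 * r := by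
  have hL := Pool.Agent.Y333.CX.t_LAM
  rw [card_Spl hL hm] at hr
  have hK := K9_card hL hm.cl
  rw [hr] at hK
  have hK2 : (K9 (pj m.primeFactors) (fun _ => (1 : ZMod 3))).ncard ≤ 3 ^ (2 * r + 1) := by
    have e : (3 : ℕ) ^ (r + 1) * 3 ^ (r + 1) = 3 ^ (2 * r + 1) * 3 := by ring
    rw [e] at hK
    exact (Nat.eq_of_mul_eq_mul_right (by norm_num) hK).le
  have hne : Nonempty (m.primeFactors × Bool) := by
    obtain ⟨p, hp⟩ := hm.ne h1
    exact ⟨(⟨p, hp⟩, true)⟩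
  have : IsCyclotomicExtension {3} ℚ (CyclotomicField 3 ℚ) :=
    CyclotomicField.isCyclotomicExtension 3 ℚ
  obtain ⟨⟨j, -⟩, -⟩ := Pool.Agent.Y455.CTK.jex (CyclotomicField 3 ℚ)
  obtain ⟨a1, a2⟩ := Pool.Agent.H462.N9.RkQ.rk j (pj_dt hL hm.cl)
  have a3 := a2 _ hK2
  have hm0 : m ≠ 0 := hm.1.ne_zero
  have hprod := Nat.prod_primeFactors_of_squarefree hm.1
  have hz : (j (3 * pD (pj m.primeFactors) (fun _ => (1 : ZMod 3))) : CyclotomicField 3 ℚ) =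
      algebraMap ℚ (CyclotomicField 3 ℚ) ((3 * m : ℕ) : ℚ) := by
    rw [pj_pD hL hm.cl, hprod]
    push_cast
    rw [map_mul, map_ofNat, map_natCast]
    push_cast
    rfl
  rw [hz] at a1 a3
  have hE : ∀ x : CyclotomicField 3 ℚ, ED x = Ed x := fun x => rfl
  rw [hE] at a1 a3
  have hd : ((3 * m : ℕ) : ℚ) ≠ 0 := by
    have : 3 * m ≠ 0 := by omega
    exact_mod_cast this
  obtain ⟨b1, b2⟩ := Pool.Agent.H462.N9.RkQ.rank_Q (CyclotomicField 3 ℚ) hd a1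
  have hW : EQ (WD ((3 * m : ℕ) : ℤ)) = Ed (((3 * m : ℕ) : ℚ)) := by
    ext <;> simp [WD, Ed]
  rw [hW]
  exact ⟨b1, by omega⟩

end Pool.Agent.H462.N9.Law
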