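import Pool.Agent.H462.N9.Law.Stm
import Pool.Agent.H462.N9.Cri
import Pool.Graph.R_seed8.Y710.CX.NS
import Pool.Graph.R_seed8.Y333.CX.LAM

/-!
# The translation between the numbers `3 m` and the sets of primes
-/

set_option autoImplicit false
set_option linter.unusedVariables false

open scoped Classical

namespace Pool.Agent.H462.N9.Law

open Finset
open Pool.Agent.Y703.CX (lam LamP)
open Pool.Agent.Y703.CT (NoSplit)
open Pool.Agent.Y710.CX (dd part part_prime lam_dd prod_dd)

/-- the coprime factorizations `D = d₀ d₁ d₂` such that `d_{c+1} d_{c+2}²` is a cube modulo the primes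
which divide `d_c` -/
def Spl (D : ℕ) : Set (ZMod 3 → ℕ) :=
  {d | ∏ c, d c = D ∧ (∀ c c', c ≠ c' → Nat.Coprime (d c) (d c')) ∧
    ∀ (c : ZMod 3) (p : ℕ), p.Prime → p ∣ d c →
      ∃ x : ℤ, (p : ℤ) ∣ (d (c + 1) : ℤ) * (d (c + 2) : ℤ) ^ 2 - x ^ 3}

/-- squarefree, all primes `≡ 1` modulo `3` -/
def Sq (m : ℕ) : Prop := Squarefree m ∧ ∀ p : ℕ, p.Prime → p ∣ m → p % 3 = 1

lemma Sq.cl {m : ℕ} (h : Sq m) : Cl m.primeFactors := fun p hp =>
  ⟨Nat.prime_of_mem_primeFactors hp, h.2 p (Nat.prime_of_mem_primeFactors hp)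
    (Nat.dvd_of_mem_primeFactors hp)⟩

lemma Sq.three {m : ℕ} (h : Sq m) : ¬ 3 ∣ m := fun h3 => by
  have := h.2 3 Nat.prime_three h3
  norm_num at this

lemma Sq.sq3 {m : ℕ} (h : Sq m) : Squarefree (3 * m) := by
  rw [Nat.squarefree_mul ((Nat.Prime.coprime_iff_not_dvd Nat.prime_three).2 h.three)]
  exact ⟨Nat.prime_three.squarefree, h.1⟩

lemma Sq.pf {m : ℕ} (h : Sq m) : (3 * m).primeFactors = insert 3 m.primeFactors := by
  rw [Nat.primeFactors_mul (by norm_num) h.1.ne_zero, Nat.prime_three.primeFactors]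
  rfl

lemma Sq.n3 {m : ℕ} (h : Sq m) : 3 ∉ m.primeFactors := fun h3 =>
  h.three (Nat.dvd_of_mem_primeFactors h3)

/-- the labels -/
noncomputable def cc {S : Finset ℕ} (v : Option S → ZMod 3) (p : ℕ) : ZMod 3 :=
  if p = 3 then v none else if h : p ∈ S then v (some ⟨p, h⟩) else 0

lemma cc_three {S : Finset ℕ} (v : Option S → ZMod 3) : cc v 3 = v none := if_pos rfl

lemma cc_mem {S : Finset ℕ} (h3 : 3 ∉ S) (v : Option S → ZMod 3) (p : S) :
    cc v p = v (some p) := by
  have hp : (p : ℕ) ≠ 3 := fun h => h3 (by rw [← h]; exact p.2)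
  unfold cc
  rw [if_neg hp, dif_pos p.2]

/-- the equations -/
lemma eqn_iff {m : ℕ} (hm : Sq m) (v : Option m.primeFactors → ZMod 3) (p : m.primeFactors) :
    lam p 3 * (v none - v (some p)) + ∑ q : m.primeFactors, lam p q * (v (some q) - v (some p)) =
      ∑ q ∈ (3 * m).primeFactors, (cc v q - cc v p) * lam p q := by
  rw [hm.pf, sum_insert hm.n3, cc_three, ← Finset.sum_coe_sort m.primeFactors]
  congr 1
  · rw [cc_mem hm.n3, mul_comm]
  · refine sum_congr rfl fun q _ => ?_
    rw [cc_mem hm.n3, cc_mem hm.n3, mul_comm]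

lemma mem_dd {S : Finset ℕ} (hS : ∀ q ∈ S, q.Prime) (c : ℕ → ZMod 3) (i : ZMod 3) (p : ℕ)
    (hp : p.Prime) (hd : p ∣ dd S c i) : p ∈ S ∧ c p = i := by
  unfold dd at hd
  obtain ⟨q, hq, hpq⟩ := (hp.prime.dvd_finsetProd_iff _).1 hd
  rw [(Nat.prime_dvd_prime_iff_eq hp (part_prime hS c i q hq)).1 hpq]
  exact Finset.mem_filter.1 hq

theorem card_Spl (hL : LamP) {m : ℕ} (hm : Sq m) : (Spl (3 * m)).ncard = nQ m.primeFactors := by
  have hS : ∀ q ∈ (3 * m).primeFactors, q.Prime := fun q hq => Nat.prime_of_mem_primeFactors hq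
  have h0 : 3 * m ≠ 0 := hm.sq3.ne_zero
  have hprod : ∏ q ∈ (3 * m).primeFactors, q = 3 * m :=
    Nat.prod_primeFactors_of_squarefree hm.sq3
  have h33 : 3 ∈ (3 * m).primeFactors := by rw [hm.pf]; exact mem_insert_self _ _
  have hcl := hm.cl
  unfold nQ
  rw [← Nat.card_coe_set_eq]
  symm
  have hmem : ∀ v : {v : Option m.primeFactors → ZMod 3 // ∀ p : m.primeFactors,
      lam p 3 * (v none - v (some p)) + ∑ q : m.primeFactors, lam p q *
        (v (some q) - v (some p)) = 0}, dd (3 * m).primeFactors (cc v.1) ∈ Spl (3 * m) := by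
    rintro ⟨v, hv⟩
    refine ⟨(prod_dd _).trans hprod, fun i j hij => ?_, fun i p hp hd => ?_⟩
    · refine Nat.coprime_of_dvd fun p hp h1 h2 => ?_
      exact hij ((mem_dd hS _ _ p hp h1).2.symm.trans (mem_dd hS _ _ p hp h2).2)
    · obtain ⟨hpS, hcp⟩ := mem_dd hS _ _ p hp hd
      rw [hm.pf, mem_insert] at hpS
      rcases hpS with rfl | hpS
      · exact Pool.Agent.H462.N9.Cri.cube_three _
      · have h1 := (hcl p hpS).2
        obtain ⟨k1, k2⟩ := lam_dd hL hS (cc v) hp h1
        have k3 := hv ⟨p, hpS⟩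
        rw [eqn_iff hm] at k3
        simp only at k3
        rw [k3] at k2
        rw [hcp] at k1 k2
        have := (hL.cube p _ hp h1 k1).1 k2
        push_cast at this
        exact this
  refine Nat.card_eq_of_bijective (fun v => (⟨dd (3 * m).primeFactors (cc v.1), hmem v⟩ :
    Spl (3 * m))) ⟨?_, ?_⟩
  · rintro ⟨v, hv⟩ ⟨v', hv'⟩ h
    have h1 : dd (3 * m).primeFactors (cc v) = dd (3 * m).primeFactors (cc v') :=
      congrArg Subtype.val h
    have h2 : ∀ p ∈ (3 * m).primeFactors, cc v p = cc v' p := by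
      intro p hp
      have h3 : p ∣ dd (3 * m).primeFactors (cc v) (cc v p) := by
        unfold dd
        exact Finset.dvd_prod_of_mem _ (Finset.mem_filter.2 ⟨hp, rfl⟩)
      rw [h1] at h3
      exact (mem_dd hS _ _ p (hS p hp) h3).2.symm
    apply Subtype.ext
    funext o
    show v o = v' o
    cases o with
    | none => rw [← cc_three v, ← cc_three v']; exact h2 3 h33
    | some p =>
      rw [← cc_mem hm.n3 v p, ← cc_mem hm.n3 v' p]
      exact h2 p (by rw [hm.pf]; exact mem_insert_of_mem p.2)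
  · rintro ⟨d, hd, hcop, hcube⟩
    have hex : ∀ p ∈ (3 * m).primeFactors, ∃ i : ZMod 3, p ∣ d i := by
      intro p hp
      have h1 : p ∣ ∏ i, d i := by
        rw [hd]
        exact Nat.dvd_of_mem_primeFactors hp
      obtain ⟨i, -, hi⟩ := ((hS p hp).prime.dvd_finsetProd_iff _).1 h1
      exact ⟨i, hi⟩
    have huniq : ∀ p : ℕ, p.Prime → ∀ i j : ZMod 3, p ∣ d i → p ∣ d j → i = j := by
      intro p hp i j h1 h2
      by_contra hne
      have h3 : p ∣ Nat.gcd (d i) (d j) := Nat.dvd_gcd h1 h2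
      rw [Nat.Coprime.gcd_eq_one (hcop i j hne)] at h3
      exact hp.one_lt.ne' (Nat.dvd_one.1 h3)
    obtain ⟨c, hc⟩ : ∃ c : ℕ → ZMod 3, ∀ p ∈ (3 * m).primeFactors, p ∣ d (c p) := by
      refine ⟨fun p => if hp : ∃ i : ZMod 3, p ∣ d i then hp.choose else 0, fun p hp => ?_⟩
      have := hex p hp
      simp only [this, dif_pos]
      exact this.choose_spec
    have hdD : ∀ i, d i ∣ 3 * m := fun i => by
      rw [← hd]
      exact Finset.dvd_prod_of_mem _ (Finset.mem_univ i)
    have hdd : ∀ i, dd (3 * m).primeFactors c i = d i := by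
      intro i
      unfold dd
      rw [← Nat.prod_primeFactors_of_squarefree (hm.sq3.squarefree_of_dvd (hdD i))]
      refine Finset.prod_congr ?_ fun _ _ => rfl
      ext p
      unfold part
      rw [Finset.mem_filter, Nat.mem_primeFactors, Nat.mem_primeFactors]
      constructor
      · rintro ⟨⟨hp, hpD, -⟩, rfl⟩
        exact ⟨hp, hc p (Nat.mem_primeFactors.2 ⟨hp, hpD, h0⟩),
          fun h => h0 (Nat.eq_zero_of_zero_dvd (h ▸ hdD _))⟩
      · rintro ⟨hp, hpd, -⟩
        have hpm : p ∈ (3 * m).primeFactors := Nat.mem_primeFactors.2 ⟨hp, hpd.trans (hdD i), h0⟩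
        exact ⟨⟨hp, hpd.trans (hdD i), h0⟩, huniq p hp _ _ (hc p hpm) hpd⟩
    -- the vector
    set v : Option m.primeFactors → ZMod 3 := fun o => match o with
      | none => c 3
      | some p => c p with hv
    have hcv : ∀ p ∈ (3 * m).primeFactors, cc v p = c p := by
      intro p hp
      rw [hm.pf, mem_insert] at hp
      rcases hp with rfl | hp
      · rw [cc_three]
      · exact cc_mem hm.n3 v ⟨p, hp⟩
    have hdc : dd (3 * m).primeFactors (cc v) = dd (3 * m).primeFactors c := by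
      funext i
      unfold dd part
      refine Finset.prod_congr (filter_congr fun p hp => ?_) fun _ _ => rfl
      rw [hcv p hp]
    refine ⟨⟨v, fun p => ?_⟩, ?_⟩
    · have hp3 : (p : ℕ) ∈ (3 * m).primeFactors := by rw [hm.pf]; exact mem_insert_of_mem p.2
      have h1 := (hcl p p.2).2
      rw [eqn_iff hm]
      obtain ⟨k1, k2⟩ := lam_dd hL hS (cc v) (hS p hp3) h1
      rw [← k2]
      rw [hL.cube p _ (hS p hp3) h1 k1, hcv p hp3, hdc, hdd, hdd]
      have := hcube (c p) p (hS p hp3) (hc p hp3)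
      push_cast
      exact this
    · apply Subtype.ext
      show dd (3 * m).primeFactors (cc v) = d
      rw [hdc]
      funext i
      exact hdd i

end Pool.Agent.H462.N9.Law
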